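import Pool.Agent.MAbc.Basic

/-!
# MAbc.DimCover: covering a strip by small sets

PROOF. `H = max |A| (max |B| |C|)`, `w = δ/H < 1/2`. If `|B|, |C| < H/(4R)` then `|A| = H` and the set is empty (`N = 0`).
If `|B| ≥ H/(4R)` let `N = ⌈2R/w⌉ ≤ 2R/w + 1 ≤ 3R/w` and let `t j` be the part of the set with `v.2` in
`[-R + j w, -R + (j+1) w]`; two points of `t j` have second coordinates at distance at most `w`, and first coordinates
at distance at most `2 δ/|B| + w |C|/|B| ≤ 8 R w + 4 R w` (the first coordinate is within `δ/|B|` of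
`(v.2 C - A)/B`). If `|C| ≥ H/(4R)` exchange the coordinates. (The distance on `ℝ × ℝ` is the maximum.)
-/

set_option linter.all false
namespace MAbc

open MeasureTheory

private theorem DimCover_idx {R w s : ℝ} (hR : 1 ≤ R) (hw : 0 < w) (hs : |s| ≤ R) :
    ∃ j ∈ Finset.range (⌊2 * R / w⌋₊ + 1), -R + (j : ℝ) * w ≤ s ∧ s ≤ -R + ((j : ℝ) + 1) * w := by
  obtain ⟨h1, h2⟩ := abs_le.1 hs
  have h3 : 0 ≤ (s + R) / w := by
    apply div_nonneg _ hw.le
    linarith
  refine ⟨⌊(s + R) / w⌋₊, ?_, ?_, ?_⟩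
  · rw [Finset.mem_range, Nat.lt_succ_iff]
    apply Nat.floor_le_floor
    apply div_le_div_of_nonneg_right _ hw.le
    linarith
  · have h4 := Nat.floor_le h3
    rw [le_div_iff₀ hw] at h4
    linarith
  · have h4 := Nat.lt_floor_add_one ((s + R) / w)
    rw [div_lt_iff₀ hw] at h4
    linarith

private theorem DimCover_N {R w : ℝ} (hR : 1 ≤ R) (hw : 0 < w) (hw1 : w ≤ 1) :
    ((⌊2 * R / w⌋₊ + 1 : ℕ) : ℝ) * w ≤ 4 * R := by
  have h1 : ((⌊2 * R / w⌋₊ : ℕ) : ℝ) ≤ 2 * R / w := Nat.floor_le (by positivity)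
  rw [le_div_iff₀ hw] at h1
  push_cast
  nlinarith

private theorem DimCover_key {A P Q R δ H w x y x' y' : ℝ} (hR : 1 ≤ R) (hH0 : 0 < H)
    (hw : w = δ / H) (hδ : 0 < δ) (hP : H / (4 * R) ≤ |P|) (hQ : |Q| ≤ H)
    (h1 : |A + x * P - y * Q| ≤ δ) (h2 : |A + x' * P - y' * Q| ≤ δ) (h3 : |y - y'| ≤ w) :
    |x - x'| ≤ 16 * R * w := by
  have hwH : w * H = δ := by rw [hw]; field_simp
  have hw0 : 0 < w := by rw [hw]; positivity
  have e : (x - x') * P = (A + x * P - y * Q) - (A + x' * P - y' * Q) + (y - y') * Q := by ring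
  have h4 : |x - x'| * |P| ≤ 3 * δ := by
    rw [← abs_mul, e]
    refine (abs_add_le _ _).trans ?_
    have h5 := abs_sub (A + x * P - y * Q) (A + x' * P - y' * Q)
    have h6 : |(y - y') * Q| ≤ w * H := by
      rw [abs_mul]
      exact mul_le_mul h3 hQ (abs_nonneg _) hw0.le
    linarith
  have h5 : |x - x'| * (H / (4 * R)) ≤ 3 * δ :=
    (mul_le_mul_of_nonneg_left hP (abs_nonneg _)).trans h4
  have h6 : |x - x'| * H ≤ 3 * δ * (4 * R) := by
    have h7 : |x - x'| * (H / (4 * R)) = |x - x'| * H / (4 * R) := by ring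
    rw [h7, div_le_iff₀ (by positivity)] at h5
    exact h5
  have h8 : |x - x'| * H ≤ (12 * R * w) * H := by
    calc |x - x'| * H ≤ 3 * δ * (4 * R) := h6
      _ = (12 * R * w) * H := by rw [← hwH]; ring
  have h9 : |x - x'| ≤ 12 * R * w := le_of_mul_le_mul_right h8 hH0
  have h10 : 0 < R * w := by positivity
  linarith

theorem strip_cover {A B C R δ H : ℝ} (hR : 1 ≤ R) (hδ : 0 < δ) (hH : H = max |A| (max |B| |C|)) (hH0 : 0 < H)
    (hδH : δ < H / 2) : ∃ (N : ℕ) (t : ℕ → Set (ℝ × ℝ)),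
      {v : ℝ × ℝ | |A + v.1 * B - v.2 * C| ≤ δ ∧ |v.1| ≤ R ∧ |v.2| ≤ R} ⊆ ⋃ j ∈ Finset.range N, t j ∧
      (∀ j, Metric.ediam (t j) ≤ ENNReal.ofReal (16 * R * (δ / H))) ∧ (N : ℝ) * (δ / H) ≤ 4 * R := by
  obtain ⟨w, hw⟩ : ∃ w, w = δ / H := ⟨_, rfl⟩
  have hw0 : 0 < w := by rw [hw]; positivity
  have hw1 : w ≤ 1 := by
    rw [hw, div_le_one hH0]
    linarith
  have hBH : |B| ≤ H := by rw [hH]; exact (le_max_left _ _).trans (le_max_right _ _)
  have hCH : |C| ≤ H := by rw [hH]; exact (le_max_right _ _).trans (le_max_right _ _)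
  have hRw : w ≤ 16 * R * w := by nlinarith
  rcases le_or_gt (H / (4 * R)) |B| with hB | hB
  · refine ⟨⌊2 * R / w⌋₊ + 1, fun j => {v : ℝ × ℝ | |A + v.1 * B - v.2 * C| ≤ δ ∧
      -R + (j : ℝ) * w ≤ v.2 ∧ v.2 ≤ -R + ((j : ℝ) + 1) * w}, ?_, ?_, ?_⟩
    · rintro v ⟨h1, -, h3⟩
      obtain ⟨j, hj, h4⟩ := DimCover_idx hR hw0 h3
      exact Set.mem_biUnion hj ⟨h1, h4⟩
    · intro j
      rw [← hw]
      refine Metric.ediam_le ?_
      rintro u ⟨hu1, hu2, hu3⟩ v ⟨hv1, hv2, hv3⟩
      rw [edist_dist]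
      apply ENNReal.ofReal_le_ofReal
      have h5 : |u.2 - v.2| ≤ w := by
        rw [abs_le]
        constructor <;> linarith
      rw [Prod.dist_eq, Real.dist_eq, Real.dist_eq]
      exact max_le (DimCover_key hR hH0 hw hδ hB hCH hu1 hv1 h5) (h5.trans hRw)
    · rw [← hw]
      exact DimCover_N hR hw0 hw1
  · rcases le_or_gt (H / (4 * R)) |C| with hC | hC
    · refine ⟨⌊2 * R / w⌋₊ + 1, fun j => {v : ℝ × ℝ | |A + v.1 * B - v.2 * C| ≤ δ ∧
        -R + (j : ℝ) * w ≤ v.1 ∧ v.1 ≤ -R + ((j : ℝ) + 1) * w}, ?_, ?_, ?_⟩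
      · rintro v ⟨h1, h3, -⟩
        obtain ⟨j, hj, h4⟩ := DimCover_idx hR hw0 h3
        exact Set.mem_biUnion hj ⟨h1, h4⟩
      · intro j
        rw [← hw]
        refine Metric.ediam_le ?_
        rintro u ⟨hu1, hu2, hu3⟩ v ⟨hv1, hv2, hv3⟩
        rw [edist_dist]
        apply ENNReal.ofReal_le_ofReal
        have h5 : |u.1 - v.1| ≤ w := by
          rw [abs_le]
          constructor <;> linarith
        rw [Prod.dist_eq, Real.dist_eq, Real.dist_eq]
        have hu1' : |A + u.2 * (-C) - u.1 * (-B)| ≤ δ := by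
          have e : A + u.2 * (-C) - u.1 * (-B) = A + u.1 * B - u.2 * C := by ring
          rw [e]; exact hu1
        have hv1' : |A + v.2 * (-C) - v.1 * (-B)| ≤ δ := by
          have e : A + v.2 * (-C) - v.1 * (-B) = A + v.1 * B - v.2 * C := by ring
          rw [e]; exact hv1
        exact max_le (h5.trans hRw) (DimCover_key hR hH0 hw hδ (by rwa [abs_neg])
          (by rwa [abs_neg]) hu1' hv1' h5)
      · rw [← hw]
        exact DimCover_N hR hw0 hw1
    · refine ⟨0, fun _ => ∅, ?_, ?_, ?_⟩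
      · rintro v ⟨h1, h2, h3⟩
        exfalso
        have h4R : H / (4 * R) < H := by
          rw [div_lt_iff₀ (by positivity)]
          nlinarith
        have hA : |A| = H := by
          have hm : max |A| (max |B| |C|) = H := hH.symm
          rcases max_choice |A| (max |B| |C|) with h5 | h5
          · rw [← hm, h5]
          · rcases max_choice |B| |C| with h6 | h6
            · rw [h5, h6] at hm; linarith
            · rw [h5, h6] at hm; linarith
        have h5 : |v.1 * B| ≤ H / 4 := by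
          rw [abs_mul]
          calc |v.1| * |B| ≤ R * (H / (4 * R)) := mul_le_mul h2 hB.le (abs_nonneg _) (by linarith)
            _ = H / 4 := by field_simp
        have h6 : |v.2 * C| ≤ H / 4 := by
          rw [abs_mul]
          calc |v.2| * |C| ≤ R * (H / (4 * R)) := mul_le_mul h3 hC.le (abs_nonneg _) (by linarith)
            _ = H / 4 := by field_simp
        have e : A = (A + v.1 * B - v.2 * C) - v.1 * B + v.2 * C := by ring
        have h7 : |A| ≤ |A + v.1 * B - v.2 * C| + |v.1 * B| + |v.2 * C| := by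
          calc |A| = |(A + v.1 * B - v.2 * C) - v.1 * B + v.2 * C| := by rw [← e]
            _ ≤ |(A + v.1 * B - v.2 * C) - v.1 * B| + |v.2 * C| := abs_add_le _ _
            _ ≤ |A + v.1 * B - v.2 * C| + |v.1 * B| + |v.2 * C| := by
                have := abs_sub (A + v.1 * B - v.2 * C) (v.1 * B)
                linarith
        linarith
      · intro j
        simp
      · have : 0 ≤ R := by linarith
        simp
        linarith

end MAbc
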