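import Pool.Agent.MAbc.Cor
import Pool.Agent.MAbc.DimCover

/-!
# MAbc.Dim: the exceptional set has Hausdorff dimension less than 2

PROOF. By `dimH_iUnion` (countably many `S` and boxes `R = 1, 2, ...`) fix `S` and a box of radius `R`. Let
`d > 1 + 41/(42 (1 - η))`, `H = mx T`, `w_T = H^(η-1)`.
(1) Summability: for `T` in `Terms S`, `rad T.1 rad T.2.1 rad T.2.2 ≤ K H^(41/42)` (`rad_mul_pow_le`, `abs_le_rpow`, `rad_le_of_unit`,
`hyp_real`, as in the proofs of `fviol_subset` and `metric_S`), so with `σ = (1-η)(d-1) - 41/42 > 0`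
`w_T^(d-1) = H^(-σ - 41/42) ≤ K H^(-σ)/(rad T.1 rad T.2.1 rad T.2.2) ≤ K gs (σ/3) T.1 * gs (σ/3) T.2.1 * gs (σ/3) T.2.2`
(see the proof of `bad_le`), which is summable over all `T` (`sum_bad_ne_top`).
(2) For `H` large (`H^η < H/2`) `strip_cover` covers the set of the `v` in the box with `|L_v(T)| ≤ H^η` by at most
`4 R/w_T` sets of diameter at most `16 R w_T`, with sum of the `d`-th powers of the diameters at most
`4 R (16 R)^d w_T^(d-1)`.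
(3) For every `n` the exceptional set is covered by these sets for the `T` with `mx T ≥ n` (`finite_mx_le`), so by
`MeasureTheory.Measure.hausdorffMeasure_le_liminf_tsum` its `d`-dimensional Hausdorff measure is at most the limit of the
tails of the convergent series, `0`. Hence `dimH ≤ d` (`dimH_le_of_hausdorffMeasure_ne_top`).
-/

namespace MAbc

open MeasureTheory

private theorem Dim_rad {S : Finset ℕ} {T : ℤ × ℤ × ℤ} (hT : T ∈ Terms S) :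
    (T.1 ≠ 0 ∧ T.2.1 ≠ 0 ∧ T.2.2 ≠ 0) ∧
      (rad T.1 : ℝ) * rad T.2.1 * rad T.2.2 ≤
        (∏ l ∈ S, ((l : ℝ) + 1)) ^ 3 * mx T.1 T.2.1 T.2.2 ^ ((41 : ℝ) / 42) := by
  obtain ⟨a, b, c, x, y, z, p, q, r, ha, hb, hc, hx, hy, hz, hp, hq, hr, hyp, hT⟩ := hT
  have hA : a * x ^ p ≠ 0 := mul_ne_zero ha.1 (pow_ne_zero _ hx)
  have hB : b * y ^ q ≠ 0 := mul_ne_zero hb.1 (pow_ne_zero _ hy)
  have hC : c * z ^ r ≠ 0 := mul_ne_zero hc.1 (pow_ne_zero _ hz)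
  subst hT
  refine ⟨⟨hA, hB, hC⟩, ?_⟩
  simp only
  set H := mx (a * x ^ p) (b * y ^ q) (c * z ^ r) with hHdef
  have hH1 : 1 ≤ H := one_le_mx hA _ _
  have hH0 : 0 < H := by linarith
  set P : ℝ := ∏ l ∈ S, ((l : ℝ) + 1) with hP
  have hP0 : 0 ≤ P := by
    rw [hP]
    exact Finset.prod_nonneg (fun l _ => by positivity)
  have hx' : |(x : ℝ)| ≤ H ^ (1 / (p : ℝ)) := abs_le_rpow ha.1 hp (le_max_left _ _)
  have hy' : |(y : ℝ)| ≤ H ^ (1 / (q : ℝ)) := abs_le_rpow hb.1 hq ((le_max_left _ _).trans (le_max_right _ _))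
  have hz' : |(z : ℝ)| ≤ H ^ (1 / (r : ℝ)) := abs_le_rpow hc.1 hr ((le_max_right _ _).trans (le_max_right _ _))
  have r1 := rad_mul_pow_le ha.1 hx p
  have r2 := rad_mul_pow_le hb.1 hy q
  have r3 := rad_mul_pow_le hc.1 hz r
  have ra := rad_le_of_unit ha
  have rb := rad_le_of_unit hb
  have rc := rad_le_of_unit hc
  have n1 : (0 : ℝ) ≤ rad a := Nat.cast_nonneg _
  have n2 : (0 : ℝ) ≤ rad b := Nat.cast_nonneg _
  have n3 : (0 : ℝ) ≤ rad c := Nat.cast_nonneg _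
  have m1 : (rad (a * x ^ p) : ℝ) ≤ P * H ^ (1 / (p : ℝ)) :=
    r1.trans (mul_le_mul ra hx' (abs_nonneg _) hP0)
  have m2 : (rad (b * y ^ q) : ℝ) ≤ P * H ^ (1 / (q : ℝ)) :=
    r2.trans (mul_le_mul rb hy' (abs_nonneg _) hP0)
  have m3 : (rad (c * z ^ r) : ℝ) ≤ P * H ^ (1 / (r : ℝ)) :=
    r3.trans (mul_le_mul rc hz' (abs_nonneg _) hP0)
  have hprod : H ^ (1 / (p : ℝ)) * H ^ (1 / (q : ℝ)) * H ^ (1 / (r : ℝ)) ≤ H ^ ((41 : ℝ) / 42) := by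
    rw [← Real.rpow_add hH0, ← Real.rpow_add hH0]
    exact Real.rpow_le_rpow_of_exponent_le hH1 (hyp_real hp hq hr hyp)
  calc (rad (a * x ^ p) : ℝ) * rad (b * y ^ q) * rad (c * z ^ r)
      ≤ (P * H ^ (1 / (p : ℝ))) * (P * H ^ (1 / (q : ℝ))) * (P * H ^ (1 / (r : ℝ))) := by
        gcongr
    _ = P ^ 3 * (H ^ (1 / (p : ℝ)) * H ^ (1 / (q : ℝ)) * H ^ (1 / (r : ℝ))) := by ring
    _ ≤ P ^ 3 * H ^ ((41 : ℝ) / 42) := by
        gcongr

private theorem Dim_gs {A B C : ℤ} (hA : A ≠ 0) (hB : B ≠ 0) (hC : C ≠ 0) {σ : ℝ} (hσ : 0 < σ) :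
    mx A B C ^ (-σ) / (rad A * rad B * rad C) ≤ gs (σ / 3) A * (gs (σ / 3) B * gs (σ / 3) C) := by
  have hH : 1 ≤ mx A B C := one_le_mx hA B C
  have hH0 : 0 < mx A B C := by linarith
  have hrA : (0 : ℝ) < rad A := by exact_mod_cast rad_pos A
  have hrB : (0 : ℝ) < rad B := by exact_mod_cast rad_pos B
  have hrC : (0 : ℝ) < rad C := by exact_mod_cast rad_pos C
  simp only [gs, hA, hB, hC, if_false]
  have hA1 := one_le_abs hA
  have hB1 := one_le_abs hB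
  have hC1 := one_le_abs hC
  have k1 : (mx A B C) ^ (-σ) ≤ |(A : ℝ)| ^ (-(σ / 3)) * (|(B : ℝ)| ^ (-(σ / 3)) * |(C : ℝ)| ^ (-(σ / 3))) := by
    have e2 : (mx A B C) ^ (-σ) = (mx A B C) ^ (-(σ / 3)) * ((mx A B C) ^ (-(σ / 3)) * (mx A B C) ^ (-(σ / 3))) := by
      rw [← Real.rpow_add hH0, ← Real.rpow_add hH0]
      congr 1
      ring
    rw [e2]
    have f : ∀ x : ℝ, 1 ≤ x → x ≤ mx A B C → (mx A B C) ^ (-(σ / 3)) ≤ x ^ (-(σ / 3)) := by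
      intro x hx hx'
      exact Real.rpow_le_rpow_of_nonpos (by linarith) hx' (by linarith)
    have fA := f _ hA1 (le_max_left _ _)
    have fB := f _ hB1 ((le_max_left _ _).trans (le_max_right _ _))
    have fC := f _ hC1 ((le_max_right _ _).trans (le_max_right _ _))
    have p0 : 0 ≤ (mx A B C) ^ (-(σ / 3)) := by positivity
    exact mul_le_mul fA (mul_le_mul fB fC p0 (by positivity)) (by positivity) (by positivity)
  have e4 : |(A : ℝ)| ^ (-(σ / 3)) / rad A * (|(B : ℝ)| ^ (-(σ / 3)) / rad B * (|(C : ℝ)| ^ (-(σ / 3)) / rad C)) =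
      (|(A : ℝ)| ^ (-(σ / 3)) * (|(B : ℝ)| ^ (-(σ / 3)) * |(C : ℝ)| ^ (-(σ / 3)))) / (rad A * rad B * rad C) := by
    field_simp
  rw [e4]
  gcongr

/-- the bound for the sum over one strip -/
private theorem Dim_term {S : Finset ℕ} {T : ℤ × ℤ × ℤ} (hT : T ∈ Terms S) {η d σ : ℝ}
    (hσ : 0 < σ) (hd : σ = (1 - η) * (d - 1) - 41 / 42) :
    mx T.1 T.2.1 T.2.2 ^ (-((1 - η) * (d - 1))) ≤
      (∏ l ∈ S, ((l : ℝ) + 1)) ^ 3 * (gs (σ / 3) T.1 * (gs (σ / 3) T.2.1 * gs (σ / 3) T.2.2)) := by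
  obtain ⟨⟨hA, hB, hC⟩, hr⟩ := Dim_rad hT
  set P : ℝ := ∏ l ∈ S, ((l : ℝ) + 1) with hP
  have hP0 : 0 ≤ P ^ 3 := by
    rw [hP]
    exact pow_nonneg (Finset.prod_nonneg (fun l _ => by positivity)) 3
  have hH0 : 0 < mx T.1 T.2.1 T.2.2 := by linarith [one_le_mx hA T.2.1 T.2.2]
  have hrA : (0 : ℝ) < rad T.1 := by exact_mod_cast rad_pos _
  have hrB : (0 : ℝ) < rad T.2.1 := by exact_mod_cast rad_pos _
  have hrC : (0 : ℝ) < rad T.2.2 := by exact_mod_cast rad_pos _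
  refine le_trans ?_ (mul_le_mul_of_nonneg_left (Dim_gs hA hB hC hσ) hP0)
  have e1 : mx T.1 T.2.1 T.2.2 ^ (-σ) =
      mx T.1 T.2.1 T.2.2 ^ (-((1 - η) * (d - 1))) * mx T.1 T.2.1 T.2.2 ^ ((41 : ℝ) / 42) := by
    rw [← Real.rpow_add hH0]
    congr 1
    rw [hd]
    ring
  rw [e1, mul_div_assoc', le_div_iff₀ (by positivity)]
  have h0 : 0 ≤ mx T.1 T.2.1 T.2.2 ^ (-((1 - η) * (d - 1))) := by positivity
  calc mx T.1 T.2.1 T.2.2 ^ (-((1 - η) * (d - 1))) * (rad T.1 * rad T.2.1 * rad T.2.2)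
      ≤ mx T.1 T.2.1 T.2.2 ^ (-((1 - η) * (d - 1))) *
        (P ^ 3 * mx T.1 T.2.1 T.2.2 ^ ((41 : ℝ) / 42)) := mul_le_mul_of_nonneg_left hr h0
    _ = P ^ 3 * (mx T.1 T.2.1 T.2.2 ^ (-((1 - η) * (d - 1))) *
        mx T.1 T.2.1 T.2.2 ^ ((41 : ℝ) / 42)) := by ring

/-- the covering of one strip -/
private theorem Dim_cover {S : Finset ℕ} {T : ℤ × ℤ × ℤ} (hT : T ∈ Terms S) {R η d σ : ℝ} (hR : 1 ≤ R)
    (hσ : 0 < σ) (hd0 : 0 < d) (hd : σ = (1 - η) * (d - 1) - 41 / 42)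
    (hbig : mx T.1 T.2.1 T.2.2 ^ η < mx T.1 T.2.1 T.2.2 / 2) :
    ∃ t : ℕ → Set (ℝ × ℝ),
      {v : ℝ × ℝ | |(T.1 : ℝ) + v.1 * T.2.1 - v.2 * T.2.2| ≤ mx T.1 T.2.1 T.2.2 ^ η ∧
        |v.1| ≤ R ∧ |v.2| ≤ R} ⊆ ⋃ j, t j ∧
      (∀ j, Metric.ediam (t j) ≤ ENNReal.ofReal (16 * R * mx T.1 T.2.1 T.2.2 ^ (-(1 - η)))) ∧
      (∑' j, Metric.ediam (t j) ^ d) ≤ ENNReal.ofReal (4 * R * (16 * R) ^ d *
        ((∏ l ∈ S, ((l : ℝ) + 1)) ^ 3 * (gs (σ / 3) T.1 * (gs (σ / 3) T.2.1 * gs (σ / 3) T.2.2)))) := by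
  obtain ⟨⟨hA, hB, hC⟩, -⟩ := Dim_rad hT
  have hterm := Dim_term hT hσ hd
  set H := mx T.1 T.2.1 T.2.2 with hH
  have hH0 : 0 < H := by linarith [one_le_mx hA T.2.1 T.2.2]
  obtain ⟨N, t, h1, h2, h3⟩ := strip_cover (A := (T.1 : ℝ)) (B := (T.2.1 : ℝ)) (C := (T.2.2 : ℝ)) (R := R)
    (δ := H ^ η) (H := H) hR (by positivity) rfl hH0 hbig
  have e1 : H ^ η / H = H ^ (-(1 - η)) := by
    rw [neg_sub, Real.rpow_sub hH0, Real.rpow_one]
  rw [e1] at h2 h3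
  set w := H ^ (-(1 - η)) with hw
  have hw0 : 0 < w := by positivity
  refine ⟨fun j => if j ∈ Finset.range N then t j else ∅, ?_, ?_, ?_⟩
  · intro v hv
    obtain ⟨j, hj, hv'⟩ := Set.mem_iUnion₂.1 (h1 hv)
    refine Set.mem_iUnion.2 ⟨j, ?_⟩
    rw [if_pos hj]
    exact hv'
  · intro j
    by_cases hj : j ∈ Finset.range N
    · simp only [hj, if_true]
      exact h2 j
    · simp only [hj, if_false, Metric.ediam_empty]
      exact zero_le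
  · rw [tsum_eq_sum (s := Finset.range N) (fun j hj => by
      simp only [hj, if_false, Metric.ediam_empty]
      exact ENNReal.zero_rpow_of_pos hd0)]
    calc (∑ j ∈ Finset.range N, Metric.ediam (if j ∈ Finset.range N then t j else ∅) ^ d)
        ≤ ∑ _j ∈ Finset.range N, ENNReal.ofReal ((16 * R * w) ^ d) := by
          apply Finset.sum_le_sum
          intro j hj
          rw [if_pos hj, ← ENNReal.ofReal_rpow_of_nonneg (by positivity) hd0.le]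
          exact ENNReal.rpow_le_rpow (h2 j) hd0.le
      _ = ENNReal.ofReal ((N : ℝ) * (16 * R * w) ^ d) := by
          rw [Finset.sum_const, Finset.card_range, nsmul_eq_mul, ENNReal.ofReal_mul (by positivity),
            ENNReal.ofReal_natCast]
      _ ≤ _ := by
          apply ENNReal.ofReal_le_ofReal
          have e2 : (16 * R * w) ^ d = (16 * R) ^ d * (w * w ^ (d - 1)) := by
            rw [Real.mul_rpow (by positivity) hw0.le]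
            congr 1
            have e4 := Real.rpow_add hw0 1 (d - 1)
            rw [Real.rpow_one, add_sub_cancel] at e4
            exact e4
          have e3 : w ^ (d - 1) = H ^ (-((1 - η) * (d - 1))) := by
            rw [hw, ← Real.rpow_mul hH0.le]
            congr 1
            ring
          rw [e2, e3]
          have h5 : 0 ≤ H ^ (-((1 - η) * (d - 1))) := by positivity
          have h6 : 0 ≤ (16 * R) ^ d := by positivity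
          calc (N : ℝ) * ((16 * R) ^ d * (w * H ^ (-((1 - η) * (d - 1)))))
              = ((N : ℝ) * w) * ((16 * R) ^ d * H ^ (-((1 - η) * (d - 1)))) := by ring
            _ ≤ (4 * R) * ((16 * R) ^ d * H ^ (-((1 - η) * (d - 1)))) :=
                mul_le_mul_of_nonneg_right h3 (mul_nonneg h6 h5)
            _ = 4 * R * (16 * R) ^ d * H ^ (-((1 - η) * (d - 1))) := by ring
            _ ≤ _ := by
                apply mul_le_mul_of_nonneg_left hterm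
                positivity

private theorem Dim_sum {σ K : ℝ} (hσ : 0 < σ) (hK : 0 ≤ K) :
    (∑' T : ℤ × ℤ × ℤ, ENNReal.ofReal (K * (gs (σ / 3) T.1 * (gs (σ / 3) T.2.1 * gs (σ / 3) T.2.2)))) ≠ ⊤ := by
  have hs : Summable (gs (σ / 3)) := summable_rad (s := σ / 3) (by positivity)
  have h2 : Summable (fun T : ℤ × ℤ => gs (σ / 3) T.1 * gs (σ / 3) T.2) :=
    hs.mul_of_nonneg hs (gs_nonneg _) (gs_nonneg _)
  have h3 : Summable (fun T : ℤ × ℤ × ℤ => gs (σ / 3) T.1 * (gs (σ / 3) T.2.1 * gs (σ / 3) T.2.2)) :=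
    hs.mul_of_nonneg h2 (gs_nonneg _) (fun T => mul_nonneg (gs_nonneg _ _) (gs_nonneg _ _))
  have h4 := h3.mul_left K
  rw [← ENNReal.ofReal_tsum_of_nonneg (fun T => ?_) h4]
  · exact ENNReal.ofReal_ne_top
  · have := gs_nonneg (σ / 3) T.1
    have := gs_nonneg (σ / 3) T.2.1
    have := gs_nonneg (σ / 3) T.2.2
    positivity

private theorem Dim_one {η : ℝ} (hη : η < 1 / 42) (S : Finset ℕ) {R : ℝ} (hR : 1 ≤ R) :
    dimH {v : ℝ × ℝ | |v.1| ≤ R ∧ |v.2| ≤ R ∧ {T : ℤ × ℤ × ℤ | T ∈ Terms S ∧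
      |T.1 + v.1 * T.2.1 - v.2 * T.2.2| ≤ mx T.1 T.2.1 T.2.2 ^ η}.Infinite} ≤
    ENNReal.ofReal (1 + 41 / (42 * (1 - η))) := by
  have hη1 : 0 < 1 - η := by linarith
  apply le_of_forall_gt_imp_ge_of_dense
  intro a ha
  obtain ⟨d, hd1, hd2⟩ := ENNReal.lt_iff_exists_nnreal_btwn.1 ha
  refine le_trans ?_ hd2.le
  have hd3 : 1 + 41 / (42 * (1 - η)) < (d : ℝ) := by
    have h0 : (0 : ℝ) ≤ 1 + 41 / (42 * (1 - η)) := by positivity
    rw [← ENNReal.ofReal_coe_nnreal] at hd1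
    exact (ENNReal.ofReal_lt_ofReal_iff_of_nonneg h0).1 hd1
  have hd0 : (0 : ℝ) < d := by
    have h0 : (0 : ℝ) < 41 / (42 * (1 - η)) := by positivity
    linarith
  obtain ⟨σ, hσ⟩ : ∃ σ, σ = (1 - η) * ((d : ℝ) - 1) - 41 / 42 := ⟨_, rfl⟩
  have hσ0 : 0 < σ := by
    have h1 : 41 / (42 * (1 - η)) < (d : ℝ) - 1 := by linarith
    rw [div_lt_iff₀ (by positivity)] at h1
    rw [hσ]
    nlinarith
  apply dimH_le_of_hausdorffMeasure_ne_top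
  have hbig : ∃ n₀ : ℕ, ∀ H : ℝ, (n₀ : ℝ) ≤ H → H ^ η < H / 2 := by
    refine ⟨4, fun H hH => ?_⟩
    have hH4 : (4 : ℝ) ≤ H := by exact_mod_cast hH
    have hH0 : 0 < H := by linarith
    have h1 : H ^ η ≤ H ^ ((1 : ℝ) / 42) := Real.rpow_le_rpow_of_exponent_le (by linarith) hη.le
    have h2 : H ^ ((1 : ℝ) / 42) < H ^ ((1 : ℝ) / 2) :=
      Real.rpow_lt_rpow_of_exponent_lt (by linarith) (by norm_num)
    have h3 : H ^ ((1 : ℝ) / 2) = Real.sqrt H := by rw [Real.sqrt_eq_rpow]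
    have h4 : Real.sqrt H ≤ H / 2 := by
      rw [Real.sqrt_le_left (by positivity)]
      nlinarith
    linarith
  obtain ⟨n₀, hn₀⟩ := hbig
  classical
  have hch : ∀ T : ℤ × ℤ × ℤ, ∃ t : ℕ → Set (ℝ × ℝ), (T ∈ Terms S → (n₀ : ℝ) ≤ mx T.1 T.2.1 T.2.2 →
      {v : ℝ × ℝ | |(T.1 : ℝ) + v.1 * T.2.1 - v.2 * T.2.2| ≤ mx T.1 T.2.1 T.2.2 ^ η ∧
        |v.1| ≤ R ∧ |v.2| ≤ R} ⊆ ⋃ j, t j ∧
      (∀ j, Metric.ediam (t j) ≤ ENNReal.ofReal (16 * R * mx T.1 T.2.1 T.2.2 ^ (-(1 - η)))) ∧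
      (∑' j, Metric.ediam (t j) ^ (d : ℝ)) ≤ ENNReal.ofReal (4 * R * (16 * R) ^ (d : ℝ) *
        ((∏ l ∈ S, ((l : ℝ) + 1)) ^ 3 * (gs (σ / 3) T.1 * (gs (σ / 3) T.2.1 * gs (σ / 3) T.2.2))))) := by
    intro T
    by_cases h : T ∈ Terms S ∧ (n₀ : ℝ) ≤ mx T.1 T.2.1 T.2.2
    · obtain ⟨t, ht⟩ := Dim_cover h.1 hR hσ0 hd0 hσ (hn₀ _ h.2)
      exact ⟨t, fun _ _ => ht⟩
    · exact ⟨fun _ => ∅, fun h1 h2 => absurd ⟨h1, h2⟩ h⟩
  choose t ht using hch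
  set u : ℕ → (ℤ × ℤ × ℤ) × ℕ → Set (ℝ × ℝ) := fun n p =>
    if p.1 ∈ Terms S ∧ (n₀ : ℝ) ≤ mx p.1.1 p.1.2.1 p.1.2.2 ∧ (n : ℝ) ≤ mx p.1.1 p.1.2.1 p.1.2.2
      then t p.1 p.2 else ∅ with hu
  have hr : Filter.Tendsto (fun n : ℕ => ENNReal.ofReal (16 * R * (n : ℝ) ^ (-(1 - η)))) Filter.atTop
      (nhds 0) := by
    have h1 : Filter.Tendsto (fun n : ℕ => 16 * R * (n : ℝ) ^ (-(1 - η))) Filter.atTop (nhds 0) := by
      have h2 := (tendsto_rpow_neg_atTop hη1).comp tendsto_natCast_atTop_atTop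
      have h3 := h2.const_mul (16 * R)
      rw [mul_zero] at h3
      exact h3
    have h4 := ENNReal.tendsto_ofReal h1
    rw [ENNReal.ofReal_zero] at h4
    exact h4
  have hdiam : ∀ᶠ n : ℕ in Filter.atTop, ∀ i, Metric.ediam (u n i) ≤
      ENNReal.ofReal (16 * R * (n : ℝ) ^ (-(1 - η))) := by
    filter_upwards [Filter.eventually_ge_atTop 1] with n hn i
    simp only [hu]
    split_ifs with h
    · refine ((ht i.1 h.1 h.2.1).2.1 i.2).trans ?_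
      apply ENNReal.ofReal_le_ofReal
      have hn0 : (0 : ℝ) < n := by exact_mod_cast hn
      have h5 : mx i.1.1 i.1.2.1 i.1.2.2 ^ (-(1 - η)) ≤ (n : ℝ) ^ (-(1 - η)) :=
        Real.rpow_le_rpow_of_nonpos hn0 h.2.2 (by linarith)
      have h6 : 0 ≤ 16 * R := by linarith
      exact mul_le_mul_of_nonneg_left h5 h6
    · rw [Metric.ediam_empty]
      exact zero_le
  have hcov : ∀ᶠ n : ℕ in Filter.atTop, {v : ℝ × ℝ | |v.1| ≤ R ∧ |v.2| ≤ R ∧ {T : ℤ × ℤ × ℤ | T ∈ Terms S ∧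
      |T.1 + v.1 * T.2.1 - v.2 * T.2.2| ≤ mx T.1 T.2.1 T.2.2 ^ η}.Infinite} ⊆ ⋃ i, u n i := by
    filter_upwards with n
    rintro v ⟨hv1, hv2, hv3⟩
    obtain ⟨T, hT1, hT2⟩ := hv3.exists_notMem_finite (finite_mx_le (max n₀ n))
    have hT3 : max (n₀ : ℝ) n < mx T.1 T.2.1 T.2.2 := by
      by_contra hc
      exact hT2 (not_lt.1 hc)
    have h7 : (n₀ : ℝ) ≤ mx T.1 T.2.1 T.2.2 := (le_max_left _ _).trans hT3.le
    have h8 : (n : ℝ) ≤ mx T.1 T.2.1 T.2.2 := (le_max_right _ _).trans hT3.le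
    have h9 := (ht T hT1.1 h7).1
    obtain ⟨j, hj⟩ := Set.mem_iUnion.1 (h9 (⟨hT1.2, hv1, hv2⟩ :
      v ∈ {v : ℝ × ℝ | |(T.1 : ℝ) + v.1 * T.2.1 - v.2 * T.2.2| ≤ mx T.1 T.2.1 T.2.2 ^ η ∧
        |v.1| ≤ R ∧ |v.2| ≤ R}))
    refine Set.mem_iUnion.2 ⟨(T, j), ?_⟩
    simp only [hu]
    rw [if_pos ⟨hT1.1, h7, h8⟩]
    exact hj
  have hK : 0 ≤ 4 * R * (16 * R) ^ (d : ℝ) * (∏ l ∈ S, ((l : ℝ) + 1)) ^ 3 := by
    have h10 : 0 ≤ (∏ l ∈ S, ((l : ℝ) + 1)) ^ 3 :=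
      pow_nonneg (Finset.prod_nonneg (fun l _ => by positivity)) 3
    positivity
  refine ne_top_of_le_ne_top (Dim_sum hσ0 hK) ?_
  refine (MeasureTheory.Measure.hausdorffMeasure_le_liminf_tsum (d : ℝ) _ _ hr u hdiam hcov).trans ?_
  apply Filter.liminf_le_of_frequently_le'
  apply Filter.Eventually.frequently
  filter_upwards with n
  have e5 : (∑' i : (ℤ × ℤ × ℤ) × ℕ, Metric.ediam (u n i) ^ (d : ℝ)) =
      ∑' (T : ℤ × ℤ × ℤ) (j : ℕ), Metric.ediam (u n (T, j)) ^ (d : ℝ) :=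
    ENNReal.tsum_prod (f := fun T j => Metric.ediam (u n (T, j)) ^ (d : ℝ))
  rw [e5]
  apply ENNReal.tsum_le_tsum
  intro T
  by_cases h : T ∈ Terms S ∧ (n₀ : ℝ) ≤ mx T.1 T.2.1 T.2.2 ∧ (n : ℝ) ≤ mx T.1 T.2.1 T.2.2
  · have e6 : ∀ j, u n (T, j) = t T j := fun j => if_pos h
    simp only [e6]
    refine ((ht T h.1 h.2.1).2.2).trans (le_of_eq ?_)
    congr 1
    ring
  · have e6 : ∀ j, u n (T, j) = ∅ := fun j => if_neg h
    simp only [e6, Metric.ediam_empty, ENNReal.zero_rpow_of_pos hd0, tsum_zero]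
    exact zero_le

theorem dim_terms {η : ℝ} (hη0 : 0 ≤ η) (hη : η < 1 / 42) :
    dimH {v : ℝ × ℝ | ∃ S : Finset ℕ, {T : ℤ × ℤ × ℤ | T ∈ Terms S ∧
      |T.1 + v.1 * T.2.1 - v.2 * T.2.2| ≤ mx T.1 T.2.1 T.2.2 ^ η}.Infinite} ≤
    ENNReal.ofReal (1 + 41 / (42 * (1 - η))) := by
  have hsub : {v : ℝ × ℝ | ∃ S : Finset ℕ, {T : ℤ × ℤ × ℤ | T ∈ Terms S ∧
      |T.1 + v.1 * T.2.1 - v.2 * T.2.2| ≤ mx T.1 T.2.1 T.2.2 ^ η}.Infinite} ⊆
      ⋃ (S : Finset ℕ), ⋃ (R : ℕ), {v : ℝ × ℝ | |v.1| ≤ (R : ℝ) + 1 ∧ |v.2| ≤ (R : ℝ) + 1 ∧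
        {T : ℤ × ℤ × ℤ | T ∈ Terms S ∧
          |T.1 + v.1 * T.2.1 - v.2 * T.2.2| ≤ mx T.1 T.2.1 T.2.2 ^ η}.Infinite} := by
    rintro v ⟨S, hS⟩
    obtain ⟨R, hR⟩ := exists_nat_ge (max |v.1| |v.2|)
    refine Set.mem_iUnion.2 ⟨S, Set.mem_iUnion.2 ⟨R, ?_, ?_, hS⟩⟩
    · linarith [le_max_left |v.1| |v.2|]
    · linarith [le_max_right |v.1| |v.2|]
  refine (dimH_mono hsub).trans ?_
  rw [dimH_iUnion]
  apply iSup_le
  intro S
  rw [dimH_iUnion]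
  apply iSup_le
  intro R
  exact Dim_one hη S (by have : (0 : ℝ) ≤ R := Nat.cast_nonneg R
                         linarith)

end MAbc
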