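import Pool.Agent.MAbc.Cor

/-!
# MAbc.Sig: one signature, with the exponent 1 - 1/p - 1/q - 1/r
-/

namespace MAbc

open MeasureTheory

/-- the triples `(a x^p, b y^q, c z^r)` with S-units `a, b, c` -/
def TermsSig (S : Finset ℕ) (p q r : ℕ) : Set (ℤ × ℤ × ℤ) :=
  {T | ∃ a b c x y z : ℤ, IsSUnit S a ∧ IsSUnit S b ∧ IsSUnit S c ∧ x ≠ 0 ∧ y ≠ 0 ∧ z ≠ 0 ∧
    T = (a * x ^ p, b * y ^ q, c * z ^ r)}

theorem metric_sig : ∀ᵐ v : ℝ × ℝ, ∀ p q r : ℕ, 1 ≤ p → 1 ≤ q → 1 ≤ r → ∀ S : Finset ℕ, ∀ ε : ℝ, 0 < ε →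
    {T : ℤ × ℤ × ℤ | T ∈ TermsSig S p q r ∧ |T.1 + v.1 * T.2.1 - v.2 * T.2.2| <
      mx T.1 T.2.1 T.2.2 ^ (1 - 1 / (p : ℝ) - 1 / (q : ℝ) - 1 / (r : ℝ) - ε)}.Finite := by
  filter_upwards [metric_abc] with v hv p q r hp hq hr S ε hε
  set P : ℝ := ∏ l ∈ S, ((l : ℝ) + 1) with hP
  have hP0 : 0 ≤ P := Finset.prod_nonneg (fun l _ => by positivity)
  set M : ℝ := (P ^ 3 + 1) ^ (2 / ε) with hM
  refine ((hv (ε / 2) (by positivity)).union (finite_mx_le M)).subset ?_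
  rintro T ⟨⟨a, b, c, x, y, z, ha, hb, hc, hx, hy, hz, hT⟩, h⟩
  by_cases hle : mx T.1 T.2.1 T.2.2 ≤ M
  · exact Or.inr hle
  · left
    push Not at hle
    have hA : a * x ^ p ≠ 0 := mul_ne_zero ha.1 (pow_ne_zero _ hx)
    have hB : b * y ^ q ≠ 0 := mul_ne_zero hb.1 (pow_ne_zero _ hy)
    have hC : c * z ^ r ≠ 0 := mul_ne_zero hc.1 (pow_ne_zero _ hz)
    subst hT
    refine ⟨hA, hB, hC, ?_⟩
    simp only at h hle ⊢
    set H := mx (a * x ^ p) (b * y ^ q) (c * z ^ r) with hHdef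
    have hM0 : 0 < M := by positivity
    have hH0 : 0 < H := hM0.trans hle
    have h1 : P ^ 3 < H ^ (ε / 2) := by
      have e1 : (M) ^ (ε / 2) = P ^ 3 + 1 := by
        rw [hM, ← Real.rpow_mul (by positivity)]
        have : 2 / ε * (ε / 2) = 1 := by field_simp
        rw [this, Real.rpow_one]
      have e2 : M ^ (ε / 2) ≤ H ^ (ε / 2) := Real.rpow_le_rpow hM0.le hle.le (by positivity)
      linarith
    have ra := rad_le_of_unit ha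
    have rb := rad_le_of_unit hb
    have rc := rad_le_of_unit hc
    have hx' : |(x : ℝ)| ≤ H ^ (1 / (p : ℝ)) := abs_le_rpow ha.1 hp (le_max_left _ _)
    have hy' : |(y : ℝ)| ≤ H ^ (1 / (q : ℝ)) := abs_le_rpow hb.1 hq ((le_max_left _ _).trans (le_max_right _ _))
    have hz' : |(z : ℝ)| ≤ H ^ (1 / (r : ℝ)) := abs_le_rpow hc.1 hr ((le_max_right _ _).trans (le_max_right _ _))
    have r1 := rad_mul_pow_le ha.1 hx p
    have r2 := rad_mul_pow_le hb.1 hy q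
    have r3 := rad_mul_pow_le hc.1 hz r
    set L : ℝ := |((a * x ^ p : ℤ) : ℝ) + v.1 * ((b * y ^ q : ℤ) : ℝ) - v.2 * ((c * z ^ r : ℤ) : ℝ)| with hL
    have hL0 : 0 ≤ L := abs_nonneg _
    have n1 : (0 : ℝ) ≤ rad a := Nat.cast_nonneg _
    have n2 : (0 : ℝ) ≤ rad b := Nat.cast_nonneg _
    have n3 : (0 : ℝ) ≤ rad c := Nat.cast_nonneg _
    have m1 : (rad (a * x ^ p) : ℝ) ≤ P * H ^ (1 / (p : ℝ)) :=
      r1.trans (mul_le_mul ra hx' (abs_nonneg _) hP0)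
    have m2 : (rad (b * y ^ q) : ℝ) ≤ P * H ^ (1 / (q : ℝ)) :=
      r2.trans (mul_le_mul rb hy' (abs_nonneg _) hP0)
    have m3 : (rad (c * z ^ r) : ℝ) ≤ P * H ^ (1 / (r : ℝ)) :=
      r3.trans (mul_le_mul rc hz' (abs_nonneg _) hP0)
    calc (rad (a * x ^ p) : ℝ) * rad (b * y ^ q) * rad (c * z ^ r) * L
        ≤ (P * H ^ (1 / (p : ℝ))) * (P * H ^ (1 / (q : ℝ))) * (P * H ^ (1 / (r : ℝ))) *
            H ^ (1 - 1 / (p : ℝ) - 1 / (q : ℝ) - 1 / (r : ℝ) - ε) := by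
          gcongr
      _ = P ^ 3 * (H ^ (1 / (p : ℝ)) * H ^ (1 / (q : ℝ)) * H ^ (1 / (r : ℝ)) *
            H ^ (1 - 1 / (p : ℝ) - 1 / (q : ℝ) - 1 / (r : ℝ) - ε)) := by ring
      _ = P ^ 3 * H ^ (1 - ε) := by
          rw [← Real.rpow_add hH0, ← Real.rpow_add hH0, ← Real.rpow_add hH0]
          congr 2
          ring
      _ < H ^ (ε / 2) * H ^ (1 - ε) := mul_lt_mul_of_pos_right h1 (by positivity)
      _ = H ^ (1 - ε / 2) := by
          rw [← Real.rpow_add hH0]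
          congr 1
          ring

end MAbc
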