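import Pool.Agent.MAbc.Basic

/-!
# MAbc.Area: areas of strips, upper bounds

PROOF. Everything by Fubini (`Measure.volume_eq_prod`, `Measure.prod_apply_symm`: integrate over the second
coordinate `β` the length of the slice in the first coordinate `α`).
`strip_sq`: for fixed `β` in `[b - l, b + l]` the slice is contained in an interval of length `2 δ / B`.
`strip_pair`: the slice is contained in an interval of length `2 δ / max B B'`, and it is empty unless
`(β C - A)/B` and `(β C' - A')/B'` differ by less than `δ/B + δ/B'`; since
`(β C - A)/B - (β C' - A')/B' = (β (B' C - B C') + (A' B - A B'))/(B B')`, this puts `β` in an interval of length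
`2 δ (B + B') / |B C' - B' C|`; the area is at most `2 δ (B + B') / |D| * (2 δ / max B B') ≤ 8 δ^2 / |D|`.
`strip_box`: put `H = max |A| (max |B| |C|)`. If `δ ≥ H/2` bound the area by `(2R)^2`. If `δ < H/2` and
`|B|, |C| < H/(4R)`, then `|A| = H` and the set is empty. Otherwise `|B| ≥ H/(4R)` (slices in `α`) or
`|C| ≥ H/(4R)` (slices in `β`), slices of length at most `2 δ 4R / H`, over an interval of length `2R`.
-/

namespace MAbc

open MeasureTheory

/-- length of a linear strip -/
private theorem Area_lin {c d η : ℝ} (hd : d ≠ 0) :
    volume {t : ℝ | |c + t * d| < η} ≤ ENNReal.ofReal (2 * (η / |d|)) := by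
  rw [← Real.volume_ball (-c / d) (η / |d|)]
  refine measure_mono ?_
  intro t ht
  have ht' : |c + t * d| < η := ht
  have hd' : 0 < |d| := abs_pos.mpr hd
  rw [Metric.mem_ball, Real.dist_eq, lt_div_iff₀ hd', ← abs_mul]
  have e : (t - -c / d) * d = c + t * d := by field_simp; ring
  rw [e]
  exact ht'

/-- Fubini, slices in the first coordinate -/
private theorem Area_fub {S : Set (ℝ × ℝ)} {T : Set ℝ} {M L : ℝ} (hS : MeasurableSet S)
    (hT : MeasurableSet T) (hM : 0 ≤ M)
    (h1 : ∀ β, volume {α : ℝ | (α, β) ∈ S} ≤ ENNReal.ofReal M) (h2 : ∀ α β, (α, β) ∈ S → β ∈ T)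
    (h3 : volume T ≤ ENNReal.ofReal L) : volume S ≤ ENNReal.ofReal (M * L) := by
  rw [Measure.volume_eq_prod, Measure.prod_apply_symm hS]
  calc ∫⁻ β : ℝ, volume ((fun α : ℝ => (α, β)) ⁻¹' S)
      ≤ ∫⁻ β : ℝ, T.indicator (fun _ => ENNReal.ofReal M) β := by
        refine lintegral_mono fun β => ?_
        by_cases hβ : β ∈ T
        · rw [Set.indicator_of_mem hβ]
          exact h1 β
        · rw [Set.indicator_of_notMem hβ]
          have : ((fun α : ℝ => (α, β)) ⁻¹' S) = ∅ := by
            ext α
            constructor
            · intro h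
              exact absurd (h2 α β h) hβ
            · intro h
              exact absurd h (Set.notMem_empty _)
          rw [this, measure_empty]
    _ = ENNReal.ofReal M * volume T := by
        rw [lintegral_indicator hT, setLIntegral_const]
    _ ≤ ENNReal.ofReal M * ENNReal.ofReal L := by gcongr
    _ = ENNReal.ofReal (M * L) := (ENNReal.ofReal_mul hM).symm

/-- Fubini, slices in the second coordinate -/
private theorem Area_fub' {S : Set (ℝ × ℝ)} {T : Set ℝ} {M L : ℝ} (hS : MeasurableSet S)
    (hT : MeasurableSet T) (hM : 0 ≤ M)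
    (h1 : ∀ α, volume {β : ℝ | (α, β) ∈ S} ≤ ENNReal.ofReal M) (h2 : ∀ α β, (α, β) ∈ S → α ∈ T)
    (h3 : volume T ≤ ENNReal.ofReal L) : volume S ≤ ENNReal.ofReal (M * L) := by
  rw [Measure.volume_eq_prod, Measure.prod_apply hS]
  calc ∫⁻ α : ℝ, volume (Prod.mk α ⁻¹' S)
      ≤ ∫⁻ α : ℝ, T.indicator (fun _ => ENNReal.ofReal M) α := by
        refine lintegral_mono fun α => ?_
        by_cases hα : α ∈ T
        · rw [Set.indicator_of_mem hα]
          exact h1 α
        · rw [Set.indicator_of_notMem hα]
          have : (Prod.mk α ⁻¹' S) = ∅ := by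
            ext β
            constructor
            · intro h
              exact absurd (h2 α β h) hα
            · intro h
              exact absurd h (Set.notMem_empty _)
          rw [this, measure_empty]
    _ = ENNReal.ofReal M * volume T := by
        rw [lintegral_indicator hT, setLIntegral_const]
    _ ≤ ENNReal.ofReal M * ENNReal.ofReal L := by gcongr
    _ = ENNReal.ofReal (M * L) := (ENNReal.ofReal_mul hM).symm

private theorem Area_meas (A B C δ : ℝ) : MeasurableSet (strip A B C δ) := by
  refine (isOpen_lt ?_ continuous_const).measurableSet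
  fun_prop

theorem strip_sq {A B C a b l δ : ℝ} (hB : 0 < B) (hl : 0 < l) (hδ : 0 < δ) :
    volume (strip A B C δ ∩ sq a b l) ≤ ENNReal.ofReal (4 * l * δ / B) := by
  have e : 4 * l * δ / B = 2 * (δ / |B|) * (2 * l) := by rw [abs_of_pos hB]; ring
  rw [e]
  refine Area_fub (T := Set.Icc (b - l) (b + l)) ((Area_meas A B C δ).inter
    (measurableSet_Icc.prod measurableSet_Icc)) measurableSet_Icc (by positivity) ?_ ?_ ?_
  · intro β
    refine le_trans (measure_mono ?_) (Area_lin (c := A - β * C) hB.ne')
    intro α hα
    have h1 : |A + α * B - β * C| < δ := hα.1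
    have e2 : A - β * C + α * B = A + α * B - β * C := by ring
    show |A - β * C + α * B| < δ
    rw [e2]
    exact h1
  · intro α β h
    exact h.2.2
  · rw [Real.volume_Icc]
    refine ENNReal.ofReal_le_ofReal (by linarith)

theorem strip_pair {A B C A' B' C' δ : ℝ} (hB : 0 < B) (hB' : 0 < B') (hδ : 0 < δ)
    (hD : B * C' - B' * C ≠ 0) :
    volume (strip A B C δ ∩ strip A' B' C' δ) ≤ ENNReal.ofReal (8 * δ ^ 2 / |B * C' - B' * C|) := by
  have hDpos : 0 < |B * C' - B' * C| := abs_pos.mpr hD
  have hmax : 0 < max B B' := lt_max_of_lt_left hB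
  have hle : 2 * (δ / max B B') * (2 * (δ * (B + B') / |B * C' - B' * C|)) ≤
      8 * δ ^ 2 / |B * C' - B' * C| := by
    have h1 : B + B' ≤ 2 * max B B' := by
      have := le_max_left B B'
      have := le_max_right B B'
      linarith
    have e : 2 * (δ / max B B') * (2 * (δ * (B + B') / |B * C' - B' * C|)) =
        4 * δ ^ 2 * (B + B') / (max B B' * |B * C' - B' * C|) := by
      field_simp
      ring
    rw [e, div_le_div_iff₀ (by positivity) hDpos]
    have h2 : 4 * δ ^ 2 * (B + B') ≤ 4 * δ ^ 2 * (2 * max B B') :=
      mul_le_mul_of_nonneg_left h1 (by positivity)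
    calc 4 * δ ^ 2 * (B + B') * |B * C' - B' * C|
        ≤ 4 * δ ^ 2 * (2 * max B B') * |B * C' - B' * C| :=
          mul_le_mul_of_nonneg_right h2 hDpos.le
      _ = 8 * δ ^ 2 * (max B B' * |B * C' - B' * C|) := by ring
  refine le_trans ?_ (ENNReal.ofReal_le_ofReal hle)
  have hD' : B' * C - B * C' ≠ 0 := fun h => hD (by linarith)
  have habs : |B' * C - B * C'| = |B * C' - B' * C| := abs_sub_comm _ _
  refine Area_fub (T := {β : ℝ | |(A' * B - A * B') + β * (B' * C - B * C')| < δ * (B + B')})
    ((Area_meas A B C δ).inter (Area_meas A' B' C' δ)) ?_ (by positivity) ?_ ?_ ?_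
  · refine (isOpen_lt ?_ continuous_const).measurableSet
    fun_prop
  · intro β
    rcases le_total B B' with h | h
    · rw [max_eq_right h]
      have e3 : δ / B' = δ / |B'| := by rw [abs_of_pos hB']
      rw [e3]
      refine le_trans (measure_mono ?_) (Area_lin (c := A' - β * C') hB'.ne')
      intro α hα
      have h1 : |A' + α * B' - β * C'| < δ := hα.2
      have e2 : A' - β * C' + α * B' = A' + α * B' - β * C' := by ring
      show |A' - β * C' + α * B'| < δ
      rw [e2]
      exact h1
    · rw [max_eq_left h]
      have e3 : δ / B = δ / |B| := by rw [abs_of_pos hB]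
      rw [e3]
      refine le_trans (measure_mono ?_) (Area_lin (c := A - β * C) hB.ne')
      intro α hα
      have h1 : |A + α * B - β * C| < δ := hα.1
      have e2 : A - β * C + α * B = A + α * B - β * C := by ring
      show |A - β * C + α * B| < δ
      rw [e2]
      exact h1
  · intro α β h
    have h1 : |A + α * B - β * C| < δ := h.1
    have h2 : |A' + α * B' - β * C'| < δ := h.2
    show |(A' * B - A * B') + β * (B' * C - B * C')| < δ * (B + B')
    have e4 : (A' * B - A * B') + β * (B' * C - B * C') =
        (A' + α * B' - β * C') * B - (A + α * B - β * C) * B' := by ring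
    rw [e4]
    calc |(A' + α * B' - β * C') * B - (A + α * B - β * C) * B'|
        ≤ |(A' + α * B' - β * C') * B| + |(A + α * B - β * C) * B'| := abs_sub _ _
      _ = |A' + α * B' - β * C'| * B + |A + α * B - β * C| * B' := by
          rw [abs_mul, abs_mul, abs_of_pos hB, abs_of_pos hB']
      _ < δ * B + δ * B' := by
          have h3 := mul_lt_mul_of_pos_right h2 hB
          have h4 := mul_lt_mul_of_pos_right h1 hB'
          linarith
      _ = δ * (B + B') := by ring
  · rw [← habs]
    exact Area_lin hD'

theorem strip_box {A B C R δ : ℝ} (hR : 1 ≤ R) (hδ : 0 < δ) (hH : 0 < max |A| (max |B| |C|)) :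
    volume (strip A B C δ ∩ (Set.Icc (-R) R ×ˢ Set.Icc (-R) R)) ≤
      ENNReal.ofReal (32 * R ^ 2 * δ / max |A| (max |B| |C|)) := by
  set H := max |A| (max |B| |C|) with hHdef
  have hR0 : 0 < R := by linarith
  have hmeas : MeasurableSet (strip A B C δ ∩ (Set.Icc (-R) R ×ˢ Set.Icc (-R) R)) :=
    (Area_meas A B C δ).inter (measurableSet_Icc.prod measurableSet_Icc)
  have hvol : volume (Set.Icc (-R) R) ≤ ENNReal.ofReal (2 * R) := by
    rw [Real.volume_Icc]
    exact ENNReal.ofReal_le_ofReal (by linarith)
  rcases le_or_gt (H / 2) δ with h1 | h1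
  · have h2 : 2 * R * (2 * R) ≤ 32 * R ^ 2 * δ / H := by
      rw [le_div_iff₀ hH]
      have : 0 < R ^ 2 := by positivity
      nlinarith
    refine le_trans ?_ (ENNReal.ofReal_le_ofReal h2)
    refine Area_fub (T := Set.Icc (-R) R) hmeas measurableSet_Icc (by positivity) ?_ ?_ hvol
    · intro β
      refine le_trans (measure_mono ?_) hvol
      intro α hα
      exact hα.2.1
    · intro α β h
      exact h.2.2
  · rcases le_or_gt (H / (4 * R)) |B| with h2 | h2
    · have hB0 : 0 < |B| := lt_of_lt_of_le (by positivity) h2
      have h3 : 2 * (δ / |B|) * (2 * R) ≤ 32 * R ^ 2 * δ / H := by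
        have h4 : δ / |B| ≤ δ / (H / (4 * R)) := by gcongr
        calc 2 * (δ / |B|) * (2 * R) ≤ 2 * (δ / (H / (4 * R))) * (2 * R) := by gcongr
          _ = 16 * R ^ 2 * δ / H := by field_simp; ring
          _ ≤ 32 * R ^ 2 * δ / H := by gcongr; norm_num
      refine le_trans ?_ (ENNReal.ofReal_le_ofReal h3)
      refine Area_fub (T := Set.Icc (-R) R) hmeas measurableSet_Icc (by positivity) ?_ ?_ hvol
      · intro β
        refine le_trans (measure_mono ?_) (Area_lin (c := A - β * C) (abs_pos.mp hB0))
        intro α hα
        have h5 : |A + α * B - β * C| < δ := hα.1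
        have e2 : A - β * C + α * B = A + α * B - β * C := by ring
        show |A - β * C + α * B| < δ
        rw [e2]
        exact h5
      · intro α β h
        exact h.2.2
    · rcases le_or_gt (H / (4 * R)) |C| with h3 | h3
      · have hC0 : 0 < |C| := lt_of_lt_of_le (by positivity) h3
        have h4 : 2 * (δ / |C|) * (2 * R) ≤ 32 * R ^ 2 * δ / H := by
          have h5 : δ / |C| ≤ δ / (H / (4 * R)) := by gcongr
          calc 2 * (δ / |C|) * (2 * R) ≤ 2 * (δ / (H / (4 * R))) * (2 * R) := by gcongr
            _ = 16 * R ^ 2 * δ / H := by field_simp; ring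
            _ ≤ 32 * R ^ 2 * δ / H := by gcongr; norm_num
        refine le_trans ?_ (ENNReal.ofReal_le_ofReal h4)
        refine Area_fub' (T := Set.Icc (-R) R) hmeas measurableSet_Icc (by positivity) ?_ ?_ hvol
        · intro α
          have hC1 : -C ≠ 0 := neg_ne_zero.mpr (abs_pos.mp hC0)
          have key := Area_lin (c := A + α * B) (η := δ) hC1
          rw [abs_neg] at key
          refine le_trans (measure_mono ?_) key
          intro β hβ
          have h5 : |A + α * B - β * C| < δ := hβ.1
          have e2 : A + α * B + β * -C = A + α * B - β * C := by ring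
          show |A + α * B + β * -C| < δ
          rw [e2]
          exact h5
        · intro α β h
          exact h.2.1
      · have hempty : strip A B C δ ∩ (Set.Icc (-R) R ×ˢ Set.Icc (-R) R) = ∅ := by
          ext ⟨α, β⟩
          constructor
          · rintro ⟨h4, h5, h6⟩
            exfalso
            have h7 : |A + α * B - β * C| < δ := h4
            have hα : |α| ≤ R := abs_le.mpr ⟨h5.1, h5.2⟩
            have hβ : |β| ≤ R := abs_le.mpr ⟨h6.1, h6.2⟩
            have hH4 : H / (4 * R) ≤ H / 4 := by
              apply div_le_div_of_nonneg_left hH.le (by norm_num) (by linarith)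
            have hA : |A| = H := by
              rcases le_total (max |B| |C|) |A| with h8 | h8
              · rw [hHdef, max_eq_left h8]
              · exfalso
                have h9 : H = max |B| |C| := by rw [hHdef, max_eq_right h8]
                have h10 : max |B| |C| < H / (4 * R) := max_lt h2 h3
                rw [← h9] at h10
                linarith
            have h8 : |α * B| ≤ H / 4 := by
              rw [abs_mul]
              calc |α| * |B| ≤ R * (H / (4 * R)) := by gcongr
                _ = H / 4 := by field_simp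
            have h9 : |β * C| ≤ H / 4 := by
              rw [abs_mul]
              calc |β| * |C| ≤ R * (H / (4 * R)) := by gcongr
                _ = H / 4 := by field_simp
            have h10 : |A| ≤ |A + α * B - β * C| + |α * B| + |β * C| := by
              have e5 : A = (A + α * B - β * C) + (-(α * B)) + β * C := by ring
              calc |A| = |(A + α * B - β * C) + (-(α * B)) + β * C| := by rw [← e5]
                _ ≤ |A + α * B - β * C| + |-(α * B)| + |β * C| := abs_add_three _ _ _
                _ = |A + α * B - β * C| + |α * B| + |β * C| := by rw [abs_neg]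
            rw [hA] at h10
            linarith
          · intro h
            exact absurd h (Set.notMem_empty _)
        rw [hempty, measure_empty]
        exact bot_le

end MAbc
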