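import Pool.Agent.MAbc.Basic

/-!
# MAbc.AreaLow: areas of strips, lower bound

PROOF. For `β` in `[b - κ l, b + κ l]` the centre `(β C - A)/B` of the slice satisfies
`|(β C - A)/B - a| ≤ |A + a B - b C|/B + κ l C/B ≤ l/4 + l/4`, and the radius is `δ/B ≤ l/4`, so the whole open
interval of length `2 δ/B` lies in `[a - l, a + l]`. Fubini: the area is at least `2 κ l * 2 δ/B`.
-/

namespace MAbc

open MeasureTheory

theorem AreaLow_meas (A B C δ a b l : ℝ) : MeasurableSet (strip A B C δ ∩ sq a b l) := by
  refine MeasurableSet.inter ?_ (measurableSet_Icc.prod measurableSet_Icc)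
  have : IsOpen (strip A B C δ) := by
    unfold strip
    exact isOpen_lt (by fun_prop) (by fun_prop)
  exact this.measurableSet

theorem strip_sq_lower {A B C a b l δ κ : ℝ} (hB : 0 < B) (hC : 0 ≤ C) (hl : 0 < l) (hδ : 0 < δ)
    (hδB : δ ≤ l * B / 4) (hA : |A + a * B - b * C| ≤ l * B / 4) (hκ : 0 < κ) (hκ1 : κ ≤ 1)
    (hκC : κ * C ≤ B / 4) :
    ENNReal.ofReal (4 * κ * l * δ / B) ≤ volume (strip A B C δ ∩ sq a b l) := by
  have hmeas := AreaLow_meas A B C δ a b l
  rw [Measure.volume_eq_prod, Measure.prod_apply_symm hmeas]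
  have hdB : δ / B ≤ l / 4 := by
    rw [div_le_iff₀ hB]
    linarith
  have key : ∀ y ∈ Set.Icc (b - κ * l) (b + κ * l), ENNReal.ofReal (2 * (δ / B)) ≤
      volume ((fun x => (x, y)) ⁻¹' (strip A B C δ ∩ sq a b l)) := by
    intro y hy
    have hsub : Set.Ioo ((y * C - A) / B - δ / B) ((y * C - A) / B + δ / B) ⊆
        (fun x => (x, y)) ⁻¹' (strip A B C δ ∩ sq a b l) := by
      intro x hx
      have h1 : |x - (y * C - A) / B| < δ / B := by
        rw [abs_lt]
        exact ⟨by linarith [hx.1], by linarith [hx.2]⟩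
      have hxB : A + x * B - y * C = (x - (y * C - A) / B) * B := by
        field_simp
        ring
      have hyb : |y - b| ≤ κ * l := by
        rw [abs_le]
        exact ⟨by linarith [hy.1], by linarith [hy.2]⟩
      have hc : |(y * C - A) / B - a| ≤ l / 2 := by
        have e : (y * C - A) / B - a = ((y - b) * C - (A + a * B - b * C)) / B := by
          field_simp
          ring
        rw [e, abs_div, abs_of_pos hB, div_le_iff₀ hB]
        have h2 : |(y - b) * C| ≤ l * (B / 4) := by
          rw [abs_mul, abs_of_nonneg hC]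
          calc |y - b| * C ≤ κ * l * C := mul_le_mul_of_nonneg_right hyb hC
            _ = l * (κ * C) := by ring
            _ ≤ l * (B / 4) := mul_le_mul_of_nonneg_left hκC hl.le
        have h3 := abs_sub ((y - b) * C) (A + a * B - b * C)
        linarith
      refine ⟨?_, ?_, ?_⟩
      · change |A + x * B - y * C| < δ
        rw [hxB, abs_mul, abs_of_pos hB]
        exact (lt_div_iff₀ hB).1 h1
      · rw [abs_lt] at h1
        rw [abs_le] at hc
        exact ⟨by linarith [h1.1, hc.1], by linarith [h1.2, hc.2]⟩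
      · have hkl : κ * l ≤ l := by nlinarith
        exact ⟨by linarith [hy.1], by linarith [hy.2]⟩
    refine le_trans ?_ (measure_mono hsub)
    rw [Real.volume_Ioo]
    apply ENNReal.ofReal_le_ofReal
    linarith
  calc ENNReal.ofReal (4 * κ * l * δ / B)
      = ENNReal.ofReal (2 * (δ / B)) * volume (Set.Icc (b - κ * l) (b + κ * l)) := by
        rw [Real.volume_Icc, ← ENNReal.ofReal_mul (by positivity)]
        congr 1
        ring
    _ = ∫⁻ _ in Set.Icc (b - κ * l) (b + κ * l), ENNReal.ofReal (2 * (δ / B)) := by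
        rw [setLIntegral_const]
    _ ≤ ∫⁻ y in Set.Icc (b - κ * l) (b + κ * l),
        volume ((fun x => (x, y)) ⁻¹' (strip A B C δ ∩ sq a b l)) :=
        setLIntegral_mono' measurableSet_Icc key
    _ ≤ _ := setLIntegral_le_lintegral _ _

end MAbc
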