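import Mathlib

/-!
# MAbc.Basic: definitions for the metric abc theorem

`rad n` is the product of the primes dividing `n`; `strip A B C δ` is the set of the pairs `(α, β)` of real numbers
with `|A + α B - β C| < δ`.
-/

namespace MAbc

open MeasureTheory

/-- the product of the primes dividing `n` -/
def rad (n : ℤ) : ℕ := ∏ p ∈ n.natAbs.primeFactors, p

/-- the largest absolute value of three integers -/
noncomputable def mx (A B C : ℤ) : ℝ := max |(A : ℝ)| (max |(B : ℝ)| |(C : ℝ)|)

/-- the pairs `(α, β)` with `|A + α B - β C| < δ` -/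
def strip (A B C δ : ℝ) : Set (ℝ × ℝ) := {v | |A + v.1 * B - v.2 * C| < δ}

/-- a weight: `1` for `d ≤ τ` and `τ / d` for `d ≥ τ` -/
noncomputable def wt (τ d : ℝ) : ℝ := (max 1 (d / τ))⁻¹

/-- the square with centre `(a, b)` and half side `l` -/
def sq (a b l : ℝ) : Set (ℝ × ℝ) := Set.Icc (a - l) (a + l) ×ˢ Set.Icc (b - l) (b + l)

end MAbc
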