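import Pool.Agent.MAbc.Metric

/-!
# MAbc.Cor: the generalised Fermat equation for almost all real multipliers

PROOF. `rad (a x^p) ≤ rad a |x| ≤ rad a H^(1/p)`, and `1/p + 1/q + 1/r < 1` implies `1/p + 1/q + 1/r ≤ 41/42`.
-/

namespace MAbc

open MeasureTheory

theorem hyp_aux {p q r : ℕ} (hp : 2 ≤ p) (hpq : p ≤ q) (hqr : q ≤ r)
    (h : q * r + p * r + p * q < p * q * r) : 42 * (q * r + p * r + p * q) ≤ 41 * (p * q * r) := by
  rcases Nat.lt_or_ge p 3 with hp3 | hp3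
  · obtain rfl : p = 2 := by omega
    rcases Nat.lt_or_ge q 5 with hq5 | hq5
    · interval_cases q
      · omega
      · omega
      · omega
    · nlinarith [Nat.mul_le_mul hq5 (le_refl r)]
  · rcases Nat.lt_or_ge p 4 with hp4 | hp4
    · obtain rfl : p = 3 := by omega
      rcases Nat.lt_or_ge q 4 with hq4 | hq4
      · obtain rfl : q = 3 := by omega
        omega
      · nlinarith [Nat.mul_le_mul hq4 (le_refl r)]
    · have h1 : p * r ≤ q * r := Nat.mul_le_mul_right r hpq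
      have h2 : p * q ≤ q * r := by
        calc p * q ≤ q * q := Nat.mul_le_mul_right q hpq
          _ ≤ q * r := Nat.mul_le_mul_left q hqr
      have h3 : 4 * (q * r) ≤ p * q * r := by
        rw [mul_assoc]
        exact Nat.mul_le_mul_right _ hp4
      nlinarith

theorem hyp_nat {p q r : ℕ} (hp : 0 < p) (hq : 0 < q) (hr : 0 < r)
    (h : q * r + p * r + p * q < p * q * r) : 42 * (q * r + p * r + p * q) ≤ 41 * (p * q * r) := by
  have key : ∀ p q r : ℕ, 0 < p → 0 < q → 0 < r → q * r + p * r + p * q < p * q * r → 2 ≤ p := by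
    intro p q r hp hq hr h
    by_contra hc
    obtain rfl : p = 1 := by omega
    nlinarith
  have hp2 := key p q r hp hq hr h
  have hq2 := key q p r hq hp hr (by nlinarith)
  have hr2 := key r p q hr hp hq (by nlinarith)
  rcases le_total p q with a | a <;> rcases le_total q r with b | b <;> rcases le_total p r with c | c
  · exact hyp_aux hp2 a b h
  · exact hyp_aux hp2 a b h
  · have := @hyp_aux p r q hp2 c b (by nlinarith)
    nlinarith
  · have := @hyp_aux r p q hr2 c a (by nlinarith)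
    nlinarith
  · have := @hyp_aux q p r hq2 a c (by nlinarith)
    nlinarith
  · have := @hyp_aux q r p hq2 b c (by nlinarith)
    nlinarith
  · have := @hyp_aux r q p hr2 b a (by nlinarith)
    nlinarith
  · have := @hyp_aux r q p hr2 b a (by nlinarith)
    nlinarith

theorem hyp_real {p q r : ℕ} (hp : 0 < p) (hq : 0 < q) (hr : 0 < r)
    (h : (1 : ℝ) / p + 1 / q + 1 / r < 1) : (1 : ℝ) / p + 1 / q + 1 / r ≤ 41 / 42 := by
  have hp' : (0 : ℝ) < p := by exact_mod_cast hp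
  have hq' : (0 : ℝ) < q := by exact_mod_cast hq
  have hr' : (0 : ℝ) < r := by exact_mod_cast hr
  have e : (1 : ℝ) / p + 1 / q + 1 / r = (q * r + p * r + p * q) / (p * q * r) := by
    field_simp
  rw [e] at h ⊢
  have hpos : (0 : ℝ) < p * q * r := by positivity
  rw [div_lt_one hpos] at h
  rw [div_le_div_iff₀ hpos (by norm_num)]
  have h' : q * r + p * r + p * q < p * q * r := by exact_mod_cast h
  have := hyp_nat hp hq hr h'
  have h2 : (42 : ℝ) * (q * r + p * r + p * q) ≤ 41 * (p * q * r) := by exact_mod_cast this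
  linarith

theorem rad_le_abs {x : ℤ} (hx : x ≠ 0) : (rad x : ℝ) ≤ |(x : ℝ)| := by
  have h1 : rad x ∣ x.natAbs := Nat.prod_primeFactors_dvd _
  have h2 : rad x ≤ x.natAbs := Nat.le_of_dvd (Int.natAbs_pos.mpr hx) h1
  have h3 : ((x.natAbs : ℤ) : ℝ) = |(x : ℝ)| := by
    rw [Int.natCast_natAbs, Int.cast_abs]
  rw [← h3]
  exact_mod_cast h2

theorem rad_mul_pow_le {a x : ℤ} (ha : a ≠ 0) (hx : x ≠ 0) (p : ℕ) :
    (rad (a * x ^ p) : ℝ) ≤ rad a * |(x : ℝ)| := by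
  refine le_trans ?_ (mul_le_mul_of_nonneg_left (rad_le_abs hx) (Nat.cast_nonneg _))
  have h : rad (a * x ^ p) ≤ rad a * rad x := by
    have hsub : (a * x ^ p).natAbs.primeFactors ⊆ a.natAbs.primeFactors ∪ x.natAbs.primeFactors := by
      intro l hl
      have hl' := Nat.mem_primeFactors.mp hl
      obtain ⟨hlp, hld, _⟩ := hl'
      rw [Int.natAbs_mul, Int.natAbs_pow] at hld
      rcases (Nat.Prime.dvd_mul hlp).mp hld with h | h
      · exact Finset.mem_union_left _ (Nat.mem_primeFactors.mpr ⟨hlp, h, Int.natAbs_ne_zero.mpr ha⟩)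
      · exact Finset.mem_union_right _
          (Nat.mem_primeFactors.mpr ⟨hlp, hlp.dvd_of_dvd_pow h, Int.natAbs_ne_zero.mpr hx⟩)
    have h1 : rad (a * x ^ p) ≤ ∏ l ∈ a.natAbs.primeFactors ∪ x.natAbs.primeFactors, l := by
      apply Finset.prod_le_prod_of_subset_of_one_le' hsub
      intro l hl _
      rcases Finset.mem_union.mp hl with h | h
      · exact (Nat.prime_of_mem_primeFactors h).one_le
      · exact (Nat.prime_of_mem_primeFactors h).one_le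
    refine h1.trans ?_
    have h2 := Finset.prod_union_inter (s₁ := a.natAbs.primeFactors) (s₂ := x.natAbs.primeFactors)
      (f := fun l => l)
    have h3 : 1 ≤ ∏ l ∈ a.natAbs.primeFactors ∩ x.natAbs.primeFactors, l := by
      apply Finset.one_le_prod'
      intro l hl
      exact (Nat.prime_of_mem_primeFactors (Finset.mem_inter.mp hl).1).one_le
    unfold rad
    nlinarith
  exact_mod_cast h

theorem abs_le_rpow {a x : ℤ} (ha : a ≠ 0) {p : ℕ} (hp : 0 < p) {H : ℝ}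
    (hH : |((a * x ^ p : ℤ) : ℝ)| ≤ H) : |(x : ℝ)| ≤ H ^ (1 / (p : ℝ)) := by
  have h0 : 0 ≤ H := (abs_nonneg _).trans hH
  have h1 : |(x : ℝ)| ^ p ≤ H := by
    refine le_trans ?_ hH
    push_cast
    rw [abs_mul, abs_pow]
    have := one_le_abs ha
    have h2 : 0 ≤ |(x : ℝ)| ^ p := by positivity
    nlinarith
  have h3 : (|(x : ℝ)| ^ p) ^ (1 / (p : ℝ)) = |(x : ℝ)| := by
    rw [one_div]
    exact Real.pow_rpow_inv_natCast (abs_nonneg _) hp.ne'
  rw [← h3]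
  exact Real.rpow_le_rpow (by positivity) h1 (by positivity)

/-- the triples `(a x^p, b y^q, c z^r)`, all signatures with `1/p + 1/q + 1/r < 1`, for which
`rad a rad b rad c |a x^p + v.1 b y^q - v.2 c z^r| < H^(1/42 - ε)` -/
def FViol (v : ℝ × ℝ) (ε : ℝ) : Set (ℤ × ℤ × ℤ) :=
  {T | ∃ a b c x y z : ℤ, ∃ p q r : ℕ, a ≠ 0 ∧ b ≠ 0 ∧ c ≠ 0 ∧ x ≠ 0 ∧ y ≠ 0 ∧ z ≠ 0 ∧
    0 < p ∧ 0 < q ∧ 0 < r ∧ (1 : ℝ) / p + 1 / q + 1 / r < 1 ∧ T = (a * x ^ p, b * y ^ q, c * z ^ r) ∧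
    (rad a : ℝ) * rad b * rad c * |T.1 + v.1 * T.2.1 - v.2 * T.2.2| < mx T.1 T.2.1 T.2.2 ^ (1 / 42 - ε)}

theorem fviol_subset (v : ℝ × ℝ) (ε : ℝ) : FViol v ε ⊆ Viol v ε := by
  rintro T ⟨a, b, c, x, y, z, p, q, r, ha, hb, hc, hx, hy, hz, hp, hq, hr, hyp, hT, h⟩
  have hA : a * x ^ p ≠ 0 := mul_ne_zero ha (pow_ne_zero _ hx)
  have hB : b * y ^ q ≠ 0 := mul_ne_zero hb (pow_ne_zero _ hy)
  have hC : c * z ^ r ≠ 0 := mul_ne_zero hc (pow_ne_zero _ hz)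
  subst hT
  refine ⟨hA, hB, hC, ?_⟩
  simp only at h ⊢
  set H := mx (a * x ^ p) (b * y ^ q) (c * z ^ r) with hHdef
  have hH1 : 1 ≤ H := one_le_mx hA _ _
  have hH0 : 0 < H := by linarith
  have hx' : |(x : ℝ)| ≤ H ^ (1 / (p : ℝ)) := abs_le_rpow ha hp (le_max_left _ _)
  have hy' : |(y : ℝ)| ≤ H ^ (1 / (q : ℝ)) := abs_le_rpow hb hq ((le_max_left _ _).trans (le_max_right _ _))
  have hz' : |(z : ℝ)| ≤ H ^ (1 / (r : ℝ)) := abs_le_rpow hc hr ((le_max_right _ _).trans (le_max_right _ _))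
  have r1 := rad_mul_pow_le ha hx p
  have r2 := rad_mul_pow_le hb hy q
  have r3 := rad_mul_pow_le hc hz r
  set L : ℝ := |((a * x ^ p : ℤ) : ℝ) + v.1 * ((b * y ^ q : ℤ) : ℝ) - v.2 * ((c * z ^ r : ℤ) : ℝ)| with hL
  have hL0 : 0 ≤ L := abs_nonneg _
  have n1 : (0 : ℝ) ≤ rad a := Nat.cast_nonneg _
  have n2 : (0 : ℝ) ≤ rad b := Nat.cast_nonneg _
  have n3 : (0 : ℝ) ≤ rad c := Nat.cast_nonneg _
  have m1 : (rad (a * x ^ p) : ℝ) ≤ rad a * H ^ (1 / (p : ℝ)) := r1.trans (mul_le_mul_of_nonneg_left hx' n1)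
  have m2 : (rad (b * y ^ q) : ℝ) ≤ rad b * H ^ (1 / (q : ℝ)) := r2.trans (mul_le_mul_of_nonneg_left hy' n2)
  have m3 : (rad (c * z ^ r) : ℝ) ≤ rad c * H ^ (1 / (r : ℝ)) := r3.trans (mul_le_mul_of_nonneg_left hz' n3)
  have hprod : H ^ (1 / (p : ℝ)) * H ^ (1 / (q : ℝ)) * H ^ (1 / (r : ℝ)) ≤ H ^ ((41 : ℝ) / 42) := by
    rw [← Real.rpow_add hH0, ← Real.rpow_add hH0]
    exact Real.rpow_le_rpow_of_exponent_le hH1 (hyp_real hp hq hr hyp)
  calc (rad (a * x ^ p) : ℝ) * rad (b * y ^ q) * rad (c * z ^ r) * L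
      ≤ (rad a * H ^ (1 / (p : ℝ))) * (rad b * H ^ (1 / (q : ℝ))) * (rad c * H ^ (1 / (r : ℝ))) * L := by
        gcongr
    _ = (H ^ (1 / (p : ℝ)) * H ^ (1 / (q : ℝ)) * H ^ (1 / (r : ℝ))) * (rad a * rad b * rad c * L) := by ring
    _ ≤ H ^ ((41 : ℝ) / 42) * (rad a * rad b * rad c * L) := by
        gcongr
    _ < H ^ ((41 : ℝ) / 42) * H ^ (1 / 42 - ε) := by
        apply mul_lt_mul_of_pos_left h (by positivity)
    _ = H ^ (1 - ε) := by
        rw [← Real.rpow_add hH0]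
        congr 1
        ring

theorem metric_fermat : ∀ᵐ v : ℝ × ℝ, ∀ ε : ℝ, 0 < ε → (FViol v ε).Finite := by
  filter_upwards [metric_abc] with v hv ε hε
  exact (hv ε hε).subset (fviol_subset v ε)

/-- nonzero integers all of whose prime divisors lie in `S` -/
def IsSUnit (S : Finset ℕ) (a : ℤ) : Prop := a ≠ 0 ∧ ∀ l : ℕ, l.Prime → (l : ℤ) ∣ a → l ∈ S

theorem rad_le_of_unit {S : Finset ℕ} {a : ℤ} (ha : IsSUnit S a) :
    (rad a : ℝ) ≤ ∏ l ∈ S, ((l : ℝ) + 1) := by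
  have h1 : a.natAbs.primeFactors ⊆ S := by
    intro l hl
    obtain ⟨hlp, hld, _⟩ := Nat.mem_primeFactors.mp hl
    exact ha.2 l hlp (Int.natCast_dvd.mpr hld)
  have h2 : rad a ≤ ∏ l ∈ S, (l + 1) := by
    unfold rad
    calc (∏ l ∈ a.natAbs.primeFactors, l) ≤ ∏ l ∈ a.natAbs.primeFactors, (l + 1) :=
          Finset.prod_le_prod' (fun _ _ => by omega)
      _ ≤ ∏ l ∈ S, (l + 1) :=
          Finset.prod_le_prod_of_subset_of_one_le' h1 (fun _ _ _ => by omega)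
  exact_mod_cast h2

/-- the triples of the terms of the S-solutions -/
def Terms (S : Finset ℕ) : Set (ℤ × ℤ × ℤ) :=
  {T | ∃ a b c x y z : ℤ, ∃ p q r : ℕ, IsSUnit S a ∧ IsSUnit S b ∧ IsSUnit S c ∧ x ≠ 0 ∧ y ≠ 0 ∧ z ≠ 0 ∧
    0 < p ∧ 0 < q ∧ 0 < r ∧ (1 : ℝ) / p + 1 / q + 1 / r < 1 ∧ T = (a * x ^ p, b * y ^ q, c * z ^ r)}

theorem finite_mx_le (M : ℝ) : {T : ℤ × ℤ × ℤ | mx T.1 T.2.1 T.2.2 ≤ M}.Finite := by
  obtain ⟨N, hN⟩ := exists_nat_ge M
  have hf : ((Set.Icc (-(N : ℤ)) N) ×ˢ ((Set.Icc (-(N : ℤ)) N) ×ˢ (Set.Icc (-(N : ℤ)) N)) :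
      Set (ℤ × ℤ × ℤ)).Finite :=
    (Set.finite_Icc _ _).prod ((Set.finite_Icc _ _).prod (Set.finite_Icc _ _))
  refine hf.subset ?_
  intro T hT
  have hT' : mx T.1 T.2.1 T.2.2 ≤ N := le_trans hT hN
  have aux : ∀ n : ℤ, |(n : ℝ)| ≤ N → n ∈ Set.Icc (-(N : ℤ)) N := by
    intro n hn
    have h := abs_le.mp hn
    exact ⟨by exact_mod_cast h.1, by exact_mod_cast h.2⟩
  exact ⟨aux _ ((le_max_left _ _).trans hT'),
    aux _ (((le_max_left _ _).trans (le_max_right _ _)).trans hT'),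
    aux _ (((le_max_right _ _).trans (le_max_right _ _)).trans hT')⟩

theorem metric_S : ∀ᵐ v : ℝ × ℝ, ∀ S : Finset ℕ, ∀ ε : ℝ, 0 < ε →
    {T : ℤ × ℤ × ℤ | T ∈ Terms S ∧
      |T.1 + v.1 * T.2.1 - v.2 * T.2.2| ≤ mx T.1 T.2.1 T.2.2 ^ (1 / 42 - ε)}.Finite := by
  filter_upwards [metric_fermat] with v hv S ε hε
  set P : ℝ := ∏ l ∈ S, ((l : ℝ) + 1) with hP
  have hP1 : 1 ≤ P := by
    have : ∏ l ∈ S, (1 : ℝ) ≤ ∏ l ∈ S, ((l : ℝ) + 1) :=
      Finset.prod_le_prod (fun _ _ => zero_le_one) (fun l _ => by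
        have : (0 : ℝ) ≤ l := Nat.cast_nonneg _
        linarith)
    simpa using this
  set M : ℝ := (P ^ 3 + 1) ^ (2 / ε) with hM
  refine ((hv (ε / 2) (by positivity)).union (finite_mx_le M)).subset ?_
  rintro T ⟨⟨a, b, c, x, y, z, p, q, r, ha, hb, hc, hx, hy, hz, hp, hq, hr, hyp, hT⟩, h⟩
  by_cases hle : mx T.1 T.2.1 T.2.2 ≤ M
  · exact Or.inr hle
  · left
    push Not at hle
    refine ⟨a, b, c, x, y, z, p, q, r, ha.1, hb.1, hc.1, hx, hy, hz, hp, hq, hr, hyp, hT, ?_⟩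
    set H := mx T.1 T.2.1 T.2.2 with hHdef
    have hM0 : 0 < M := by positivity
    have hH0 : 0 < H := hM0.trans hle
    have h1 : P ^ 3 < H ^ (ε / 2) := by
      have e1 : (M) ^ (ε / 2) = P ^ 3 + 1 := by
        rw [hM, ← Real.rpow_mul (by positivity)]
        have : 2 / ε * (ε / 2) = 1 := by field_simp
        rw [this, Real.rpow_one]
      have e2 : M ^ (ε / 2) ≤ H ^ (ε / 2) := Real.rpow_le_rpow hM0.le hle.le (by positivity)
      linarith
    have ra := rad_le_of_unit ha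
    have rb := rad_le_of_unit hb
    have rc := rad_le_of_unit hc
    set L : ℝ := |(T.1 : ℝ) + v.1 * T.2.1 - v.2 * T.2.2| with hL
    have hL0 : 0 ≤ L := abs_nonneg _
    have n1 : (0 : ℝ) ≤ rad a := Nat.cast_nonneg _
    have n2 : (0 : ℝ) ≤ rad b := Nat.cast_nonneg _
    have n3 : (0 : ℝ) ≤ rad c := Nat.cast_nonneg _
    calc (rad a : ℝ) * rad b * rad c * L ≤ P * P * P * H ^ (1 / 42 - ε) := by
          gcongr
      _ = P ^ 3 * H ^ (1 / 42 - ε) := by ring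
      _ < H ^ (ε / 2) * H ^ (1 / 42 - ε) := by
          apply mul_lt_mul_of_pos_right h1 (by positivity)
      _ = H ^ (1 / 42 - ε / 2) := by
          rw [← Real.rpow_add hH0]
          congr 1
          ring

theorem metric_floor : ∀ᵐ v : ℝ × ℝ, ∀ S : Finset ℕ,
    {T : ℤ × ℤ × ℤ | T ∈ Terms S ∧ T.1 + ⌊v.1 * T.2.1⌋ = ⌊v.2 * T.2.2⌋}.Finite := by
  filter_upwards [metric_S] with v hv S
  refine (hv S (1 / 42) (by norm_num)).subset ?_
  rintro T ⟨hT, h⟩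
  refine ⟨hT, ?_⟩
  have h' : (T.1 : ℝ) + ((⌊v.1 * T.2.1⌋ : ℤ) : ℝ) = ((⌊v.2 * T.2.2⌋ : ℤ) : ℝ) := by exact_mod_cast h
  have e : mx T.1 T.2.1 T.2.2 ^ ((1 : ℝ) / 42 - 1 / 42) = 1 := by
    rw [sub_self, Real.rpow_zero]
  rw [e, abs_le]
  have a1 := Int.floor_le (v.1 * T.2.1)
  have a2 := Int.lt_floor_add_one (v.1 * T.2.1)
  have b1 := Int.floor_le (v.2 * T.2.2)
  have b2 := Int.lt_floor_add_one (v.2 * T.2.2)
  constructor <;> linarith

end MAbc
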