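import Pool.Agent.MAbc.CoreDefs

/-!
# MAbc.Second: the second moment

PROOF. `H = HH q r n`, `X = H^(1/p)`, `τ = δ/H`. `TT` is a sigma type: `Finset.sum_sigma` on both sums. For fixed
`s = (y, z)`, `x` in `Xs` and `s' = (y', z')` the sum over `x'` is at most
`8 τ wt τ (|D|/H^2) + 64 Λ l δ^2/(H H^(1-1/p)) = 8 τ wt τ (|D|/H^2) + 64 Λ l τ^2 X` by `pair_sum` with `A = x^p`, `B = y^q`,
`C = z^r`, `B' = y'^q`, `C' = z'^r` (`SS s ∩ SS s'` is the intersection of the two strips and the square; all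
`x'` satisfy `x'^p ≥ u' - l H/4 ≥ H/2` as `u' ≥ H`; `B' ≤ 2^q H ≤ Λ B`). Here
`D = y^q z'^r - y'^q z^r = ((y/y')^q - (z/z')^r) y'^q z'^r`, so `|D|/H^2 ≥ |(y/y')^q - (z/z')^r|` and `wt τ` is decreasing.
The number of `x` is at most `1 + 2 (l H/4)/(H/2)^(1-1/p) ≤ 1 + l X ≤ 2 l X` by `x_upper` with `W = H/2` and `l X ≥ 1`
(`Par.hX`, `Λ ≥ 1`). Finally rearrange the sum over `(s, s')` into the sum over `((y, y'), (z, z'))`.
-/

namespace MAbc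

open MeasureTheory

private theorem Second_card (q r k n : ℕ) : (YZ q r k n).card = n ^ r * (k * n ^ q) := by
  unfold YZ
  rw [Finset.card_product, Nat.card_Ioc, Nat.card_Ioc]
  congr 1 <;> omega

private theorem Second_wt {τ d d' : ℝ} (hτ : 0 < τ) (h : d ≤ d') : wt τ d' ≤ wt τ d := by
  unfold wt
  refine inv_anti₀ (lt_of_lt_of_le one_pos (le_max_left _ _)) ?_
  exact max_le_max le_rfl (div_le_div_of_nonneg_right h hτ.le)

private theorem Second_count {p : ℕ} (hp : 1 ≤ p) {l H u : ℝ} (hl : 0 < l) (hl1 : l ≤ 1)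
    (hH : 1 ≤ H) (hu : H ≤ u) (hX : 1 ≤ l * H ^ (1 / (p : ℝ))) :
    ((Xs p u (l * H / 4)).card : ℝ) ≤ 2 * (l * H ^ (1 / (p : ℝ))) := by
  have hH0 : 0 < H := by linarith
  have hH2 : 0 < H / 2 := by linarith
  have h1 := x_upper hp (W := H / 2) (L := l * H / 4) (u := u) hH2 (by positivity)
    (Xs p u (l * H / 4)) ?_
  · refine h1.trans ?_
    have hq : 0 < (H / 2) ^ (1 / (p : ℝ)) := Real.rpow_pos_of_pos hH2 _
    have h2 : (H / 2) ^ (1 - 1 / (p : ℝ)) = (H / 2) / (H / 2) ^ (1 / (p : ℝ)) := by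
      rw [Real.rpow_sub hH2, Real.rpow_one]
    have h3 : 2 * (l * H / 4) / ((H / 2) / (H / 2) ^ (1 / (p : ℝ))) =
        l * (H / 2) ^ (1 / (p : ℝ)) := by
      generalize (H / 2) ^ (1 / (p : ℝ)) = c at hq ⊢
      field_simp
      norm_num
    have h4 : (H / 2) ^ (1 / (p : ℝ)) ≤ H ^ (1 / (p : ℝ)) :=
      Real.rpow_le_rpow hH2.le (by linarith) (by positivity)
    have h5 : l * (H / 2) ^ (1 / (p : ℝ)) ≤ l * H ^ (1 / (p : ℝ)) :=
      mul_le_mul_of_nonneg_left h4 hl.le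
    rw [h2, h3]
    linarith
  · intro x hx
    have h5 := (mem_Xs hp).1 hx
    refine ⟨?_, h5⟩
    have h6 := (abs_le.mp h5).1
    have h7 : l * H / 4 ≤ H / 4 := by nlinarith
    linarith

/-- the sum over `x'` for fixed `s`, `x`, `s'` -/
private theorem Second_inner {p q r k n : ℕ} {Λ a b l δ : ℝ} (P : Par p q r k Λ a b l δ n)
    {s s' : ℕ × ℕ} (hs : s ∈ YZ q r k n) (hs' : s' ∈ YZ q r k n) (x : ℕ) :
    ∑ x' ∈ Xs p (uu q r a b s') (l * HH q r n / 4),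
      (volume (SS p q r a b l δ ⟨s, x⟩ ∩ SS p q r a b l δ ⟨s', x'⟩)).toReal ≤
    8 * (δ / HH q r n) * wt (δ / HH q r n)
      |((s.1 : ℝ) / s'.1) ^ q - ((s.2 : ℝ) / s'.2) ^ r| +
      64 * Λ * l * ((δ / HH q r n) ^ 2 * HH q r n ^ (1 / (p : ℝ))) := by
  set H := HH q r n with hHdef
  have hH1 : 1 ≤ H := HH_one_le P.hn
  have hH0 : 0 < H := by linarith
  have hδ := P.hδ
  have hl := P.hl
  have hτ : 0 < δ / H := div_pos hδ hH0
  obtain ⟨b1, b2, b3, b4⟩ := YZ_bounds P.hk hs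
  obtain ⟨c1, c2, c3, c4⟩ := YZ_bounds P.hk hs'
  rw [← hHdef] at b1 b2 b3 b4 c1 c2 c3 c4
  have hΛ1 : 1 ≤ Λ := le_trans (one_le_pow₀ (by norm_num)) P.hΛ1
  have hΛ0 : 0 < Λ := by linarith
  have hBB : (s'.1 : ℝ) ^ q ≤ Λ * (s.1 : ℝ) ^ q := by
    calc (s'.1 : ℝ) ^ q ≤ 2 ^ q * H := c2
      _ ≤ Λ * H := mul_le_mul_of_nonneg_right P.hΛ1 hH0.le
      _ ≤ Λ * (s.1 : ℝ) ^ q := mul_le_mul_of_nonneg_left b1 hΛ0.le
  have key := pair_sum P.hp hΛ1 (H := H) (A := (x : ℝ) ^ p) (B := (s.1 : ℝ) ^ q)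
    (C := (s.2 : ℝ) ^ r) (B' := (s'.1 : ℝ) ^ q) (C' := (s'.2 : ℝ) ^ r) (a := a) (b := b) (l := l)
    (δ := δ) hH0 b1 c1 hBB hl P.hl1 hδ (Xs p (uu q r a b s') (l * H / 4)) ?_
  · have hset : ∀ x' : ℕ, SS p q r a b l δ ⟨s, x⟩ ∩ SS p q r a b l δ ⟨s', x'⟩ =
        strip ((x : ℝ) ^ p) ((s.1 : ℝ) ^ q) ((s.2 : ℝ) ^ r) δ ∩
          strip ((x' : ℝ) ^ p) ((s'.1 : ℝ) ^ q) ((s'.2 : ℝ) ^ r) δ ∩ sq a b l := by
      intro x'
      unfold SS
      ext v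
      constructor
      · rintro ⟨⟨h1, h2⟩, h3, -⟩
        exact ⟨⟨h1, h3⟩, h2⟩
      · rintro ⟨⟨h1, h3⟩, h2⟩
        exact ⟨⟨h1, h2⟩, h3, h2⟩
    simp only [hset]
    refine key.trans (add_le_add ?_ ?_)
    · refine mul_le_mul_of_nonneg_left ?_ (by positivity)
      refine Second_wt hτ ?_
      have hB'0 : 0 < (s'.1 : ℝ) ^ q := by linarith
      have hC'0 : 0 < (s'.2 : ℝ) ^ r := by linarith
      have e1 : (s.1 : ℝ) ^ q * (s'.2 : ℝ) ^ r - (s'.1 : ℝ) ^ q * (s.2 : ℝ) ^ r =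
          (((s.1 : ℝ) / s'.1) ^ q - ((s.2 : ℝ) / s'.2) ^ r) *
            ((s'.1 : ℝ) ^ q * (s'.2 : ℝ) ^ r) := by
        rw [div_pow, div_pow]
        field_simp
      rw [e1, abs_mul, le_div_iff₀ (by positivity)]
      refine mul_le_mul_of_nonneg_left ?_ (abs_nonneg _)
      rw [abs_of_pos (mul_pos hB'0 hC'0), pow_two]
      exact mul_le_mul c1 c3 hH0.le hB'0.le
    · have hXp : 0 < H ^ (1 / (p : ℝ)) := Real.rpow_pos_of_pos hH0 _
      have e2 : H ^ (1 - 1 / (p : ℝ)) = H / H ^ (1 / (p : ℝ)) := by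
        rw [Real.rpow_sub hH0, Real.rpow_one]
      rw [e2]
      apply le_of_eq
      generalize H ^ (1 / (p : ℝ)) = c at hXp ⊢
      field_simp
  · intro x' hx'
    have h5 := (mem_Xs P.hp).1 hx'
    have h6 := (abs_le.mp h5).1
    have h7 : l * H / 4 ≤ H / 4 := by
      have := P.hl1
      nlinarith
    have h8 := (P.hu s' hs').1
    rw [← hHdef] at h8
    linarith

theorem second_moment {p q r k n : ℕ} {Λ a b l δ : ℝ} (P : Par p q r k Λ a b l δ n) :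
    ∑ t ∈ TT p q r k n a b l, ∑ t' ∈ TT p q r k n a b l,
      (volume (SS p q r a b l δ t ∩ SS p q r a b l δ t')).toReal ≤
    16 * l * HH q r n ^ (1 / (p : ℝ)) * (δ / HH q r n) *
      (∑ s ∈ (Finset.Ioc (n ^ r) (2 * n ^ r) ×ˢ Finset.Ioc (n ^ r) (2 * n ^ r)) ×ˢ
        (Finset.Ioc (k * n ^ q) (2 * (k * n ^ q)) ×ˢ Finset.Ioc (k * n ^ q) (2 * (k * n ^ q))),
        wt (δ / HH q r n) |((s.1.1 : ℝ) / s.1.2) ^ q - ((s.2.1 : ℝ) / s.2.2) ^ r|) +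
    128 * Λ * (l * HH q r n ^ (1 / (p : ℝ)) * (δ / HH q r n) * ((n : ℝ) ^ r * (k * (n : ℝ) ^ q))) ^ 2 := by
  have hH1 : 1 ≤ HH q r n := HH_one_le P.hn
  have hH0 : 0 < HH q r n := by linarith
  have hδ := P.hδ
  have hl := P.hl
  have hτ : 0 < δ / HH q r n := div_pos hδ hH0
  have hΛ1 : 1 ≤ Λ := le_trans (one_le_pow₀ (by norm_num)) P.hΛ1
  have hΛ0 : 0 < Λ := by linarith
  have hXp : 0 < HH q r n ^ (1 / (p : ℝ)) := Real.rpow_pos_of_pos hH0 _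
  have hp1 : (1 : ℝ) ≤ p := by exact_mod_cast P.hp
  have hX1 : 1 ≤ l * HH q r n ^ (1 / (p : ℝ)) := by
    refine le_trans ?_ P.hX
    nlinarith
  -- the weight of a pair
  let w : (ℕ × ℕ) → (ℕ × ℕ) → ℝ := fun s s' =>
    wt (δ / HH q r n) |((s.1 : ℝ) / s'.1) ^ q - ((s.2 : ℝ) / s'.2) ^ r|
  have hw0 : ∀ s s', 0 ≤ w s s' := fun s s' =>
    inv_nonneg.mpr (le_trans zero_le_one (le_max_left _ _))
  have hinner : ∀ s ∈ YZ q r k n, ∀ x ∈ Xs p (uu q r a b s) (l * HH q r n / 4),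
      ∑ t' ∈ TT p q r k n a b l,
        (volume (SS p q r a b l δ ⟨s, x⟩ ∩ SS p q r a b l δ t')).toReal ≤
      ∑ s' ∈ YZ q r k n, (8 * (δ / HH q r n) * w s s' +
        64 * Λ * l * ((δ / HH q r n) ^ 2 * HH q r n ^ (1 / (p : ℝ)))) := by
    intro s hs x _
    unfold TT
    rw [Finset.sum_sigma]
    exact Finset.sum_le_sum fun s' hs' => Second_inner P hs hs' x
  have houter : ∑ t ∈ TT p q r k n a b l, ∑ t' ∈ TT p q r k n a b l,
      (volume (SS p q r a b l δ t ∩ SS p q r a b l δ t')).toReal ≤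
      ∑ s ∈ YZ q r k n, (2 * (l * HH q r n ^ (1 / (p : ℝ)))) * ∑ s' ∈ YZ q r k n,
        (8 * (δ / HH q r n) * w s s' +
        64 * Λ * l * ((δ / HH q r n) ^ 2 * HH q r n ^ (1 / (p : ℝ)))) := by
    have e1 : ∑ t ∈ TT p q r k n a b l, ∑ t' ∈ TT p q r k n a b l,
        (volume (SS p q r a b l δ t ∩ SS p q r a b l δ t')).toReal =
        ∑ s ∈ YZ q r k n, ∑ x ∈ Xs p (uu q r a b s) (l * HH q r n / 4),
          ∑ t' ∈ TT p q r k n a b l,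
            (volume (SS p q r a b l δ ⟨s, x⟩ ∩ SS p q r a b l δ t')).toReal := by
      conv_lhs => unfold TT
      rw [Finset.sum_sigma]
      rfl
    rw [e1]
    refine Finset.sum_le_sum fun s hs => ?_
    refine (Finset.sum_le_sum fun x hx => hinner s hs x hx).trans ?_
    rw [Finset.sum_const, nsmul_eq_mul]
    refine mul_le_mul_of_nonneg_right ?_ ?_
    · exact Second_count P.hp hl P.hl1 hH1 (P.hu s hs).1 hX1
    · refine Finset.sum_nonneg fun s' _ => ?_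
      have := hw0 s s'
      positivity
  refine houter.trans ?_
  -- rearrangement
  have hsum : ∑ s ∈ YZ q r k n, ∑ s' ∈ YZ q r k n, w s s' =
      ∑ s ∈ (Finset.Ioc (n ^ r) (2 * n ^ r) ×ˢ Finset.Ioc (n ^ r) (2 * n ^ r)) ×ˢ
        (Finset.Ioc (k * n ^ q) (2 * (k * n ^ q)) ×ˢ Finset.Ioc (k * n ^ q) (2 * (k * n ^ q))),
        wt (δ / HH q r n) |((s.1.1 : ℝ) / s.1.2) ^ q - ((s.2.1 : ℝ) / s.2.2) ^ r| := by
    unfold YZ
    simp only [Finset.sum_product]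
    refine Finset.sum_congr rfl fun y _ => ?_
    rw [Finset.sum_comm]
  have hcard : ((YZ q r k n).card : ℝ) = (n : ℝ) ^ r * (k * (n : ℝ) ^ q) := by
    rw [Second_card]
    push_cast
    ring
  rw [← hsum]
  have e3 : ∑ s ∈ YZ q r k n, (2 * (l * HH q r n ^ (1 / (p : ℝ)))) * ∑ s' ∈ YZ q r k n,
        (8 * (δ / HH q r n) * w s s' +
        64 * Λ * l * ((δ / HH q r n) ^ 2 * HH q r n ^ (1 / (p : ℝ)))) =
      16 * l * HH q r n ^ (1 / (p : ℝ)) * (δ / HH q r n) *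
        (∑ s ∈ YZ q r k n, ∑ s' ∈ YZ q r k n, w s s') +
      128 * Λ * (l * HH q r n ^ (1 / (p : ℝ)) * (δ / HH q r n) *
        ((YZ q r k n).card : ℝ)) ^ 2 := by
    simp only [Finset.sum_add_distrib, ← Finset.mul_sum, Finset.sum_const, nsmul_eq_mul]
    ring
  rw [e3, hcard]

end MAbc
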