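import Pool.Agent.MAbc.First
import Pool.Agent.MAbc.Second

/-!
# MAbc.Core: positive proportion

PROOF. `H = HH q r n`, `X = H^(1/p)`, `τ = δ/H ≤ l/4 ≤ 1`, `N = n^r * (k n^q)`, `M = N X`. By `second_moment`, `quad_sum`
(constant `C`) with `Y = n^r`, `Z = k n^q` and the two hypotheses the second moment is at most
`16 l X τ C ((1 + log Y)(1 + log Z) N + τ (1 + log (1/τ)) N^2) + 128 Λ (l X τ N)^2 ≤ (2 + 128 Λ) (l M τ)^2`.
By `first_moment` the first moment is at least `l^2 M τ/(8 p Λ^3)`. `second_moment_method` gives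
`volume (⋃ SS) ≥ (l^2 M τ)^2/(8 p Λ^3)^2/((2 + 128 Λ) (l M τ)^2) = l^2/((8 p Λ^3)^2 (2 + 128 Λ))`
(the sets `SS` are measurable, contained in a square, hence of finite measure).
-/

namespace MAbc

open MeasureTheory

private theorem Core_meas (p q r : ℕ) (a b l δ : ℝ) (t : (_ : ℕ × ℕ) × ℕ) :
    MeasurableSet (SS p q r a b l δ t) := by
  unfold SS strip sq
  refine MeasurableSet.inter ?_ ?_
  · refine IsOpen.measurableSet ?_
    refine isOpen_lt ?_ continuous_const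
    fun_prop
  · exact measurableSet_Icc.prod measurableSet_Icc

private theorem Core_fin (p q r : ℕ) (a b l δ : ℝ) (t : (_ : ℕ × ℕ) × ℕ) :
    volume (SS p q r a b l δ t) ≠ ⊤ := by
  have h1 : volume (sq a b l) ≠ ⊤ := by
    have : IsCompact (sq a b l) := by
      unfold sq
      exact isCompact_Icc.prod isCompact_Icc
    exact this.measure_lt_top.ne
  exact ne_top_of_le_ne_top h1 (measure_mono Set.inter_subset_right)

theorem core {q r : ℕ} (hq : 1 ≤ q) (hr : 1 ≤ r) : ∃ C : ℝ, 0 < C ∧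
    ∀ {p k n : ℕ} {Λ a b l δ : ℝ}, Par p q r k Λ a b l δ n →
    C * ((1 + Real.log ((n : ℝ) ^ r)) * (1 + Real.log (k * (n : ℝ) ^ q))) ≤
      l * (HH q r n ^ (1 / (p : ℝ)) * (δ / HH q r n) * ((n : ℝ) ^ r * (k * (n : ℝ) ^ q))) →
    C * (1 + Real.log (1 / (δ / HH q r n))) ≤ l * HH q r n ^ (1 / (p : ℝ)) →
    ENNReal.ofReal (1 / ((8 * p * Λ ^ 3) ^ 2 * (2 + 128 * Λ)) * l ^ 2) ≤
      volume (⋃ t ∈ TT p q r k n a b l, SS p q r a b l δ t) := by
  obtain ⟨C, hC, hsum⟩ := quad_sum hq hr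
  refine ⟨16 * C, by positivity, ?_⟩
  intro p k n Λ a b l δ P h1 h2
  have hH1 : 1 ≤ HH q r n := HH_one_le P.hn
  have hH0 : 0 < HH q r n := by linarith
  have hl := P.hl
  have hl1 := P.hl1
  have hδ := P.hδ
  have hΛ : 0 < Λ := lt_of_lt_of_le (by positivity) P.hΛ1
  have hp0 : (0 : ℝ) < p := by exact_mod_cast P.hp
  have hτ0 : 0 < δ / HH q r n := div_pos hδ hH0
  have hτ1 : δ / HH q r n ≤ 1 := by
    rw [div_le_one hH0]
    have := P.hδH
    nlinarith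
  have hX0 : 0 < HH q r n ^ (1 / (p : ℝ)) := Real.rpow_pos_of_pos hH0 _
  have hn0 : (0 : ℝ) < n := by exact_mod_cast P.hn
  have hk0 : (0 : ℝ) < k := by exact_mod_cast P.hk
  have hN0 : 0 < (n : ℝ) ^ r * (k * (n : ℝ) ^ q) := by positivity
  have hY : 1 ≤ n ^ r := Nat.one_le_iff_ne_zero.2 (pow_ne_zero _ (by have := P.hn; omega))
  have hZ : 1 ≤ k * n ^ q := Nat.one_le_iff_ne_zero.2
    (mul_ne_zero (by have := P.hk; omega) (pow_ne_zero _ (by have := P.hn; omega)))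
  have hS := hsum (n ^ r) (k * n ^ q) (δ / HH q r n) hY hZ hτ0 hτ1
  have hM2 := second_moment P
  have hM1 := first_moment P
  have hcs := second_moment_method volume (TT p q r k n a b l) (SS p q r a b l δ)
    (fun t _ => Core_meas p q r a b l δ t) (fun t _ => Core_fin p q r a b l δ t)
  have hUf : volume (⋃ t ∈ TT p q r k n a b l, SS p q r a b l δ t) ≠ ⊤ := by
    refine ne_top_of_le_ne_top ?_ (measure_biUnion_finset_le _ _)
    exact ENNReal.sum_ne_top.2 fun t _ => Core_fin p q r a b l δ t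
  rw [ENNReal.ofReal_le_iff_le_toReal hUf]
  push_cast at hS
  have hV : 0 ≤ (volume (⋃ t ∈ TT p q r k n a b l, SS p q r a b l δ t)).toReal :=
    ENNReal.toReal_nonneg
  generalize (volume (⋃ t ∈ TT p q r k n a b l, SS p q r a b l δ t)).toReal = V at hcs hV ⊢
  generalize (∑ t ∈ TT p q r k n a b l, ∑ t' ∈ TT p q r k n a b l,
    (volume (SS p q r a b l δ t ∩ SS p q r a b l δ t')).toReal) = S2 at hcs hM2
  generalize (∑ t ∈ TT p q r k n a b l, (volume (SS p q r a b l δ t)).toReal) = S1 at hcs hM1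
  generalize (∑ s ∈ (Finset.Ioc (n ^ r) (2 * n ^ r) ×ˢ Finset.Ioc (n ^ r) (2 * n ^ r)) ×ˢ
        (Finset.Ioc (k * n ^ q) (2 * (k * n ^ q)) ×ˢ Finset.Ioc (k * n ^ q) (2 * (k * n ^ q))),
        wt (δ / HH q r n) |((s.1.1 : ℝ) / s.1.2) ^ q - ((s.2.1 : ℝ) / s.2.2) ^ r|) = W at hS hM2
  generalize δ / HH q r n = τ at *
  generalize HH q r n ^ (1 / (p : ℝ)) = X at *
  generalize (n : ℝ) ^ r * (k * (n : ℝ) ^ q) = N at *
  generalize (1 + Real.log ((n : ℝ) ^ r)) * (1 + Real.log (k * (n : ℝ) ^ q)) = L at *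
  generalize 1 + Real.log (1 / τ) = R at *
  have e1 : 16 * l * X * τ * W ≤ 2 * (l * X * τ * N) ^ 2 := by
    have e2 : 16 * l * X * τ * W ≤ 16 * l * X * τ * (C * (L * N + τ * R * N ^ 2)) :=
      mul_le_mul_of_nonneg_left hS (by positivity)
    have e3 : l * X * τ * N * (16 * C * L) ≤ l * X * τ * N * (l * (X * τ * N)) :=
      mul_le_mul_of_nonneg_left h1 (by positivity)
    have e4 : l * X * τ ^ 2 * N ^ 2 * (16 * C * R) ≤ l * X * τ ^ 2 * N ^ 2 * (l * X) :=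
      mul_le_mul_of_nonneg_left h2 (by positivity)
    nlinarith [e2, e3, e4]
  have e5 : S2 ≤ (2 + 128 * Λ) * (l * X * τ * N) ^ 2 := by
    calc S2 ≤ _ := hM2
      _ ≤ 2 * (l * X * τ * N) ^ 2 + 128 * Λ * (l * X * τ * N) ^ 2 := by gcongr
      _ = _ := by ring
  have hQ0 : 0 < (l * X * τ * N) ^ 2 := by positivity
  have e6 : (N * (l ^ 2 * X * τ) / (8 * p * Λ ^ 3)) ^ 2 ≤ V * ((2 + 128 * Λ) * (l * X * τ * N) ^ 2) := by
    calc (N * (l ^ 2 * X * τ) / (8 * p * Λ ^ 3)) ^ 2 ≤ S1 ^ 2 :=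
          pow_le_pow_left₀ (by positivity) hM1 2
      _ ≤ V * S2 := hcs
      _ ≤ _ := mul_le_mul_of_nonneg_left e5 hV
  have e7 : (N * (l ^ 2 * X * τ) / (8 * p * Λ ^ 3)) ^ 2 =
      (1 / ((8 * p * Λ ^ 3) ^ 2 * (2 + 128 * Λ)) * l ^ 2) * ((2 + 128 * Λ) * (l * X * τ * N) ^ 2) := by
    field_simp
  rw [e7] at e6
  exact le_of_mul_le_mul_right e6 (by positivity)

end MAbc
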