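import Mathlib

/-!
# MAbc.PZ: the second moment method for finitely many sets

PROOF. Put `N = ∑ 1_{S t}`. Then `∑ μ (S t) = ∫ N = ∫ N 1_U`, `U = ⋃ S t`, and by Cauchy-Schwarz
(`ENNReal.lintegral_mul_le_Lp_mul_Lq` with exponents 2, 2, compare `Pool/Agent/MCC/BoxP.lean`)
`(∫ N 1_U)^2 ≤ (∫ N^2) μ U` and `∫ N^2 = ∑_{s,t} μ (S s ∩ S t)`.
-/

namespace MAbc

open MeasureTheory

theorem second_moment_method {α ι : Type*} [MeasurableSpace α] (μ : Measure α) (F : Finset ι) (S : ι → Set α)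
    (hS : ∀ t ∈ F, MeasurableSet (S t)) (hfin : ∀ t ∈ F, μ (S t) ≠ ⊤) :
    (∑ t ∈ F, (μ (S t)).toReal) ^ 2 ≤
      (μ (⋃ t ∈ F, S t)).toReal * ∑ s ∈ F, ∑ t ∈ F, (μ (S s ∩ S t)).toReal := by
  set U : Set α := ⋃ t ∈ F, S t with hU
  have hUm : MeasurableSet U := Finset.measurableSet_biUnion F hS
  have hUf : μ U ≠ ⊤ := by
    refine ne_top_of_le_ne_top ?_ (measure_biUnion_finset_le F S)
    exact ENNReal.sum_ne_top.2 hfin
  have hint : ∀ s : Set α, MeasurableSet s → μ s ≠ ⊤ →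
      Integrable (s.indicator (1 : α → ℝ)) μ := by
    intro s hs hf
    rw [integrable_indicator_iff hs]
    exact integrableOn_const hf
  have hstm : ∀ s ∈ F, ∀ t ∈ F, MeasurableSet (S s ∩ S t) := fun s hs t ht =>
    (hS s hs).inter (hS t ht)
  have hstf : ∀ s ∈ F, ∀ t ∈ F, μ (S s ∩ S t) ≠ ⊤ := fun s hs t _ =>
    ne_top_of_le_ne_top (hfin s hs) (measure_mono Set.inter_subset_left)
  have hval : ∀ s : Set α, MeasurableSet s → ∫ x, s.indicator (1 : α → ℝ) x ∂μ = (μ s).toReal :=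
    fun s hs => integral_indicator_one hs
  have hpt : ∀ (l : ℝ) (x : α), 0 ≤ l * l * U.indicator (1 : α → ℝ) x -
      2 * l * ∑ t ∈ F, (S t).indicator (1 : α → ℝ) x +
      ∑ s ∈ F, ∑ t ∈ F, (S s ∩ S t).indicator (1 : α → ℝ) x := by
    intro l x
    have h1 : ∑ s ∈ F, ∑ t ∈ F, (S s ∩ S t).indicator (1 : α → ℝ) x =
        (∑ t ∈ F, (S t).indicator (1 : α → ℝ) x) * ∑ t ∈ F, (S t).indicator (1 : α → ℝ) x := by
      rw [Finset.sum_mul_sum]
      refine Finset.sum_congr rfl fun s _ => Finset.sum_congr rfl fun t _ => ?_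
      rw [Set.inter_indicator_one]
      rfl
    rw [h1]
    by_cases hx : x ∈ U
    · rw [Set.indicator_of_mem hx]
      simp only [Pi.one_apply]
      nlinarith [sq_nonneg (l - ∑ t ∈ F, (S t).indicator (1 : α → ℝ) x)]
    · have h2 : ∑ t ∈ F, (S t).indicator (1 : α → ℝ) x = 0 := by
        refine Finset.sum_eq_zero fun t ht => ?_
        refine Set.indicator_of_notMem (fun hxt => hx ?_) _
        exact Set.mem_biUnion ht hxt
      rw [h2, Set.indicator_of_notMem hx]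
      simp
  have hi1 : Integrable (fun x => ∑ t ∈ F, (S t).indicator (1 : α → ℝ) x) μ :=
    integrable_finsetSum _ fun t ht => hint _ (hS t ht) (hfin t ht)
  have hi2 : Integrable (fun x => ∑ s ∈ F, ∑ t ∈ F, (S s ∩ S t).indicator (1 : α → ℝ) x) μ :=
    integrable_finsetSum _ fun s hs => integrable_finsetSum _ fun t ht =>
      hint _ (hstm s hs t ht) (hstf s hs t ht)
  have hq : ∀ l : ℝ, 0 ≤ (μ U).toReal * (l * l) + -(2 * ∑ t ∈ F, (μ (S t)).toReal) * l +
      ∑ s ∈ F, ∑ t ∈ F, (μ (S s ∩ S t)).toReal := by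
    intro l
    have h1 : 0 ≤ ∫ x, (l * l * U.indicator (1 : α → ℝ) x -
        2 * l * ∑ t ∈ F, (S t).indicator (1 : α → ℝ) x +
        ∑ s ∈ F, ∑ t ∈ F, (S s ∩ S t).indicator (1 : α → ℝ) x) ∂μ :=
      integral_nonneg (hpt l)
    have hA1 : Integrable (fun x => l * l * U.indicator (1 : α → ℝ) x) μ :=
      (hint U hUm hUf).const_mul _
    have hA2 : Integrable (fun x => 2 * l * ∑ t ∈ F, (S t).indicator (1 : α → ℝ) x) μ :=
      hi1.const_mul _
    have hA3 : Integrable (fun x => l * l * U.indicator (1 : α → ℝ) x -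
        2 * l * ∑ t ∈ F, (S t).indicator (1 : α → ℝ) x) μ := hA1.sub hA2
    rw [integral_add hA3 hi2, integral_sub hA1 hA2, integral_const_mul,
      integral_const_mul, hval U hUm,
      integral_finsetSum _ fun t ht => hint _ (hS t ht) (hfin t ht),
      integral_finsetSum _ fun s hs => integrable_finsetSum _ fun t ht =>
        hint _ (hstm s hs t ht) (hstf s hs t ht)] at h1
    have h2 : ∑ t ∈ F, ∫ x, (S t).indicator (1 : α → ℝ) x ∂μ = ∑ t ∈ F, (μ (S t)).toReal :=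
      Finset.sum_congr rfl fun t ht => hval _ (hS t ht)
    have h3 : ∑ s ∈ F, ∫ x, ∑ t ∈ F, (S s ∩ S t).indicator (1 : α → ℝ) x ∂μ =
        ∑ s ∈ F, ∑ t ∈ F, (μ (S s ∩ S t)).toReal := by
      refine Finset.sum_congr rfl fun s hs => ?_
      rw [integral_finsetSum _ fun t ht => hint _ (hstm s hs t ht) (hstf s hs t ht)]
      exact Finset.sum_congr rfl fun t ht => hval _ (hstm s hs t ht)
    rw [h2, h3] at h1
    linarith
  have hd := discrim_le_zero hq
  unfold discrim at hd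
  nlinarith [hd]

end MAbc
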