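import Pool.Agent.MAbc.Sep

/-!
# MAbc.Xcount: p-th powers in a short interval

PROOF of `x_upper`. `card_le_of_sep` with `f x = x^p`, `κ = W^(1-1/p)`: for `x < x'` in `F`,
`x'^p - x^p ≥ x'^(p-1) (x' - x) ≥ W^((p-1)/p)`, since `x' ≥ W^(1/p)`.
(`x'^p - x^p = (x' - x) ∑ x'^i x^(p-1-i) ≥ (x' - x) x'^(p-1)`.)
PROOF of `x_lower`. `F` = the natural numbers in `[(u-L)^(1/p), (u+L)^(1/p)]`; there are at least
`(u+L)^(1/p) - (u-L)^(1/p) - 1` of them, and by Bernoulli / concavity of `t^(1/p)`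
`(u+L)^(1/p) - (u-L)^(1/p) ≥ (2L) (1/p) (u+L)^(1/p-1) ≥ (2L/p) (3u/2)^(1/p-1) ≥ (2L/p)(2/3) u^(1/p-1)`.
-/

namespace MAbc

/-- `(x ^ p) ^ (1 - 1 / p) = x ^ (p - 1)` -/
private theorem Xcount_pow {p : ℕ} (hp : 1 ≤ p) {x : ℝ} (hx : 0 ≤ x) :
    (x ^ p) ^ (1 - 1 / (p : ℝ)) = x ^ (p - 1) := by
  have hp0 : (p : ℝ) ≠ 0 := by
    have : (1 : ℝ) ≤ p := by exact_mod_cast hp
    linarith
  rw [← Real.rpow_natCast x p, ← Real.rpow_mul hx, ← Real.rpow_natCast x (p - 1)]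
  congr 1
  rw [Nat.cast_sub hp, mul_sub, mul_one_div_cancel hp0, mul_one, Nat.cast_one]

private theorem Xcount_sep {p : ℕ} (hp : 1 ≤ p) {W : ℝ} (hW : 0 < W) {x y : ℕ} (hxy : x < y)
    (hy : W ≤ (y : ℝ) ^ p) :
    W ^ (1 - 1 / (p : ℝ)) ≤ (y : ℝ) ^ p - (x : ℝ) ^ p := by
  have hx0 : (0 : ℝ) ≤ x := Nat.cast_nonneg x
  have hy0 : (0 : ℝ) ≤ y := Nat.cast_nonneg y
  have h1 : (x : ℝ) + 1 ≤ y := by exact_mod_cast hxy
  have hp1 : (1 : ℝ) ≤ p := by exact_mod_cast hp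
  have h0 : 0 ≤ 1 - 1 / (p : ℝ) := by
    rw [sub_nonneg, div_le_one (by linarith)]
    exact hp1
  have h2 : W ^ (1 - 1 / (p : ℝ)) ≤ (y : ℝ) ^ (p - 1) := by
    rw [← Xcount_pow hp hy0]
    exact Real.rpow_le_rpow hW.le hy h0
  obtain ⟨n, rfl⟩ : ∃ n, p = n + 1 := ⟨p - 1, by omega⟩
  rw [Nat.add_sub_cancel] at h2
  have h3 : (x : ℝ) ^ n ≤ (y : ℝ) ^ n := pow_le_pow_left₀ hx0 (by linarith) n
  have h4 : (x : ℝ) ^ n * x ≤ (y : ℝ) ^ n * x := mul_le_mul_of_nonneg_right h3 hx0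
  have h5 : 0 ≤ (y : ℝ) ^ n := by positivity
  have h6 : (y : ℝ) ^ n * (x + 1) ≤ (y : ℝ) ^ n * y := mul_le_mul_of_nonneg_left h1 h5
  rw [pow_succ, pow_succ]
  linarith

theorem x_upper {p : ℕ} (hp : 1 ≤ p) {W L u : ℝ} (hW : 0 < W) (hL : 0 ≤ L) (F : Finset ℕ)
    (hF : ∀ x ∈ F, W ≤ (x : ℝ) ^ p ∧ |(x : ℝ) ^ p - u| ≤ L) :
    (F.card : ℝ) ≤ 1 + 2 * L / W ^ (1 - 1 / (p : ℝ)) := by
  refine card_le_of_sep F (fun x : ℕ => (x : ℝ) ^ p) (Real.rpow_pos_of_pos hW _) hL ?_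
    fun x hx => (hF x hx).2
  intro s hs t ht hst
  rcases lt_or_gt_of_ne hst with h | h
  · rw [abs_sub_comm]
    exact (Xcount_sep hp hW h (hF t ht).1).trans (le_abs_self _)
  · exact (Xcount_sep hp hW h (hF s hs).1).trans (le_abs_self _)

private theorem Xcount_mean {a b : ℝ} (ha : 0 ≤ a) (hab : a ≤ b) (n : ℕ) :
    b ^ (n + 1) - a ^ (n + 1) ≤ (n + 1) * b ^ n * (b - a) := by
  induction n with
  | zero => simp
  | succ n ih =>
    have hb : 0 ≤ b := ha.trans hab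
    have h1 : 0 ≤ ((n : ℝ) + 1) * b ^ n * (b - a) := by
      have : 0 ≤ b - a := by linarith
      positivity
    have h2 : a * (b ^ (n + 1) - a ^ (n + 1)) ≤ a * ((n + 1) * b ^ n * (b - a)) :=
      mul_le_mul_of_nonneg_left ih ha
    have h3 : a * ((n + 1) * b ^ n * (b - a)) ≤ b * ((n + 1) * b ^ n * (b - a)) :=
      mul_le_mul_of_nonneg_right hab h1
    have h4 : b ^ (n + 1 + 1) - a ^ (n + 1 + 1) =
        b ^ (n + 1) * (b - a) + a * (b ^ (n + 1) - a ^ (n + 1)) := by ring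
    have h5 : ((n + 1 : ℕ) + 1 : ℝ) * b ^ (n + 1) * (b - a) =
        b ^ (n + 1) * (b - a) + b * ((n + 1) * b ^ n * (b - a)) := by
      push_cast
      ring
    rw [h4, h5]
    linarith

theorem x_lower {p : ℕ} (hp : 1 ≤ p) {L u : ℝ} (hL : 0 < L) (hLu : L ≤ u / 2) :
    ∃ F : Finset ℕ, (∀ x ∈ F, |(x : ℝ) ^ p - u| ≤ L) ∧
      L / p * u ^ (1 / (p : ℝ) - 1) ≤ (F.card : ℝ) + 1 := by
  have hu : 0 < u := by linarith
  have hp0 : p ≠ 0 := by omega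
  have hp1 : (1 : ℝ) ≤ p := by exact_mod_cast hp
  obtain ⟨a, ha⟩ : ∃ a, a = (u - L) ^ ((p : ℝ)⁻¹) := ⟨_, rfl⟩
  obtain ⟨b, hb⟩ : ∃ b, b = (u + L) ^ ((p : ℝ)⁻¹) := ⟨_, rfl⟩
  have hpi : 0 ≤ (p : ℝ)⁻¹ := by positivity
  have ha0 : 0 ≤ a := ha ▸ Real.rpow_nonneg (by linarith) _
  have hb0 : 0 < b := hb ▸ Real.rpow_pos_of_pos (by linarith) _
  have hab : a ≤ b := by
    rw [ha, hb]
    exact Real.rpow_le_rpow (by linarith) (by linarith) hpi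
  have hap : a ^ p = u - L := by
    rw [ha]
    exact Real.rpow_inv_natCast_pow (by linarith) hp0
  have hbp : b ^ p = u + L := by
    rw [hb]
    exact Real.rpow_inv_natCast_pow (by linarith) hp0
  refine ⟨Finset.Icc ⌈a⌉₊ ⌊b⌋₊, ?_, ?_⟩
  · intro x hx
    rw [Finset.mem_Icc] at hx
    have h1 : a ≤ x := Nat.ceil_le.1 hx.1
    have h2 : (x : ℝ) ≤ b := (Nat.le_floor_iff hb0.le).1 hx.2
    have h3 : a ^ p ≤ (x : ℝ) ^ p := pow_le_pow_left₀ ha0 h1 p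
    have h4 : (x : ℝ) ^ p ≤ b ^ p := pow_le_pow_left₀ (Nat.cast_nonneg x) h2 p
    rw [abs_le]
    constructor <;> linarith
  · have h1 : (b - 1 : ℝ) < ⌊b⌋₊ := Nat.sub_one_lt_floor b
    have h2 : (⌈a⌉₊ : ℝ) < a + 1 := Nat.ceil_lt_add_one ha0
    have h3 : ((⌊b⌋₊ : ℕ) : ℝ) + 1 - ⌈a⌉₊ ≤ ((Finset.Icc ⌈a⌉₊ ⌊b⌋₊).card : ℝ) := by
      rw [Nat.card_Icc]
      have h4 : ⌊b⌋₊ + 1 ≤ (⌊b⌋₊ + 1 - ⌈a⌉₊) + ⌈a⌉₊ := by omega
      have h5 : ((⌊b⌋₊ : ℕ) : ℝ) + 1 ≤ ((⌊b⌋₊ + 1 - ⌈a⌉₊ : ℕ) : ℝ) + ⌈a⌉₊ := by exact_mod_cast h4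
      linarith
    have h6 : L / p * u ^ (1 / (p : ℝ) - 1) ≤ b - a := by
      obtain ⟨n, hn⟩ : ∃ n, p = n + 1 := ⟨p - 1, by omega⟩
      have h7 := Xcount_mean ha0 hab n
      have hn' : (n : ℝ) + 1 = p := by
        rw [hn]
        push_cast
        rfl
      rw [← hn, hap, hbp, hn'] at h7
      have h8 : b ^ n ≤ 3 / 2 * u ^ (1 - 1 / (p : ℝ)) := by
        have h9 : b ^ n = (u + L) ^ (1 - 1 / (p : ℝ)) := by
          rw [← hbp, Xcount_pow hp hb0.le]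
          congr 1
          omega
        have h10 : 0 ≤ 1 - 1 / (p : ℝ) := by
          rw [sub_nonneg, div_le_one (by linarith)]
          exact hp1
        rw [h9]
        calc (u + L) ^ (1 - 1 / (p : ℝ)) ≤ (3 / 2 * u) ^ (1 - 1 / (p : ℝ)) :=
              Real.rpow_le_rpow (by linarith) (by linarith) h10
          _ = (3 / 2) ^ (1 - 1 / (p : ℝ)) * u ^ (1 - 1 / (p : ℝ)) :=
              Real.mul_rpow (by norm_num) hu.le
          _ ≤ 3 / 2 * u ^ (1 - 1 / (p : ℝ)) := by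
              refine mul_le_mul_of_nonneg_right ?_ (Real.rpow_nonneg hu.le _)
              calc ((3 : ℝ) / 2) ^ (1 - 1 / (p : ℝ)) ≤ (3 / 2) ^ (1 : ℝ) := by
                    refine Real.rpow_le_rpow_of_exponent_le (by norm_num) ?_
                    have : 0 ≤ 1 / (p : ℝ) := by positivity
                    linarith
                _ = 3 / 2 := Real.rpow_one _
      have hba : 0 ≤ b - a := by linarith
      have h11 : (u + L) - (u - L) ≤ p * (3 / 2 * u ^ (1 - 1 / (p : ℝ))) * (b - a) := by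
        refine h7.trans (mul_le_mul_of_nonneg_right ?_ hba)
        exact mul_le_mul_of_nonneg_left h8 (by linarith)
      have hU : 0 < u ^ (1 - 1 / (p : ℝ)) := Real.rpow_pos_of_pos hu _
      have h12 : u ^ (1 / (p : ℝ) - 1) = (u ^ (1 - 1 / (p : ℝ)))⁻¹ := by
        rw [← Real.rpow_neg hu.le]
        congr 1
        ring
      rw [h12]
      have hp2 : (0 : ℝ) < p := by linarith
      rw [← div_eq_mul_inv, div_div, div_le_iff₀ (by positivity)]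
      have h13 : 0 ≤ p * u ^ (1 - 1 / (p : ℝ)) * (b - a) := by positivity
      linarith
    linarith

end MAbc
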