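import Pool.Agent.MAbc.Area
import Pool.Agent.MAbc.Xcount

/-!
# MAbc.PairSum: intersections of one strip with all strips of another slope

PROOF. `D = B C' - B' C`. Only `x' ∈ F` with `strip (x^p) B C δ ∩ strip (x'^p) B' C' δ ∩ sq a b l` nonempty contribute. For such
an `x'` there is `β` with `|β - b| ≤ l` and `|B' A - B x'^p + β D| ≤ δ (B + B')` (eliminate `α`), so
`|x'^p - (B' A + b D)/B| ≤ l |D|/B + δ (1 + B'/B) ≤ l |D|/H + (1 + Λ) δ =: L`; by `x_upper` with `W = H/2` their number is at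
most `1 + 2 L / (H/2)^(1-1/p) ≤ 1 + 4 L / H^(1-1/p)`.
Each term is at most `m = min (8 δ^2/|D|) (4 l δ/H)` (for `D = 0`: `m = 4 l δ/H`) by `strip_pair`, `strip_sq`. Now
`m ≤ 8 (δ/H) wt (δ/H) (|D|/H^2)` (if `|D| ≤ δ H` the weight is `1` and `l ≤ 1`; otherwise it is `δ H/|D|`), and
`m L ≤ 8 δ^2 l/H + 4 l δ (1 + Λ) δ/H`. So the sum is at most
`8 (δ/H) wt (δ/H) (|D|/H^2) + 4 (12 + 4 Λ) l δ^2 / (H H^(1-1/p))`.
-/

namespace MAbc

open MeasureTheory

/-- if the intersection is nonempty, then `x'^p` lies in a short interval. -/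
private lemma pairSum_near {Λ H A B C X B' C' a b l δ : ℝ} (hH : 0 < H)
    (hB : H ≤ B) (hBB : B' ≤ Λ * B) (hδ : 0 < δ) (hl : 0 < l) (hB' : H ≤ B')
    (hne : (strip A B C δ ∩ strip X B' C' δ ∩ sq a b l).Nonempty) :
    |X - (B' * A + b * (B * C' - B' * C)) / B| ≤
      l * |B * C' - B' * C| / H + (1 + Λ) * δ := by
  obtain ⟨⟨α, β⟩, ⟨h1, h2⟩, h3⟩ := hne
  simp only [strip, Set.mem_setOf_eq] at h1 h2
  have hβ : |β - b| ≤ l := by
    have h4 : β ∈ Set.Icc (b - l) (b + l) := h3.2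
    rw [abs_le]
    constructor <;> linarith [h4.1, h4.2]
  have hB0 : 0 < B := by linarith
  have hB'0 : 0 < B' := by linarith
  set D : ℝ := B * C' - B' * C with hD
  have e1 : X - (B' * A + b * D) / B =
      (B * (X + α * B' - β * C') - B' * (A + α * B - β * C) + (β - b) * D) / B := by
    field_simp
    rw [hD]
    ring
  rw [e1, abs_div, abs_of_pos hB0, div_le_iff₀ hB0]
  have h5 : |B * (X + α * B' - β * C') - B' * (A + α * B - β * C) + (β - b) * D| ≤
      B * δ + B' * δ + l * |D| := by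
    refine (abs_add_le _ _).trans (add_le_add ((abs_sub _ _).trans (add_le_add ?_ ?_)) ?_)
    · rw [abs_mul, abs_of_pos hB0]
      exact mul_le_mul_of_nonneg_left h2.le hB0.le
    · rw [abs_mul, abs_of_pos hB'0]
      exact mul_le_mul_of_nonneg_left h1.le hB'0.le
    · rw [abs_mul]
      exact mul_le_mul_of_nonneg_right hβ (abs_nonneg _)
  have h6 : l * |D| ≤ l * |D| / H * B := by
    rw [div_mul_eq_mul_div, le_div_iff₀ hH]
    exact mul_le_mul_of_nonneg_left hB (by positivity)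
  have h7 : B' * δ ≤ Λ * B * δ := mul_le_mul_of_nonneg_right hBB hδ.le
  nlinarith

theorem pair_sum {p : ℕ} (hp : 1 ≤ p) {Λ : ℝ} (hΛ : 1 ≤ Λ) {H A B C B' C' a b l δ : ℝ} (hH : 0 < H)
    (hB : H ≤ B) (hB' : H ≤ B') (hBB : B' ≤ Λ * B) (hl : 0 < l) (hl1 : l ≤ 1) (hδ : 0 < δ)
    (F : Finset ℕ) (hF : ∀ x ∈ F, H / 2 ≤ (x : ℝ) ^ p) :
    ∑ x ∈ F, (volume (strip A B C δ ∩ strip ((x : ℝ) ^ p) B' C' δ ∩ sq a b l)).toReal ≤
      8 * (δ / H) * wt (δ / H) (|B * C' - B' * C| / H ^ 2) +
        64 * Λ * l * δ ^ 2 / (H * H ^ (1 - 1 / (p : ℝ))) := by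
  classical
  have hB0 : 0 < B := by linarith
  have hB'0 : 0 < B' := by linarith
  set D : ℝ := B * C' - B' * C with hD
  set E : ℝ := H ^ (1 - 1 / (p : ℝ)) with hE
  have hE0 : 0 < E := Real.rpow_pos_of_pos hH _
  set L : ℝ := l * |D| / H + (1 + Λ) * δ with hL
  have hL0 : 0 ≤ L := by positivity
  -- the bound for one term
  obtain ⟨m, hm0, hm1, hm2, hm3⟩ : ∃ m : ℝ, 0 ≤ m ∧
      (∀ x : ℕ, (volume (strip A B C δ ∩ strip ((x : ℝ) ^ p) B' C' δ ∩ sq a b l)).toReal ≤ m) ∧
      m ≤ 8 * (δ / H) * wt (δ / H) (|D| / H ^ 2) ∧ m * L ≤ (12 + 4 * Λ) * (l * δ ^ 2 / H) := by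
    have hsq : ∀ x : ℕ,
        (volume (strip A B C δ ∩ strip ((x : ℝ) ^ p) B' C' δ ∩ sq a b l)).toReal ≤
          4 * l * δ / H := by
      intro x
      refine ENNReal.toReal_le_of_le_ofReal (by positivity) ?_
      have h1 : strip A B C δ ∩ strip ((x : ℝ) ^ p) B' C' δ ∩ sq a b l ⊆
          strip A B C δ ∩ sq a b l := fun v hv => ⟨hv.1.1, hv.2⟩
      refine (measure_mono h1).trans ((strip_sq hB0 hl hδ).trans ?_)
      exact ENNReal.ofReal_le_ofReal (div_le_div_of_nonneg_left (by positivity) hH hB)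
    by_cases hD0 : D = 0
    · refine ⟨4 * l * δ / H, by positivity, hsq, ?_, ?_⟩
      · unfold wt
        rw [hD0, abs_zero, zero_div, zero_div, max_eq_left (by norm_num : (0 : ℝ) ≤ 1), inv_one,
          mul_one, ← mul_div_assoc]
        refine div_le_div_of_nonneg_right ?_ hH.le
        nlinarith
      · rw [hL, hD0, abs_zero, mul_zero, zero_div, zero_add]
        have e1 : 4 * l * δ / H * ((1 + Λ) * δ) = (4 + 4 * Λ) * (l * δ ^ 2 / H) := by ring
        rw [e1]
        exact mul_le_mul_of_nonneg_right (by linarith) (by positivity)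
    · have hDp : 0 < |D| := abs_pos.2 hD0
      refine ⟨min (8 * δ ^ 2 / |D|) (4 * l * δ / H), le_min (by positivity) (by positivity),
        fun x => le_min ?_ (hsq x), ?_, ?_⟩
      · refine ENNReal.toReal_le_of_le_ofReal (by positivity) ?_
        have h1 : strip A B C δ ∩ strip ((x : ℝ) ^ p) B' C' δ ∩ sq a b l ⊆
            strip A B C δ ∩ strip ((x : ℝ) ^ p) B' C' δ := fun v hv => hv.1
        exact (measure_mono h1).trans (strip_pair hB0 hB'0 hδ hD0)
      · unfold wt
        by_cases hc : |D| / H ^ 2 / (δ / H) ≤ 1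
        · rw [max_eq_left hc, inv_one, mul_one]
          refine (min_le_right _ _).trans ?_
          rw [← mul_div_assoc]
          refine div_le_div_of_nonneg_right ?_ hH.le
          nlinarith
        · rw [max_eq_right (not_le.1 hc).le]
          refine (min_le_left _ _).trans (le_of_eq ?_)
          field_simp
      · have e1 : (12 + 4 * Λ) * (l * δ ^ 2 / H) =
            8 * δ ^ 2 / |D| * (l * |D| / H) + 4 * l * δ / H * ((1 + Λ) * δ) := by
          field_simp
          ring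
        rw [e1, hL, mul_add]
        refine add_le_add ?_ ?_
        · exact mul_le_mul_of_nonneg_right (min_le_left _ _) (by positivity)
        · exact mul_le_mul_of_nonneg_right (min_le_right _ _) (by positivity)
  -- the contributing `x`
  set F' : Finset ℕ := F.filter
    (fun x => (strip A B C δ ∩ strip ((x : ℝ) ^ p) B' C' δ ∩ sq a b l).Nonempty) with hF'
  have hsum : ∑ x ∈ F, (volume (strip A B C δ ∩ strip ((x : ℝ) ^ p) B' C' δ ∩ sq a b l)).toReal =
      ∑ x ∈ F', (volume (strip A B C δ ∩ strip ((x : ℝ) ^ p) B' C' δ ∩ sq a b l)).toReal := by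
    rw [hF', Finset.sum_filter]
    refine Finset.sum_congr rfl (fun x _ => ?_)
    split_ifs with hne
    · rfl
    · rw [Set.not_nonempty_iff_eq_empty] at hne
      rw [hne, measure_empty, ENNReal.toReal_zero]
  have hcard : (F'.card : ℝ) ≤ 1 + 2 * L / (H / 2) ^ (1 - 1 / (p : ℝ)) := by
    refine x_upper hp (by positivity) hL0 (u := (B' * A + b * D) / B) F' (fun x hx => ?_)
    rw [hF', Finset.mem_filter] at hx
    exact ⟨hF x hx.1, pairSum_near hH hB hBB hδ hl hB' hx.2⟩
  have hpow : E / 2 ≤ (H / 2) ^ (1 - 1 / (p : ℝ)) := by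
    rw [Real.div_rpow hH.le (by norm_num), ← hE]
    refine div_le_div_of_nonneg_left hE0.le (by positivity) ?_
    calc (2 : ℝ) ^ (1 - 1 / (p : ℝ)) ≤ 2 ^ (1 : ℝ) := by
          refine Real.rpow_le_rpow_of_exponent_le (by norm_num) ?_
          have : (0 : ℝ) ≤ 1 / (p : ℝ) := by positivity
          linarith
      _ = 2 := Real.rpow_one 2
  have hcard' : (F'.card : ℝ) ≤ 1 + 4 * L / E := by
    refine hcard.trans ?_
    have h1 : 2 * L / (H / 2) ^ (1 - 1 / (p : ℝ)) ≤ 2 * L / (E / 2) :=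
      div_le_div_of_nonneg_left (by positivity) (by positivity) hpow
    have h2 : 2 * L / (E / 2) = 4 * L / E := by field_simp; ring
    linarith
  rw [hsum]
  calc ∑ x ∈ F', (volume (strip A B C δ ∩ strip ((x : ℝ) ^ p) B' C' δ ∩ sq a b l)).toReal
      ≤ ∑ x ∈ F', m := Finset.sum_le_sum (fun x _ => hm1 x)
    _ = F'.card * m := by rw [Finset.sum_const, nsmul_eq_mul]
    _ ≤ (1 + 4 * L / E) * m := mul_le_mul_of_nonneg_right hcard' hm0
    _ = m + 4 * (m * L) / E := by ring
    _ ≤ 8 * (δ / H) * wt (δ / H) (|D| / H ^ 2) +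
        4 * ((12 + 4 * Λ) * (l * δ ^ 2 / H)) / E := by
          refine add_le_add hm2 (div_le_div_of_nonneg_right ?_ hE0.le)
          linarith
    _ ≤ 8 * (δ / H) * wt (δ / H) (|D| / H ^ 2) + 64 * Λ * l * δ ^ 2 / (H * E) := by
          refine add_le_add le_rfl ?_
          have e2 : 64 * Λ * l * δ ^ 2 / (H * E) = 4 * (16 * Λ * (l * δ ^ 2 / H)) / E := by
            field_simp
            ring
          rw [e2]
          refine div_le_div_of_nonneg_right ?_ hE0.le
          refine mul_le_mul_of_nonneg_left ?_ (by norm_num)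
          exact mul_le_mul_of_nonneg_right (by linarith) (by positivity)

end MAbc
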