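import Pool.Agent.MAbc.QuadSum
import Pool.Agent.MAbc.PairSum
import Pool.Agent.MAbc.AreaLow
import Pool.Agent.MAbc.PZ

/-!
# MAbc.CoreDefs: definitions for the second moment method

`H = n^(q r)`, `y` runs over `(n^r, 2 n^r]` and `z` over `(k n^q, 2 k n^q]`, so that `H ≤ y^q ≤ 2^q H` and
`H ≤ z^r ≤ (2k)^r H`. For each `(y, z)` the number `x` runs over the numbers with `|x^p - (b z^r - a y^q)| ≤ l H/4`.
-/

namespace MAbc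

open MeasureTheory

/-- the height -/
noncomputable def HH (q r n : ℕ) : ℝ := (n : ℝ) ^ (q * r)

/-- the natural numbers with `|x^p - u| ≤ L` -/
noncomputable def Xs (p : ℕ) (u L : ℝ) : Finset ℕ :=
  (Finset.range (⌊u + L⌋₊ + 1)).filter (fun x => |(x : ℝ) ^ p - u| ≤ L)

/-- the pairs `(y, z)` -/
def YZ (q r k n : ℕ) : Finset (ℕ × ℕ) :=
  Finset.Ioc (n ^ r) (2 * n ^ r) ×ˢ Finset.Ioc (k * n ^ q) (2 * (k * n ^ q))

/-- the centre for `x^p` -/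
def uu (q r : ℕ) (a b : ℝ) (s : ℕ × ℕ) : ℝ := b * (s.2 : ℝ) ^ r - a * (s.1 : ℝ) ^ q

/-- the index set: `((y, z), x)` -/
noncomputable def TT (p q r k n : ℕ) (a b l : ℝ) : Finset ((_ : ℕ × ℕ) × ℕ) :=
  (YZ q r k n).sigma (fun s => Xs p (uu q r a b s) (l * HH q r n / 4))

/-- the strips inside the square -/
def SS (p q r : ℕ) (a b l δ : ℝ) (t : (_ : ℕ × ℕ) × ℕ) : Set (ℝ × ℝ) :=
  strip ((t.2 : ℝ) ^ p) ((t.1.1 : ℝ) ^ q) ((t.1.2 : ℝ) ^ r) δ ∩ sq a b l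

/-- the standing hypotheses -/
structure Par (p q r k : ℕ) (Λ a b l δ : ℝ) (n : ℕ) : Prop where
  hp : 1 ≤ p
  hq : 1 ≤ q
  hr : 1 ≤ r
  hk : 1 ≤ k
  hn : 1 ≤ n
  hl : 0 < l
  hl1 : l ≤ 1
  hδ : 0 < δ
  hδH : δ ≤ l * HH q r n / 4
  hΛ1 : (2 : ℝ) ^ q ≤ Λ
  hΛ2 : (2 * (k : ℝ)) ^ r ≤ Λ
  hu : ∀ s ∈ YZ q r k n, HH q r n ≤ uu q r a b s ∧ uu q r a b s ≤ Λ * HH q r n
  hX : 8 * p * Λ ≤ l * HH q r n ^ (1 / (p : ℝ))

theorem mem_Xs {p : ℕ} (hp : 1 ≤ p) {u L : ℝ} {x : ℕ} : x ∈ Xs p u L ↔ |(x : ℝ) ^ p - u| ≤ L := by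
  unfold Xs
  rw [Finset.mem_filter, Finset.mem_range]
  refine ⟨fun h => h.2, fun h => ⟨?_, h⟩⟩
  have h1 := (abs_le.mp h).2
  have h2 : (x : ℝ) ≤ (x : ℝ) ^ p := by
    rcases Nat.eq_zero_or_pos x with h0 | h0
    · subst h0
      simp only [Nat.cast_zero]
      positivity
    · have : (1 : ℝ) ≤ x := by exact_mod_cast h0
      exact le_self_pow₀ this (by omega)
  have h3 : x ≤ ⌊u + L⌋₊ := Nat.le_floor (by linarith)
  omega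

theorem HH_one_le {q r n : ℕ} (hn : 1 ≤ n) : 1 ≤ HH q r n := by
  unfold HH
  exact one_le_pow₀ (by exact_mod_cast hn)

/-- bounds for the entries of a pair -/
theorem YZ_bounds {q r k n : ℕ} (hk : 1 ≤ k) {s : ℕ × ℕ} (hs : s ∈ YZ q r k n) :
    HH q r n ≤ (s.1 : ℝ) ^ q ∧ (s.1 : ℝ) ^ q ≤ 2 ^ q * HH q r n ∧
    HH q r n ≤ (s.2 : ℝ) ^ r ∧ (s.2 : ℝ) ^ r ≤ (2 * (k : ℝ)) ^ r * HH q r n := by
  unfold YZ at hs
  rw [Finset.mem_product, Finset.mem_Ioc, Finset.mem_Ioc] at hs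
  obtain ⟨⟨h1, h2⟩, h3, h4⟩ := hs
  have e1 : HH q r n = ((n : ℝ) ^ r) ^ q := by
    unfold HH
    rw [← pow_mul, Nat.mul_comm]
  have e2 : HH q r n = ((n : ℝ) ^ q) ^ r := by
    unfold HH
    rw [← pow_mul]
  have h1' : (n : ℝ) ^ r ≤ s.1 := by exact_mod_cast h1.le
  have h2' : (s.1 : ℝ) ≤ 2 * (n : ℝ) ^ r := by exact_mod_cast h2
  have h3' : (n : ℝ) ^ q ≤ s.2 := by
    have : n ^ q ≤ s.2 := by
      calc n ^ q = 1 * n ^ q := (one_mul _).symm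
        _ ≤ k * n ^ q := Nat.mul_le_mul_right _ hk
        _ ≤ s.2 := h3.le
    exact_mod_cast this
  have h4' : (s.2 : ℝ) ≤ (2 * (k : ℝ)) * (n : ℝ) ^ q := by
    have : (s.2 : ℝ) ≤ 2 * ((k : ℝ) * (n : ℝ) ^ q) := by exact_mod_cast h4
    linarith
  refine ⟨?_, ?_, ?_, ?_⟩
  · rw [e1]
    exact pow_le_pow_left₀ (by positivity) h1' q
  · rw [e1, ← mul_pow]
    exact pow_le_pow_left₀ (by positivity) h2' q
  · rw [e2]
    exact pow_le_pow_left₀ (by positivity) h3' r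
  · rw [e2, ← mul_pow]
    exact pow_le_pow_left₀ (by positivity) h4' r

end MAbc
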