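import Pool.Agent.MAbc.Basic

/-!
# MAbc.Dens: a limsup set of positive proportion in every small square has full measure

PROOF. Let `S = {v | ∃ᶠ n in atTop, v ∈ E n}` (measurable: limsup of measurable sets). For a square `Q = sq a b l` as in the
hypothesis, `vol (S ∩ Q) ≥ c l^2`: the sets `⋃_{m ≥ n} E m ∩ Q` decrease to `S ∩ Q` and have measure at least `c l^2`
(`tendsto_measure_iInter_atTop` or `measure_iInter...`). By Lebesgue's density theorem
(`Besicovitch.ae_tendsto_measure_inter_div_of_measurableSet` for `volume` on `ℝ × ℝ`; closed balls are squares: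
`closedBall_prod_same`, `Real.closedBall_eq_Icc`) for almost every `v` the ratio `vol (S ∩ closedBall v l)/vol (closedBall v l)`
tends to the indicator of `S` at `v`; if `a0 < v.1 < a1`, `b0 < v.2 < b1` it is at least `c/4` for all small `l`, so `v ∈ S`.
Compare `Pool/Agent/MCC/Dens.lean` (the same for `Fin k → ℝ`).
-/

namespace MAbc

open MeasureTheory Filter

private theorem Dens_ball (v : ℝ × ℝ) (l : ℝ) : Metric.closedBall v l = sq v.1 v.2 l := by
  rw [sq, ← Real.closedBall_eq_Icc, ← Real.closedBall_eq_Icc, closedBall_prod_same]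

private theorem Dens_vol (a b : ℝ) {l : ℝ} (hl : 0 < l) :
    volume (sq a b l) = ENNReal.ofReal (4 * l ^ 2) := by
  rw [sq, Measure.volume_eq_prod, Measure.prod_prod, Real.volume_Icc, Real.volume_Icc,
    ← ENNReal.ofReal_mul (by linarith)]
  congr 1
  ring

private theorem Dens_limsup {E : ℕ → Set (ℝ × ℝ)} (hE : ∀ n, MeasurableSet (E n)) {a b l : ℝ}
    (hl : 0 < l) {x : ENNReal}
    (h : ∀ᶠ n in atTop, x ≤ volume (E n ∩ sq a b l)) :
    x ≤ volume ({v | ∃ᶠ n in atTop, v ∈ E n} ∩ sq a b l) := by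
  have hQ : MeasurableSet (sq a b l) := measurableSet_Icc.prod measurableSet_Icc
  have hset : {v | ∃ᶠ n in atTop, v ∈ E n} ∩ sq a b l =
      ⋂ n : ℕ, (⋃ m ≥ n, E m) ∩ sq a b l := by
    ext v
    simp only [Set.mem_inter_iff, Set.mem_setOf_eq, Set.mem_iInter, Set.mem_iUnion,
      frequently_atTop, exists_prop]
    constructor
    · rintro ⟨h1, h2⟩ n
      exact ⟨h1 n, h2⟩
    · intro h1
      exact ⟨fun n => (h1 n).1, (h1 0).2⟩
  rw [hset]
  have hanti : Antitone (fun n : ℕ => (⋃ m ≥ n, E m) ∩ sq a b l) := by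
    intro n n' hnn'
    refine Set.inter_subset_inter_left _ ?_
    intro v hv
    simp only [Set.mem_iUnion, exists_prop] at hv ⊢
    obtain ⟨m, hm, hmv⟩ := hv
    exact ⟨m, le_trans hnn' hm, hmv⟩
  have hlim := tendsto_measure_iInter_atTop (μ := (volume : Measure (ℝ × ℝ)))
    (s := fun n : ℕ => (⋃ m ≥ n, E m) ∩ sq a b l)
    (fun n => ((MeasurableSet.iUnion (fun m => MeasurableSet.iUnion (fun _ => hE m))).inter
      hQ).nullMeasurableSet) hanti
    ⟨0, ne_top_of_le_ne_top (by rw [Dens_vol a b hl]; exact ENNReal.ofReal_ne_top)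
      (measure_mono Set.inter_subset_right)⟩
  refine ge_of_tendsto hlim ?_
  filter_upwards [h] with n hn
  refine hn.trans (measure_mono ?_)
  refine Set.inter_subset_inter_left _ ?_
  intro v hv
  simp only [Set.mem_iUnion, exists_prop]
  exact ⟨n, le_refl n, hv⟩

theorem dens {E : ℕ → Set (ℝ × ℝ)} (hE : ∀ n, MeasurableSet (E n)) {a0 a1 b0 b1 c : ℝ} (hc : 0 < c)
    (h : ∀ a b l : ℝ, 0 < l → l ≤ 1 → a0 < a - l → a + l < a1 → b0 < b - l → b + l < b1 →
      ∀ᶠ n in atTop, ENNReal.ofReal (c * l ^ 2) ≤ volume (E n ∩ sq a b l)) :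
    ∀ᵐ v : ℝ × ℝ, a0 < v.1 → v.1 < a1 → b0 < v.2 → v.2 < b1 → ∃ᶠ n in atTop, v ∈ E n := by
  have hS : MeasurableSet {v | ∃ᶠ n in atTop, v ∈ E n} := by
    have h1 : {v | ∃ᶠ n in atTop, v ∈ E n} = ⋂ n : ℕ, ⋃ m ≥ n, E m := by
      ext v
      simp only [Set.mem_setOf_eq, Set.mem_iInter, Set.mem_iUnion, frequently_atTop, exists_prop]
    rw [h1]
    exact MeasurableSet.iInter (fun n => MeasurableSet.iUnion
      (fun m => MeasurableSet.iUnion (fun _ => hE m)))
  filter_upwards [Besicovitch.ae_tendsto_measure_inter_div_of_measurableSet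
    (volume : Measure (ℝ × ℝ)) hS] with v hv h1 h2 h3 h4
  by_contra hvS
  rw [Set.indicator_of_notMem (by exact hvS)] at hv
  have hev : ∀ᶠ r : ℝ in nhdsWithin 0 (Set.Ioi 0), ENNReal.ofReal (c / 4) ≤
      volume ({v | ∃ᶠ n in atTop, v ∈ E n} ∩ Metric.closedBall v r) /
        volume (Metric.closedBall v r) := by
    have hp : ∀ t : ℝ, 0 < t → ∀ᶠ r : ℝ in nhdsWithin 0 (Set.Ioi 0), r < t := fun t ht =>
      nhdsWithin_le_nhds (Iio_mem_nhds ht)
    filter_upwards [hp (v.1 - a0) (by linarith), hp (a1 - v.1) (by linarith),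
      hp (v.2 - b0) (by linarith), hp (b1 - v.2) (by linarith), hp 1 one_pos,
      self_mem_nhdsWithin] with r r1 r2 r3 r4 r5 hr0
    have hr0' : 0 < r := hr0
    rw [Dens_ball, Dens_vol _ _ hr0']
    have hh := Dens_limsup hE hr0' (h v.1 v.2 r hr0' r5.le (by linarith) (by linarith)
      (by linarith) (by linarith))
    rw [ENNReal.le_div_iff_mul_le]
    · refine le_trans (le_of_eq ?_) hh
      rw [← ENNReal.ofReal_mul (by positivity)]
      congr 1
      ring
    · left
      exact (ENNReal.ofReal_pos.2 (by positivity)).ne'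
    · left
      exact ENNReal.ofReal_ne_top
  have hle : ENNReal.ofReal (c / 4) ≤ 0 := ge_of_tendsto hv hev
  exact absurd hle (not_le.2 (ENNReal.ofReal_pos.2 (by positivity)))

end MAbc
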