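import Pool.Agent.MAbc.CoreDefs

/-!
# MAbc.Evt: the growth conditions hold for all large n

PROOF. `H = n^(q r)`, all quantities are powers of `n` and logarithms. With `ρ = 1 - 1/p - 1/q - 1/r + ε < 1`:
`H^(ρ-1) → 0`, `H^(1/p) → ∞`, `H^(1/p) (H^ρ/H) n^r k n^q = k n^(q r/p + q r (ρ - 1) + r + q) = k n^(q r ε)`, and logarithms of
powers of `n` are `o` of every positive power of `n` (`isLittleO_log_rpow_atTop`); `log (1/(H^ρ/H)) = (1-ρ) q r log n`.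
-/

namespace MAbc

open Filter

private theorem Evt_log (A B : ℝ) {c s : ℝ} (hc : 0 < c) (hs : 0 < s) :
    ∀ᶠ n : ℕ in atTop, A + B * Real.log n ≤ c * (n : ℝ) ^ s := by
  have h1 : (fun _ : ℝ => A) =o[atTop] (fun x : ℝ => x ^ s) :=
    Asymptotics.isLittleO_const_left.2
      (Or.inr (tendsto_norm_atTop_atTop.comp (tendsto_rpow_atTop hs)))
  have h2 : (fun x : ℝ => B * Real.log x) =o[atTop] (fun x : ℝ => x ^ s) :=
    (isLittleO_log_rpow_atTop hs).const_mul_left B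
  have h3 := (h1.add h2).def hc
  have h4 := tendsto_natCast_atTop_atTop (R := ℝ) |>.eventually h3
  filter_upwards [h4] with n hn
  have h5 : (0 : ℝ) ≤ (n : ℝ) ^ s := Real.rpow_nonneg (Nat.cast_nonneg n) s
  rw [Real.norm_of_nonneg h5] at hn
  exact (le_abs_self _).trans hn

private theorem Evt_HH (q r : ℕ) {n : ℕ} (s : ℝ) :
    HH q r n ^ s = (n : ℝ) ^ (((q : ℝ) * r) * s) := by
  unfold HH
  rw [← Real.rpow_natCast (n : ℝ) (q * r), ← Real.rpow_mul (Nat.cast_nonneg n)]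
  push_cast
  rfl

theorem evt {p q r k : ℕ} (hp : 1 ≤ p) (hq : 1 ≤ q) (hr : 1 ≤ r) (hk : 1 ≤ k) {ε ρ l C Λ : ℝ}
    (hρ : ρ = 1 - 1 / (p : ℝ) - 1 / (q : ℝ) - 1 / (r : ℝ) + ε) (hε : 0 < ε) (hρ1 : ρ < 1) (hl : 0 < l) (hC : 0 < C) :
    ∀ᶠ n : ℕ in atTop, 1 ≤ n ∧ HH q r n ^ ρ ≤ l * HH q r n / 4 ∧
      8 * p * Λ ≤ l * HH q r n ^ (1 / (p : ℝ)) ∧
      C * ((1 + Real.log ((n : ℝ) ^ r)) * (1 + Real.log (k * (n : ℝ) ^ q))) ≤
        l * (HH q r n ^ (1 / (p : ℝ)) * (HH q r n ^ ρ / HH q r n) * ((n : ℝ) ^ r * (k * (n : ℝ) ^ q))) ∧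
      C * (1 + Real.log (1 / (HH q r n ^ ρ / HH q r n))) ≤ l * HH q r n ^ (1 / (p : ℝ)) := by
  have hp0 : (0 : ℝ) < p := by exact_mod_cast hp
  have hq0 : (0 : ℝ) < q := by exact_mod_cast hq
  have hr0 : (0 : ℝ) < r := by exact_mod_cast hr
  have hk0 : (0 : ℝ) < k := by exact_mod_cast hk
  have hk1 : (1 : ℝ) ≤ k := by exact_mod_cast hk
  have hN : (0 : ℝ) < (q : ℝ) * r := by positivity
  have e1 := Evt_log 1 0 (c := l / 4) (s := (q : ℝ) * r * (1 - ρ)) (by positivity)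
    (mul_pos hN (by linarith))
  have e2 := Evt_log (8 * p * Λ) 0 (c := l) (s := (q : ℝ) * r * (1 / (p : ℝ))) hl (by positivity)
  have e3 := Evt_log 1 r (c := 1) (s := (q : ℝ) * r * ε / 2) one_pos (by positivity)
  have e4 := Evt_log (1 + Real.log k) q (c := l * k / C) (s := (q : ℝ) * r * ε / 2) (by positivity)
    (by positivity)
  have e5 := Evt_log C (C * ((1 - ρ) * ((q : ℝ) * r))) (c := l)
    (s := (q : ℝ) * r * (1 / (p : ℝ))) hl (by positivity)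
  filter_upwards [e1, e2, e3, e4, e5, eventually_ge_atTop 1] with n h1 h2 h3 h4 h5 hn
  have hn0 : (0 : ℝ) < n := by exact_mod_cast hn
  have hn1 : (1 : ℝ) ≤ n := by exact_mod_cast hn
  have hlog : 0 ≤ Real.log n := Real.log_nonneg hn1
  have hHH : HH q r n = (n : ℝ) ^ ((q : ℝ) * r) := by
    have := Evt_HH q r (n := n) 1
    rwa [Real.rpow_one, mul_one] at this
  have hquot : HH q r n ^ ρ / HH q r n = (n : ℝ) ^ ((q : ℝ) * r * ρ - (q : ℝ) * r) := by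
    rw [Evt_HH, hHH, Real.rpow_sub hn0]
  refine ⟨hn, ?_, ?_, ?_, ?_⟩
  · rw [Evt_HH, hHH]
    have h6 : (n : ℝ) ^ ((q : ℝ) * r) =
        (n : ℝ) ^ ((q : ℝ) * r * (1 - ρ)) * (n : ℝ) ^ ((q : ℝ) * r * ρ) := by
      rw [← Real.rpow_add hn0]
      congr 1
      ring
    have h7 : (0 : ℝ) ≤ (n : ℝ) ^ ((q : ℝ) * r * ρ) := (Real.rpow_pos_of_pos hn0 _).le
    have h8 : 1 ≤ l / 4 * (n : ℝ) ^ ((q : ℝ) * r * (1 - ρ)) := by linarith
    calc (n : ℝ) ^ ((q : ℝ) * r * ρ) = 1 * (n : ℝ) ^ ((q : ℝ) * r * ρ) := (one_mul _).symm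
      _ ≤ (l / 4 * (n : ℝ) ^ ((q : ℝ) * r * (1 - ρ))) * (n : ℝ) ^ ((q : ℝ) * r * ρ) :=
          mul_le_mul_of_nonneg_right h8 h7
      _ = l * (n : ℝ) ^ ((q : ℝ) * r) / 4 := by rw [h6]; ring
  · rw [Evt_HH]
    linarith
  · have h6 : HH q r n ^ (1 / (p : ℝ)) * (HH q r n ^ ρ / HH q r n) *
        ((n : ℝ) ^ r * (k * (n : ℝ) ^ q)) = k * (n : ℝ) ^ ((q : ℝ) * r * ε) := by
      rw [Evt_HH, hquot, ← Real.rpow_natCast (n : ℝ) r, ← Real.rpow_natCast (n : ℝ) q]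
      have h7 : (n : ℝ) ^ ((q : ℝ) * r * ε) = (n : ℝ) ^ ((q : ℝ) * r * (1 / (p : ℝ))) *
          (n : ℝ) ^ ((q : ℝ) * r * ρ - (q : ℝ) * r) * ((n : ℝ) ^ (r : ℝ) * (n : ℝ) ^ (q : ℝ)) := by
        rw [← Real.rpow_add hn0, ← Real.rpow_add hn0, ← Real.rpow_add hn0]
        congr 1
        rw [hρ]
        field_simp
        ring
      rw [h7]
      ring
    rw [h6, Real.log_pow, Real.log_mul hk0.ne' (by positivity), Real.log_pow]
    have hu : 1 + (r : ℝ) * Real.log n ≤ (n : ℝ) ^ ((q : ℝ) * r * ε / 2) := by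
      rw [one_mul] at h3
      exact h3
    have hv : 1 + (Real.log k + (q : ℝ) * Real.log n) ≤
        l * k / C * (n : ℝ) ^ ((q : ℝ) * r * ε / 2) := by
      rw [← add_assoc]
      exact h4
    have hu0 : 0 ≤ 1 + (r : ℝ) * Real.log n := by positivity
    have hv0 : 0 ≤ 1 + (Real.log k + (q : ℝ) * Real.log n) := by
      have := Real.log_nonneg hk1
      positivity
    have h8 : (0 : ℝ) ≤ (n : ℝ) ^ ((q : ℝ) * r * ε / 2) := (Real.rpow_pos_of_pos hn0 _).le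
    have h9 : (n : ℝ) ^ ((q : ℝ) * r * ε) =
        (n : ℝ) ^ ((q : ℝ) * r * ε / 2) * (n : ℝ) ^ ((q : ℝ) * r * ε / 2) := by
      rw [← Real.rpow_add hn0]
      congr 1
      ring
    calc C * ((1 + (r : ℝ) * Real.log n) * (1 + (Real.log k + (q : ℝ) * Real.log n)))
        ≤ C * ((n : ℝ) ^ ((q : ℝ) * r * ε / 2) *
            (l * k / C * (n : ℝ) ^ ((q : ℝ) * r * ε / 2))) :=
          mul_le_mul_of_nonneg_left (mul_le_mul hu hv hv0 h8) hC.le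
      _ = l * (k * (n : ℝ) ^ ((q : ℝ) * r * ε)) := by
          rw [h9]
          field_simp
  · rw [hquot, Evt_HH, one_div, ← Real.rpow_neg hn0.le, Real.log_rpow hn0]
    have h6 : C * (1 + -((q : ℝ) * r * ρ - (q : ℝ) * r) * Real.log n) =
        C + C * ((1 - ρ) * ((q : ℝ) * r)) * Real.log n := by ring
    rw [h6]
    exact h5

end MAbc
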