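import Pool.Agent.MAbc.CoreDefs

/-!
# MAbc.First: the first moment

PROOF. `H = HH q r n`. For `(y, z)` in `YZ` put `u = uu q r a b (y, z)`, `H ≤ u ≤ Λ H` (`Par.hu`). By `x_lower` with
`L = l H/4 ≤ u/2` the set `Xs p u L` (`mem_Xs`) has at least
`(l H/4)/p * u^(1/p-1) - 1 ≥ (l/(4p)) H (Λ H)^(1/p-1) - 1 ≥ l H^(1/p)/(4 p Λ) - 1 ≥ l H^(1/p)/(8 p Λ)` elements (`Par.hX`;
`Λ^(1/p-1) ≥ Λ^(-1)` as `Λ ≥ 1`). For each of them `strip_sq_lower` with `A = x^p`, `B = y^q`, `C = z^r`,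
`κ = 1/(4 (2k)^r)` (`κ C ≤ H/4 ≤ B/4`) gives area at least `4 κ l δ/B ≥ l δ/((2k)^r 2^q H) ≥ l (δ/H)/Λ^2`.
There are `n^r * (k n^q)` pairs `(y, z)`.
-/

namespace MAbc

open MeasureTheory

theorem card_YZ (q r k n : ℕ) : (YZ q r k n).card = n ^ r * (k * n ^ q) := by
  unfold YZ
  rw [Finset.card_product, Nat.card_Ioc, Nat.card_Ioc]
  congr 1 <;> omega

private theorem First_count {p : ℕ} (hp : 1 ≤ p) {l H Λ u : ℝ} (hl : 0 < l) (hl1 : l ≤ 1)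
    (hH : 1 ≤ H) (hΛ : 1 ≤ Λ) (hu : H ≤ u) (hu2 : u ≤ Λ * H)
    (hX : 8 * p * Λ ≤ l * H ^ (1 / (p : ℝ))) :
    l * H ^ (1 / (p : ℝ)) / (8 * p * Λ) ≤ ((Xs p u (l * H / 4)).card : ℝ) := by
  have hp1 : (1 : ℝ) ≤ p := by exact_mod_cast hp
  have hH0 : 0 < H := by linarith
  have hu0 : 0 < u := by linarith
  have hL : 0 < l * H / 4 := by positivity
  have hLu : l * H / 4 ≤ u / 2 := by nlinarith
  obtain ⟨F, hF, hFc⟩ := x_lower hp hL hLu
  have hsub : F ⊆ Xs p u (l * H / 4) := fun x hx => (mem_Xs hp).2 (hF x hx)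
  have hcard : (F.card : ℝ) ≤ ((Xs p u (l * H / 4)).card : ℝ) := by
    exact_mod_cast Finset.card_le_card hsub
  have e0 : 1 / (p : ℝ) - 1 ≤ 0 := by
    rw [sub_nonpos, div_le_one (by linarith)]
    exact hp1
  have h1 : (Λ * H) ^ (1 / (p : ℝ) - 1) ≤ u ^ (1 / (p : ℝ) - 1) :=
    Real.rpow_le_rpow_of_nonpos hu0 hu2 e0
  have h2 : (Λ * H) ^ (1 / (p : ℝ) - 1) = Λ ^ (1 / (p : ℝ) - 1) * H ^ (1 / (p : ℝ) - 1) :=
    Real.mul_rpow (by linarith) hH0.le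
  have h3 : Λ⁻¹ ≤ Λ ^ (1 / (p : ℝ) - 1) := by
    rw [← Real.rpow_neg_one]
    refine Real.rpow_le_rpow_of_exponent_le hΛ ?_
    have : 0 ≤ 1 / (p : ℝ) := by positivity
    linarith
  have h4 : H ^ (1 / (p : ℝ) - 1) = H ^ (1 / (p : ℝ)) / H := by
    rw [Real.rpow_sub hH0, Real.rpow_one]
  have hHp : 0 < H ^ (1 / (p : ℝ)) := Real.rpow_pos_of_pos hH0 _
  have h5 : Λ⁻¹ * (H ^ (1 / (p : ℝ)) / H) ≤ u ^ (1 / (p : ℝ) - 1) := by
    refine le_trans ?_ h1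
    rw [h2, ← h4]
    exact mul_le_mul_of_nonneg_right h3 (Real.rpow_nonneg hH0.le _)
  have h6 : l * H / 4 / p * (Λ⁻¹ * (H ^ (1 / (p : ℝ)) / H)) ≤
      l * H / 4 / p * u ^ (1 / (p : ℝ) - 1) := mul_le_mul_of_nonneg_left h5 (by positivity)
  have h7 : l * H / 4 / p * (Λ⁻¹ * (H ^ (1 / (p : ℝ)) / H)) =
      2 * (l * H ^ (1 / (p : ℝ)) / (8 * p * Λ)) := by
    field_simp
    ring
  have h8 : 1 ≤ l * H ^ (1 / (p : ℝ)) / (8 * p * Λ) := by
    rw [le_div_iff₀ (by positivity), one_mul]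
    exact hX
  linarith

private theorem First_area {A B C a b l δ Λ H K2 Q2 : ℝ} (hH : 1 ≤ H) (hl : 0 < l)
    (hδ : 0 < δ) (hδH : δ ≤ l * H / 4) (hB1 : H ≤ B) (hB2 : B ≤ Q2 * H) (hC : 0 ≤ C)
    (hC2 : C ≤ K2 * H) (hK1 : 1 ≤ K2) (hK2 : K2 ≤ Λ) (hQ2 : Q2 ≤ Λ)
    (hA : |A - (b * C - a * B)| ≤ l * H / 4) :
    l * (δ / H) / Λ ^ 2 ≤ (volume (strip A B C δ ∩ sq a b l)).toReal := by
  have hB : 0 < B := by linarith
  have hH0 : 0 < H := by linarith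
  have hΛ : 0 < Λ := by linarith
  have hHB : l * H / 4 ≤ l * B / 4 := by nlinarith
  have h1 := strip_sq_lower (A := A) (B := B) (C := C) (a := a) (b := b) (l := l) (δ := δ)
    (κ := 1 / (4 * K2)) hB hC hl hδ (hδH.trans hHB) (by
      have e : A + a * B - b * C = A - (b * C - a * B) := by ring
      rw [e]
      exact hA.trans hHB) (by positivity) (by
      rw [div_le_one (by positivity)]
      linarith) (by
      rw [one_div, inv_mul_le_iff₀ (by positivity)]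
      have : K2 * H ≤ K2 * B := mul_le_mul_of_nonneg_left hB1 (by linarith)
      linarith)
  have hfin : volume (strip A B C δ ∩ sq a b l) ≠ ⊤ := by
    refine ((measure_mono Set.inter_subset_right).trans_lt ?_).ne
    unfold sq
    exact (isCompact_Icc.prod isCompact_Icc).measure_lt_top
  have h2 := (ENNReal.ofReal_le_iff_le_toReal hfin).1 h1
  refine le_trans ?_ h2
  have h3 : 4 * (1 / (4 * K2)) * l * δ / B = l * δ / (K2 * B) := by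
    field_simp
  have h4 : l * (δ / H) / Λ ^ 2 = l * δ / (Λ * (Λ * H)) := by
    field_simp
  rw [h3, h4]
  refine div_le_div_of_nonneg_left (by positivity) (by positivity) ?_
  refine mul_le_mul hK2 ?_ hB.le hΛ.le
  exact hB2.trans (mul_le_mul_of_nonneg_right hQ2 hH0.le)

theorem first_moment {p q r k n : ℕ} {Λ a b l δ : ℝ} (P : Par p q r k Λ a b l δ n) :
    ((n : ℝ) ^ r * (k * (n : ℝ) ^ q)) * (l ^ 2 * HH q r n ^ (1 / (p : ℝ)) * (δ / HH q r n)) / (8 * p * Λ ^ 3) ≤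
      ∑ t ∈ TT p q r k n a b l, (volume (SS p q r a b l δ t)).toReal := by
  obtain ⟨H, hHd⟩ : ∃ H, H = HH q r n := ⟨_, rfl⟩
  have hH : 1 ≤ H := by rw [hHd]; exact HH_one_le P.hn
  have hδH := P.hδH
  have hX := P.hX
  have hu := P.hu
  rw [← hHd] at hδH hX
  have h2q : (1 : ℝ) ≤ 2 ^ q := one_le_pow₀ (by norm_num)
  have hΛ : 1 ≤ Λ := h2q.trans P.hΛ1
  have hk1 : (1 : ℝ) ≤ k := by exact_mod_cast P.hk
  have hK1 : (1 : ℝ) ≤ (2 * (k : ℝ)) ^ r := one_le_pow₀ (by linarith)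
  have hp1 : (1 : ℝ) ≤ p := by exact_mod_cast P.hp
  have hH0 : 0 < H := by linarith
  have hHp : 0 < H ^ (1 / (p : ℝ)) := Real.rpow_pos_of_pos hH0 _
  have hδ := P.hδ
  have hl := P.hl
  rw [← hHd]
  unfold TT
  rw [Finset.sum_sigma]
  have key : ∀ s ∈ YZ q r k n, l ^ 2 * H ^ (1 / (p : ℝ)) * (δ / H) / (8 * p * Λ ^ 3) ≤
      ∑ x ∈ Xs p (uu q r a b s) (l * HH q r n / 4),
        (volume (SS p q r a b l δ ⟨s, x⟩)).toReal := by
    intro s hs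
    obtain ⟨b1, b2, b3, b4⟩ := YZ_bounds P.hk hs
    rw [← hHd] at b1 b2 b3 b4
    obtain ⟨u1, u2⟩ := hu s hs
    rw [← hHd] at u1 u2
    rw [← hHd]
    have h1 : ∀ x ∈ Xs p (uu q r a b s) (l * H / 4), l * (δ / H) / Λ ^ 2 ≤
        (volume (SS p q r a b l δ ⟨s, x⟩)).toReal := by
      intro x hx
      rw [mem_Xs P.hp] at hx
      exact First_area hH hl hδ hδH b1 b2 (by positivity) b4 hK1 P.hΛ2 P.hΛ1 hx
    have h2 := Finset.card_nsmul_le_sum _ _ _ h1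
    rw [nsmul_eq_mul] at h2
    refine le_trans ?_ h2
    have h3 := First_count P.hp hl P.hl1 hH hΛ u1 u2 hX
    have h4 : l ^ 2 * H ^ (1 / (p : ℝ)) * (δ / H) / (8 * p * Λ ^ 3) =
        l * H ^ (1 / (p : ℝ)) / (8 * p * Λ) * (l * (δ / H) / Λ ^ 2) := by
      field_simp
    rw [h4]
    exact mul_le_mul_of_nonneg_right h3 (by positivity)
  have h2 := Finset.card_nsmul_le_sum _ _ _ key
  rw [nsmul_eq_mul, card_YZ] at h2
  refine le_trans (le_of_eq ?_) h2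
  push_cast
  ring

end MAbc
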