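import Pool.Agent.MAbc.Sep

/-!
# MAbc.Frac: reduced fractions whose q-th powers lie in a short interval

PROOF. `f (a, b) = (a / b)^q`. Two different reduced fractions `a/b`, `c/d` with `b, d ≤ M` differ by
`|a d - b c| / (b d) ≥ 1 / M^2`, and `|x^q - y^q| ≥ |x - y| (1/2)^(q-1)` for `x, y ≥ 1/2`
(`x^q - y^q = (x - y) ∑ x^i y^(q-1-i)` and the term `i = 0` or one suitable term is at least `(1/2)^(q-1)`).
So `card_le_of_sep` applies with `κ = (1/2)^(q-1) / M^2 ≥ 1 / (2^q M^2)`, `L = θ`.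
-/

namespace MAbc

private theorem Frac_pow {x y : ℝ} (hy : 1 / 2 ≤ y) (hxy : y ≤ x) {q : ℕ} (hq : 1 ≤ q) :
    (x - y) * (1 / 2) ^ q ≤ x ^ q - y ^ q := by
  induction q, hq using Nat.le_induction with
  | base =>
    rw [pow_one, pow_one, pow_one]
    linarith
  | succ q hq ih =>
    have h1 : 0 ≤ y ^ q := by positivity
    have h2 : 0 ≤ (x - y) * (1 / 2) ^ q := mul_nonneg (by linarith) (by positivity)
    have h3 : x ^ (q + 1) - y ^ (q + 1) = x * (x ^ q - y ^ q) + (x - y) * y ^ q := by ring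
    have h4 : 0 ≤ (x - y) * y ^ q := mul_nonneg (by linarith) h1
    have h5 : 1 / 2 * ((x - y) * (1 / 2) ^ q) ≤ x * (x ^ q - y ^ q) :=
      mul_le_mul (by linarith) ih h2 (by linarith)
    rw [h3, pow_succ]
    linarith

private theorem Frac_abs {x y : ℝ} (hx : 1 / 2 ≤ x) (hy : 1 / 2 ≤ y) {q : ℕ} (hq : 1 ≤ q) :
    |x - y| * (1 / 2) ^ q ≤ |x ^ q - y ^ q| := by
  rcases le_total y x with h | h
  · rw [abs_of_nonneg (by linarith : 0 ≤ x - y)]
    exact (Frac_pow hy h hq).trans (le_abs_self _)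
  · rw [abs_sub_comm x y, abs_sub_comm (x ^ q), abs_of_nonneg (by linarith : 0 ≤ y - x)]
    exact (Frac_pow hx h hq).trans (le_abs_self _)

private theorem Frac_ne {a b c d : ℕ} (h : Nat.Coprime a b) (h' : Nat.Coprime c d) (ha : 1 ≤ a)
    (hne : (a, b) ≠ (c, d)) : a * d ≠ c * b := by
  intro he
  apply hne
  have h1 : a ∣ c := h.dvd_of_dvd_mul_right (by rw [← he]; exact dvd_mul_right a d)
  have h2 : c ∣ a := h'.dvd_of_dvd_mul_right (by rw [he]; exact dvd_mul_right c b)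
  have h3 : a = c := Nat.dvd_antisymm h1 h2
  subst h3
  have h4 : d = b := Nat.eq_of_mul_eq_mul_left ha he
  rw [h4]

theorem card_frac_le {q : ℕ} (hq : 1 ≤ q) {M θ w : ℝ} (hM : 1 ≤ M) (hθ : 0 ≤ θ) (F : Finset (ℕ × ℕ))
    (hF : ∀ s ∈ F, Nat.Coprime s.1 s.2 ∧ 1 ≤ s.1 ∧ 1 ≤ s.2 ∧ (s.1 : ℝ) ≤ M ∧ (s.2 : ℝ) ≤ M ∧
      s.2 ≤ 2 * s.1 ∧ |((s.1 : ℝ) / s.2) ^ q - w| ≤ θ) :
    (F.card : ℝ) ≤ 1 + 2 ^ (q + 1) * θ * M ^ 2 := by
  have hκ : (0 : ℝ) < 1 / (2 ^ q * M ^ 2) := by positivity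
  have h1 := card_le_of_sep F (fun s => ((s.1 : ℝ) / s.2) ^ q) hκ hθ ?_ (fun s hs => (hF s hs).2.2.2.2.2.2)
  · refine h1.trans (le_of_eq ?_)
    rw [one_div, div_inv_eq_mul]
    ring
  · rintro ⟨a, b⟩ hs ⟨c, d⟩ ht hst
    obtain ⟨h1, h2, h3, h4, h5, h6, -⟩ := hF _ hs
    obtain ⟨k1, k2, k3, k4, k5, k6, -⟩ := hF _ ht
    simp only at h1 h2 h3 h4 h5 h6 k1 k2 k3 k4 k5 k6 ⊢
    have hb : (0 : ℝ) < b := by exact_mod_cast h3
    have hd : (0 : ℝ) < d := by exact_mod_cast k3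
    have hx : (1 : ℝ) / 2 ≤ (a : ℝ) / b := by
      rw [div_le_div_iff₀ (by norm_num) hb]
      have : (b : ℝ) ≤ 2 * a := by exact_mod_cast h6
      linarith
    have hy : (1 : ℝ) / 2 ≤ (c : ℝ) / d := by
      rw [div_le_div_iff₀ (by norm_num) hd]
      have : (d : ℝ) ≤ 2 * c := by exact_mod_cast k6
      linarith
    refine le_trans ?_ (Frac_abs hx hy hq)
    have h7 : (1 : ℝ) ≤ |(a : ℝ) * d - c * b| := by
      have h8 : (a : ℤ) * d - c * b ≠ 0 := by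
        intro h9
        have h10 : (a : ℤ) * d = c * b := by linarith
        exact Frac_ne h1 k1 h2 hst (by exact_mod_cast h10)
      have h9 := Int.one_le_abs h8
      have h10 : ((1 : ℤ) : ℝ) ≤ ((|(a : ℤ) * d - c * b| : ℤ) : ℝ) := by exact_mod_cast h9
      push_cast at h10
      exact h10
    have h8 : (a : ℝ) / b - c / d = (a * d - c * b) / (b * d) := by
      field_simp
    have h9 : (1 : ℝ) / M ^ 2 ≤ |(a : ℝ) / b - c / d| := by
      rw [h8, abs_div, abs_of_pos (mul_pos hb hd)]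
      refine div_le_div₀ (by linarith) h7 (mul_pos hb hd) ?_
      rw [pow_two]
      exact mul_le_mul h5 k5 hd.le (by linarith)
    have h10 : 1 / (2 ^ q * M ^ 2) = 1 / M ^ 2 * (1 / 2 : ℝ) ^ q := by
      rw [one_div_pow]
      field_simp
    rw [h10]
    exact mul_le_mul_of_nonneg_right h9 (by positivity)

end MAbc
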