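import Pool.Agent.MAbc.Basic

/-!
# MAbc.RadSum: the sum of |n|^(-s) / rad n converges for s > 0

PROOF. On the natural numbers `f n = n^(-s) / rad n` (`f 0 = 0`, `f 1 = 1`) is multiplicative on coprime arguments and
`f (p^k) = p^(-k s) / p` for `k ≥ 1`. By `EulerProduct.summable_and_hasSum_smoothNumbers_prod_primesBelow_tsum`
`∑_{n < N} f n ≤ ∏_{p < N} (1 + p^(-s)/(1 - p^(-s)) / p) ≤ exp (∑ p^(-1-s) / (1 - 2^(-s)))`, bounded. The sum over the negative
integers is the same.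
-/

namespace MAbc

private noncomputable def RadSum_f (s : ℝ) (n : ℕ) : ℝ :=
  if n = 0 then 0 else (n : ℝ) ^ (-s) / ((∏ p ∈ n.primeFactors, p : ℕ) : ℝ)

private theorem RadSum_nonneg (s : ℝ) (n : ℕ) : 0 ≤ RadSum_f s n := by
  unfold RadSum_f
  split_ifs
  · exact le_rfl
  · positivity

private theorem RadSum_one (s : ℝ) : RadSum_f s 1 = 1 := by
  simp [RadSum_f]

private theorem RadSum_mul (s : ℝ) {m n : ℕ} (h : Nat.Coprime m n) :
    RadSum_f s (m * n) = RadSum_f s m * RadSum_f s n := by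
  rcases Nat.eq_zero_or_pos m with rfl | hm
  · rw [Nat.coprime_zero_left] at h
    subst h
    simp [RadSum_f]
  rcases Nat.eq_zero_or_pos n with rfl | hn
  · simp [RadSum_f]
  unfold RadSum_f
  rw [if_neg (Nat.mul_pos hm hn).ne', if_neg hm.ne', if_neg hn.ne', h.primeFactors_mul,
    Finset.prod_union h.disjoint_primeFactors, Nat.cast_mul, Nat.cast_mul,
    Real.mul_rpow (Nat.cast_nonneg _) (Nat.cast_nonneg _)]
  ring

private theorem RadSum_pow (s : ℝ) {p : ℕ} (hp : p.Prime) (k : ℕ) :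
    RadSum_f s (p ^ (k + 1)) = ((p : ℝ) ^ (-s)) ^ k * ((p : ℝ) ^ (-s) / p) := by
  unfold RadSum_f
  rw [if_neg (pow_pos hp.pos _).ne', Nat.primeFactors_prime_pow (Nat.succ_ne_zero k) hp,
    Finset.prod_singleton, Nat.cast_pow, ← Real.rpow_natCast, ← Real.rpow_mul (Nat.cast_nonneg _),
    mul_comm, Real.rpow_mul (Nat.cast_nonneg _), Real.rpow_natCast, pow_succ]
  ring

private theorem RadSum_q {s : ℝ} (hs : 0 < s) {p : ℕ} (hp : p.Prime) :
    0 < (p : ℝ) ^ (-s) ∧ (p : ℝ) ^ (-s) ≤ (2 : ℝ) ^ (-s) := by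
  have h2 : (2 : ℝ) ≤ p := by exact_mod_cast hp.two_le
  refine ⟨Real.rpow_pos_of_pos (by linarith) _, ?_⟩
  exact Real.rpow_le_rpow_of_nonpos (by norm_num) h2 (by linarith)

private theorem RadSum_q0 {s : ℝ} (hs : 0 < s) : (2 : ℝ) ^ (-s) < 1 :=
  Real.rpow_lt_one_of_one_lt_of_neg (by norm_num) (by linarith)

private theorem RadSum_summable_p {s : ℝ} (hs : 0 < s) {p : ℕ} (hp : p.Prime) :
    Summable (fun n : ℕ => ‖RadSum_f s (p ^ n)‖) := by
  rw [← summable_nat_add_iff 1]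
  have h1 := RadSum_q hs hp
  have h2 := RadSum_q0 hs
  have h3 : (fun n : ℕ => ‖RadSum_f s (p ^ (n + 1))‖) =
      fun n : ℕ => ((p : ℝ) ^ (-s)) ^ n * ((p : ℝ) ^ (-s) / p) := by
    funext n
    rw [Real.norm_of_nonneg (RadSum_nonneg _ _), RadSum_pow s hp]
  rw [h3]
  exact (summable_geometric_of_lt_one h1.1.le (by linarith)).mul_right _

private theorem RadSum_tsum_p {s : ℝ} (hs : 0 < s) {p : ℕ} (hp : p.Prime) :
    ∑' n : ℕ, RadSum_f s (p ^ n) ≤ Real.exp ((1 - (2 : ℝ) ^ (-s))⁻¹ * (p : ℝ) ^ (-(1 + s))) := by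
  have h1 := RadSum_q hs hp
  have h2 := RadSum_q0 hs
  have hp0 : (0 : ℝ) < p := by exact_mod_cast hp.pos
  have hsum : Summable (fun n : ℕ => RadSum_f s (p ^ n)) := (RadSum_summable_p hs hp).of_norm
  rw [hsum.tsum_eq_zero_add, pow_zero, RadSum_one]
  have h3 : ∑' n : ℕ, RadSum_f s (p ^ (n + 1)) = (1 - (p : ℝ) ^ (-s))⁻¹ * ((p : ℝ) ^ (-s) / p) := by
    rw [← tsum_geometric_of_lt_one h1.1.le (by linarith), ← tsum_mul_right]
    exact tsum_congr fun n => RadSum_pow s hp n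
  rw [h3]
  have h4 : (p : ℝ) ^ (-s) / p = (p : ℝ) ^ (-(1 + s)) := by
    rw [neg_add, Real.rpow_add hp0, Real.rpow_neg_one]
    ring
  rw [h4]
  have h5 : (1 - (p : ℝ) ^ (-s))⁻¹ ≤ (1 - (2 : ℝ) ^ (-s))⁻¹ :=
    inv_anti₀ (by linarith) (by linarith)
  have h6 : 0 < (p : ℝ) ^ (-(1 + s)) := Real.rpow_pos_of_pos hp0 _
  calc 1 + (1 - (p : ℝ) ^ (-s))⁻¹ * (p : ℝ) ^ (-(1 + s))
      ≤ (1 - (2 : ℝ) ^ (-s))⁻¹ * (p : ℝ) ^ (-(1 + s)) + 1 := by
        rw [add_comm]
        have := mul_le_mul_of_nonneg_right h5 h6.le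
        linarith
    _ ≤ _ := Real.add_one_le_exp _

private theorem RadSum_nat {s : ℝ} (hs : 0 < s) : Summable (RadSum_f s) := by
  have h2 := RadSum_q0 hs
  have hS : Summable (fun n : ℕ => (1 - (2 : ℝ) ^ (-s))⁻¹ * (n : ℝ) ^ (-(1 + s))) :=
    (Real.summable_nat_rpow.2 (by linarith)).mul_left _
  refine summable_of_sum_range_le (c := Real.exp
    (∑' n : ℕ, (1 - (2 : ℝ) ^ (-s))⁻¹ * (n : ℝ) ^ (-(1 + s)))) (RadSum_nonneg s) ?_
  intro N
  have h1 := (EulerProduct.summable_and_hasSum_smoothNumbers_prod_primesBelow_tsum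
    (f := RadSum_f s) (RadSum_one s) (fun {m n} h => RadSum_mul s h)
    (fun {p} hp => RadSum_summable_p hs hp) N).2
  have h3 := (hasSum_subtype_iff_indicator (s := N.smoothNumbers) (f := RadSum_f s)).1 h1
  have h4 : ∑ i ∈ Finset.range N, RadSum_f s i ≤
      ∏ p ∈ N.primesBelow, ∑' n : ℕ, RadSum_f s (p ^ n) := by
    refine le_trans (Finset.sum_le_sum fun n hn => ?_) (sum_le_hasSum (Finset.range N) ?_ h3)
    · rcases Nat.eq_zero_or_pos n with rfl | hn0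
      · refine le_trans (le_of_eq ?_) (Set.indicator_nonneg (fun m _ => RadSum_nonneg s m) 0)
        simp [RadSum_f]
      · rw [Set.indicator_of_mem (Nat.mem_smoothNumbers_of_lt hn0 (Finset.mem_range.1 hn))]
    · intro n _
      exact Set.indicator_nonneg (fun m _ => RadSum_nonneg s m) n
  refine h4.trans ?_
  calc ∏ p ∈ N.primesBelow, ∑' n : ℕ, RadSum_f s (p ^ n)
      ≤ ∏ p ∈ N.primesBelow, Real.exp ((1 - (2 : ℝ) ^ (-s))⁻¹ * (p : ℝ) ^ (-(1 + s))) := by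
        refine Finset.prod_le_prod (fun p _ => tsum_nonneg fun n => RadSum_nonneg _ _) ?_
        intro p hp
        exact RadSum_tsum_p hs (Nat.prime_of_mem_primesBelow hp)
    _ = Real.exp (∑ p ∈ N.primesBelow, (1 - (2 : ℝ) ^ (-s))⁻¹ * (p : ℝ) ^ (-(1 + s))) :=
        (Real.exp_sum _ _).symm
    _ ≤ _ := by
        rw [Real.exp_le_exp]
        refine hS.sum_le_tsum _ fun n _ => ?_
        have : (0 : ℝ) < (1 - (2 : ℝ) ^ (-s))⁻¹ := inv_pos.2 (by linarith)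
        positivity

theorem summable_rad {s : ℝ} (hs : 0 < s) :
    Summable (fun n : ℤ => if n = 0 then (0 : ℝ) else |(n : ℝ)| ^ (-s) / rad n) := by
  refine Summable.of_nat_of_neg ?_ ?_
  · refine (RadSum_nat hs).congr fun n => ?_
    unfold RadSum_f rad
    simp
  · refine (RadSum_nat hs).congr fun n => ?_
    unfold RadSum_f rad
    simp

end MAbc
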