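import Pool.Agent.MAbc.Area
import Pool.Agent.MAbc.RadSum

/-!
# MAbc.Metric: the abc inequality for almost all real multipliers

PROOF. Borel-Cantelli: in the box of radius `R` the strip of a triple `(A, B, C)` with
`δ = H^(1-ε)/(rad A rad B rad C)`, `H = max |A| |B| |C|`, has area at most `32 R^2 H^(-ε)/(rad A rad B rad C)`, and
`H^(-ε) ≤ |A|^(-ε/3) |B|^(-ε/3) |C|^(-ε/3)`, so the sum over all triples is at most the third power of the convergent sum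
of `RadSum`.
-/

namespace MAbc

open MeasureTheory

theorem rad_pos (n : ℤ) : 0 < rad n :=
  Finset.prod_pos (fun _ hp => (Nat.prime_of_mem_primeFactors hp).pos)

theorem one_le_abs {n : ℤ} (hn : n ≠ 0) : (1 : ℝ) ≤ |(n : ℝ)| := by
  rw [← Int.cast_abs]
  exact_mod_cast Int.one_le_abs hn

theorem one_le_mx {A : ℤ} (hA : A ≠ 0) (B C : ℤ) : 1 ≤ mx A B C :=
  (one_le_abs hA).trans (le_max_left _ _)

/-- the sets for Borel-Cantelli -/
noncomputable def bad (R ε : ℝ) (T : ℤ × ℤ × ℤ) : Set (ℝ × ℝ) :=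
  {v | (T.1 ≠ 0 ∧ T.2.1 ≠ 0 ∧ T.2.2 ≠ 0) ∧
    v ∈ strip T.1 T.2.1 T.2.2 (mx T.1 T.2.1 T.2.2 ^ (1 - ε) / (rad T.1 * rad T.2.1 * rad T.2.2)) ∩
      (Set.Icc (-R) R ×ˢ Set.Icc (-R) R)}

/-- the summand -/
noncomputable def gs (s : ℝ) (n : ℤ) : ℝ := if n = 0 then (0 : ℝ) else |(n : ℝ)| ^ (-s) / rad n

theorem gs_nonneg (s : ℝ) (n : ℤ) : 0 ≤ gs s n := by
  unfold gs
  split_ifs
  · exact le_rfl
  · positivity

theorem bad_le {R ε : ℝ} (hR : 1 ≤ R) (hε : 0 < ε) (T : ℤ × ℤ × ℤ) :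
    volume (bad R ε T) ≤ ENNReal.ofReal (32 * R ^ 2 * (gs (ε / 3) T.1 * (gs (ε / 3) T.2.1 * gs (ε / 3) T.2.2))) := by
  obtain ⟨A, B, C⟩ := T
  by_cases h : A ≠ 0 ∧ B ≠ 0 ∧ C ≠ 0
  · obtain ⟨hA, hB, hC⟩ := h
    have hH : 1 ≤ mx A B C := one_le_mx hA B C
    have hH0 : 0 < mx A B C := by linarith
    have hrA : (0 : ℝ) < rad A := by exact_mod_cast rad_pos A
    have hrB : (0 : ℝ) < rad B := by exact_mod_cast rad_pos B
    have hrC : (0 : ℝ) < rad C := by exact_mod_cast rad_pos C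
    have hsub : bad R ε (A, B, C) ⊆
        strip A B C (mx A B C ^ (1 - ε) / (rad A * rad B * rad C)) ∩ (Set.Icc (-R) R ×ˢ Set.Icc (-R) R) :=
      fun v hv => hv.2
    refine (measure_mono hsub).trans ?_
    refine (strip_box hR (by positivity) hH0).trans ?_
    apply ENNReal.ofReal_le_ofReal
    have e1 : max |(A : ℝ)| (max |(B : ℝ)| |(C : ℝ)|) = mx A B C := rfl
    rw [e1]
    simp only [gs, hA, hB, hC, if_false]
    have hA1 := one_le_abs hA
    have hB1 := one_le_abs hB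
    have hC1 := one_le_abs hC
    have k1 : (mx A B C) ^ (-ε) ≤ |(A : ℝ)| ^ (-(ε / 3)) * (|(B : ℝ)| ^ (-(ε / 3)) * |(C : ℝ)| ^ (-(ε / 3))) := by
      have e2 : (mx A B C) ^ (-ε) = (mx A B C) ^ (-(ε / 3)) * ((mx A B C) ^ (-(ε / 3)) * (mx A B C) ^ (-(ε / 3))) := by
        rw [← Real.rpow_add hH0, ← Real.rpow_add hH0]
        congr 1
        ring
      rw [e2]
      have f : ∀ x : ℝ, 1 ≤ x → x ≤ mx A B C → (mx A B C) ^ (-(ε / 3)) ≤ x ^ (-(ε / 3)) := by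
        intro x hx hx'
        exact Real.rpow_le_rpow_of_nonpos (by linarith) hx' (by linarith)
      have fA := f _ hA1 (le_max_left _ _)
      have fB := f _ hB1 ((le_max_left _ _).trans (le_max_right _ _))
      have fC := f _ hC1 ((le_max_right _ _).trans (le_max_right _ _))
      have p0 : 0 ≤ (mx A B C) ^ (-(ε / 3)) := by positivity
      exact mul_le_mul fA (mul_le_mul fB fC p0 (by positivity)) (by positivity) (by positivity)
    have e3 : 32 * R ^ 2 * (mx A B C ^ (1 - ε) / (rad A * rad B * rad C)) / mx A B C =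
        32 * R ^ 2 * ((mx A B C) ^ (-ε) / (rad A * rad B * rad C)) := by
      rw [sub_eq_add_neg, Real.rpow_add hH0, Real.rpow_one]
      field_simp
    rw [e3]
    have e4 : |(A : ℝ)| ^ (-(ε / 3)) / rad A * (|(B : ℝ)| ^ (-(ε / 3)) / rad B * (|(C : ℝ)| ^ (-(ε / 3)) / rad C)) =
        (|(A : ℝ)| ^ (-(ε / 3)) * (|(B : ℝ)| ^ (-(ε / 3)) * |(C : ℝ)| ^ (-(ε / 3)))) / (rad A * rad B * rad C) := by
      field_simp
    rw [e4]
    have : (mx A B C) ^ (-ε) / (rad A * rad B * rad C) ≤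
        (|(A : ℝ)| ^ (-(ε / 3)) * (|(B : ℝ)| ^ (-(ε / 3)) * |(C : ℝ)| ^ (-(ε / 3)))) / (rad A * rad B * rad C) := by
      gcongr
    have hR2 : 0 ≤ 32 * R ^ 2 := by positivity
    exact mul_le_mul_of_nonneg_left this hR2
  · have : bad R ε (A, B, C) = ∅ := by
      ext v
      simp only [bad, Set.mem_ofPred_eq, Set.mem_empty_iff_false, iff_false]
      exact fun hv => h hv.1
    rw [this, measure_empty]
    exact zero_le

theorem sum_bad_ne_top {R ε : ℝ} (hR : 1 ≤ R) (hε : 0 < ε) : (∑' T, volume (bad R ε T)) ≠ ⊤ := by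
  have hs : Summable (gs (ε / 3)) := summable_rad (s := ε / 3) (by positivity)
  have h2 : Summable (fun T : ℤ × ℤ => gs (ε / 3) T.1 * gs (ε / 3) T.2) :=
    hs.mul_of_nonneg hs (gs_nonneg _) (gs_nonneg _)
  have h3 : Summable (fun T : ℤ × ℤ × ℤ => gs (ε / 3) T.1 * (gs (ε / 3) T.2.1 * gs (ε / 3) T.2.2)) :=
    hs.mul_of_nonneg h2 (gs_nonneg _) (fun T => mul_nonneg (gs_nonneg _ _) (gs_nonneg _ _))
  have h4 := h3.mul_left (32 * R ^ 2)
  refine ne_top_of_le_ne_top ?_ (ENNReal.tsum_le_tsum (fun T => bad_le hR hε T))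
  rw [← ENNReal.ofReal_tsum_of_nonneg (fun T => ?_) h4]
  · exact ENNReal.ofReal_ne_top
  · have := gs_nonneg (ε / 3) T.1
    have := gs_nonneg (ε / 3) T.2.1
    have := gs_nonneg (ε / 3) T.2.2
    positivity

/-- the triples which violate the abc inequality with exponent `1 - ε` for the multipliers `v` -/
def Viol (v : ℝ × ℝ) (ε : ℝ) : Set (ℤ × ℤ × ℤ) :=
  {T | T.1 ≠ 0 ∧ T.2.1 ≠ 0 ∧ T.2.2 ≠ 0 ∧
    (rad T.1 : ℝ) * rad T.2.1 * rad T.2.2 * |T.1 + v.1 * T.2.1 - v.2 * T.2.2| < mx T.1 T.2.1 T.2.2 ^ (1 - ε)}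

theorem viol_mono (v : ℝ × ℝ) {ε ε' : ℝ} (h : ε' ≤ ε) : Viol v ε ⊆ Viol v ε' := by
  intro T hT
  obtain ⟨h1, h2, h3, h4⟩ := hT
  refine ⟨h1, h2, h3, h4.trans_le ?_⟩
  exact Real.rpow_le_rpow_of_exponent_le (one_le_mx h1 _ _) (by linarith)

theorem metric_abc : ∀ᵐ v : ℝ × ℝ, ∀ ε : ℝ, 0 < ε → (Viol v ε).Finite := by
  have key : ∀ᵐ v : ℝ × ℝ, ∀ m : ℕ, ∀ R : ℕ, {T | v ∈ bad (R + 1) (1 / (m + 1)) T}.Finite := by
    rw [ae_all_iff]
    intro m
    rw [ae_all_iff]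
    intro R
    apply ae_finite_setOfPred_mem
    exact sum_bad_ne_top (by have : (0 : ℝ) ≤ R := Nat.cast_nonneg R
                             linarith) (by positivity)
  filter_upwards [key] with v hv ε hε
  obtain ⟨m, hm⟩ := exists_nat_one_div_lt hε
  obtain ⟨R, hR⟩ := exists_nat_ge (max |v.1| |v.2|)
  refine ((hv m R).subset ?_)
  intro T hT
  obtain ⟨h1, h2, h3, h4⟩ := viol_mono v hm.le hT
  refine ⟨⟨h1, h2, h3⟩, ?_, ?_⟩
  · have hrA : (0 : ℝ) < rad T.1 := by exact_mod_cast rad_pos _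
    have hrB : (0 : ℝ) < rad T.2.1 := by exact_mod_cast rad_pos _
    have hrC : (0 : ℝ) < rad T.2.2 := by exact_mod_cast rad_pos _
    show |(T.1 : ℝ) + v.1 * T.2.1 - v.2 * T.2.2| < _
    rw [lt_div_iff₀ (by positivity), mul_comm]
    exact h4
  · have hv1 : |v.1| ≤ R + 1 := by linarith [le_max_left |v.1| |v.2|]
    have hv2 : |v.2| ≤ R + 1 := by linarith [le_max_right |v.1| |v.2|]
    exact ⟨abs_le.mp hv1, abs_le.mp hv2⟩

end MAbc
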