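import Pool.Agent.MAbc.Frac

/-!
# MAbc.Quad: pairs of fractions with close q-th and r-th powers

PROOF. Put `g = gcd (y, y')`, `h = gcd (z, z')`, `(a, b) = (y/g, y'/g)`, `(c, d) = (z/h, z'/h)`. For fixed `g ≤ 2Y`,
`h ≤ 2Z` the quadruples inject into the pairs of reduced fractions with `a, b ≤ 2Y/g`, `c, d ≤ 2Z/h`,
`b ≤ 2a`, `d ≤ 2c`, `|(a/b)^q - (c/d)^r| ≤ θ`. For fixed `(c, d)` there are at most `1 + 2^(q+1) θ (2Y/g)^2` values of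
`(a, b)` (`card_frac_le`), and there are at most `(2Z/h)^2` values of `(c, d)`; and the same with the two pairs
exchanged. So with `A = 2Y/g`, `B = 2Z/h`, `K = 2^(q+1) + 2^(r+1)` the number is at most
`min (B^2 (1 + K θ A^2)) (A^2 (1 + K θ B^2)) ≤ A B + K θ A^2 B^2`.
Sum over `g`, `h`: `∑_{g ≤ 2Y} 1/g ≤ 1 + log (2Y) ≤ 2 (1 + log Y)` and `∑ 1/g^2 ≤ 2`.
-/

namespace MAbc

private theorem Quad_harm (n : ℕ) (hn : 1 ≤ n) :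
    ∑ g ∈ Finset.Icc 1 (2 * n), (1 : ℝ) / g ≤ 2 * (1 + Real.log n) := by
  have hn0 : (0 : ℝ) < n := by exact_mod_cast hn
  have h1 : ∑ g ∈ Finset.Icc 1 (2 * n), (1 : ℝ) / g = ((harmonic (2 * n) : ℚ) : ℝ) := by
    rw [harmonic_eq_sum_Icc]
    push_cast
    refine Finset.sum_congr rfl fun g _ => ?_
    rw [one_div]
  have h2 := harmonic_le_one_add_log (2 * n)
  have h3 : Real.log ((2 * n : ℕ) : ℝ) = Real.log 2 + Real.log n := by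
    push_cast
    rw [Real.log_mul (by norm_num) hn0.ne']
  have h4 : Real.log 2 ≤ 1 := by linarith [Real.log_two_lt_d9]
  have h5 : 0 ≤ Real.log n := Real.log_nonneg (by exact_mod_cast hn)
  rw [h1]
  rw [h3] at h2
  linarith

private theorem Quad_sq (n : ℕ) : ∑ g ∈ Finset.Icc 1 n, (1 : ℝ) / (g : ℝ) ^ 2 ≤ 2 := by
  have key : ∀ n : ℕ, ∑ g ∈ Finset.Icc 1 (n + 1), (1 : ℝ) / (g : ℝ) ^ 2 ≤ 2 - 1 / ((n : ℝ) + 1) := by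
    intro n
    induction n with
    | zero => norm_num
    | succ n ih =>
      rw [Finset.sum_Icc_succ_top (by omega)]
      have h1 : (0 : ℝ) < (n : ℝ) + 1 := by positivity
      have h2 : (1 : ℝ) / (((n + 1 + 1 : ℕ) : ℝ)) ^ 2 ≤ 1 / ((n : ℝ) + 1) - 1 / ((n : ℝ) + 1 + 1) := by
        have h3 : (1 : ℝ) / ((n : ℝ) + 1) - 1 / ((n : ℝ) + 1 + 1) = 1 / (((n : ℝ) + 1) * ((n : ℝ) + 1 + 1)) := by
          field_simp
          ring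
        rw [h3]
        push_cast
        refine one_div_le_one_div_of_le (by positivity) ?_
        nlinarith
      push_cast at h2 ⊢
      linarith
  rcases Nat.eq_zero_or_pos n with h | h
  · subst h
    norm_num
  · obtain ⟨m, rfl⟩ := Nat.exists_eq_succ_of_ne_zero h.ne'
    refine (key m).trans ?_
    have : (0 : ℝ) ≤ 1 / ((m : ℝ) + 1) := by positivity
    linarith

private theorem Quad_half {q r : ℕ} (hq : 1 ≤ q) {A B θ : ℝ} (hA : 1 ≤ A) (hB : 1 ≤ B) (hθ : 0 ≤ θ)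
    (H : Finset ((ℕ × ℕ) × (ℕ × ℕ)))
    (hH : ∀ s ∈ H, Nat.Coprime s.1.1 s.1.2 ∧ 1 ≤ s.1.1 ∧ 1 ≤ s.1.2 ∧ (s.1.1 : ℝ) ≤ A ∧
      (s.1.2 : ℝ) ≤ A ∧ s.1.2 ≤ 2 * s.1.1 ∧ 1 ≤ s.2.1 ∧ 1 ≤ s.2.2 ∧ (s.2.1 : ℝ) ≤ B ∧
      (s.2.2 : ℝ) ≤ B ∧ |((s.1.1 : ℝ) / s.1.2) ^ q - ((s.2.1 : ℝ) / s.2.2) ^ r| ≤ θ) :
    (H.card : ℝ) ≤ B ^ 2 * (1 + 2 ^ (q + 1) * θ * A ^ 2) := by
  classical
  have hI : ((H.image Prod.snd).card : ℝ) ≤ B ^ 2 := by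
    have h1 : H.image Prod.snd ⊆ Finset.Icc 1 ⌊B⌋₊ ×ˢ Finset.Icc 1 ⌊B⌋₊ := by
      intro t ht
      obtain ⟨s, hs, rfl⟩ := Finset.mem_image.mp ht
      obtain ⟨-, -, -, -, -, -, h7, h8, h9, h10, -⟩ := hH s hs
      rw [Finset.mem_product, Finset.mem_Icc, Finset.mem_Icc]
      exact ⟨⟨h7, Nat.le_floor h9⟩, ⟨h8, Nat.le_floor h10⟩⟩
    have h2 := Finset.card_le_card h1
    rw [Finset.card_product, Nat.card_Icc, Nat.add_sub_cancel] at h2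
    have h3 : (⌊B⌋₊ : ℝ) ≤ B := Nat.floor_le (by linarith)
    have h4 : ((H.image Prod.snd).card : ℝ) ≤ (⌊B⌋₊ : ℝ) * ⌊B⌋₊ := by exact_mod_cast h2
    refine h4.trans ?_
    rw [pow_two]
    exact mul_le_mul h3 h3 (by positivity) (by linarith)
  have hfib : ∀ t ∈ H.image Prod.snd,
      ((H.filter (fun s => s.2 = t)).card : ℝ) ≤ 1 + 2 ^ (q + 1) * θ * A ^ 2 := by
    intro t _
    have hinj : Set.InjOn Prod.fst (↑(H.filter (fun s => s.2 = t)) : Set ((ℕ × ℕ) × (ℕ × ℕ))) := by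
      intro s hs s' hs' he
      have h1 := (Finset.mem_filter.mp (Finset.mem_coe.mp hs)).2
      have h2 := (Finset.mem_filter.mp (Finset.mem_coe.mp hs')).2
      exact Prod.ext he (h1.trans h2.symm)
    rw [← Finset.card_image_of_injOn hinj]
    refine card_frac_le hq hA hθ (w := ((t.1 : ℝ) / t.2) ^ r) _ ?_
    intro u hu
    obtain ⟨s, hs, rfl⟩ := Finset.mem_image.mp hu
    obtain ⟨hs1, hs2⟩ := Finset.mem_filter.mp hs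
    obtain ⟨h1, h2, h3, h4, h5, h6, -, -, -, -, h11⟩ := hH s hs1
    rw [hs2] at h11
    exact ⟨h1, h2, h3, h4, h5, h6, h11⟩
  have hnn : (0 : ℝ) ≤ 1 + 2 ^ (q + 1) * θ * A ^ 2 := by positivity
  have hsum : (H.card : ℝ) = ∑ t ∈ H.image Prod.snd, ((H.filter (fun s => s.2 = t)).card : ℝ) := by
    rw [Finset.card_eq_sum_card_image Prod.snd H]
    push_cast
    rfl
  rw [hsum]
  refine (Finset.sum_le_sum hfib).trans ?_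
  rw [Finset.sum_const, nsmul_eq_mul]
  exact mul_le_mul_of_nonneg_right hI hnn

private theorem Quad_both {q r : ℕ} (hq : 1 ≤ q) (hr : 1 ≤ r) {A B θ : ℝ} (hA : 1 ≤ A) (hB : 1 ≤ B)
    (hθ : 0 ≤ θ) (H : Finset ((ℕ × ℕ) × (ℕ × ℕ)))
    (hH : ∀ s ∈ H, Nat.Coprime s.1.1 s.1.2 ∧ 1 ≤ s.1.1 ∧ 1 ≤ s.1.2 ∧ (s.1.1 : ℝ) ≤ A ∧
      (s.1.2 : ℝ) ≤ A ∧ s.1.2 ≤ 2 * s.1.1 ∧ Nat.Coprime s.2.1 s.2.2 ∧ 1 ≤ s.2.1 ∧ 1 ≤ s.2.2 ∧
      (s.2.1 : ℝ) ≤ B ∧ (s.2.2 : ℝ) ≤ B ∧ s.2.2 ≤ 2 * s.2.1 ∧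
      |((s.1.1 : ℝ) / s.1.2) ^ q - ((s.2.1 : ℝ) / s.2.2) ^ r| ≤ θ) :
    (H.card : ℝ) ≤ A * B + (2 ^ (q + 1) + 2 ^ (r + 1)) * θ * (A ^ 2 * B ^ 2) := by
  classical
  have h1 : (H.card : ℝ) ≤ B ^ 2 * (1 + 2 ^ (q + 1) * θ * A ^ 2) := by
    refine Quad_half (r := r) hq hA hB hθ H ?_
    intro s hs
    obtain ⟨h1, h2, h3, h4, h5, h6, h7, h8, h9, h10, h11, h12, h13⟩ := hH s hs
    exact ⟨h1, h2, h3, h4, h5, h6, h8, h9, h10, h11, h13⟩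
  have h2 : (H.card : ℝ) ≤ A ^ 2 * (1 + 2 ^ (r + 1) * θ * B ^ 2) := by
    have hc : (H.image Prod.swap).card = H.card :=
      Finset.card_image_of_injective H Prod.swap_injective
    rw [← hc]
    refine Quad_half (r := q) hr hB hA hθ (H.image Prod.swap) ?_
    intro s hs
    obtain ⟨t, ht, rfl⟩ := Finset.mem_image.mp hs
    obtain ⟨h1, h2, h3, h4, h5, h6, h7, h8, h9, h10, h11, h12, h13⟩ := hH t ht
    rw [abs_sub_comm] at h13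
    exact ⟨h7, h8, h9, h10, h11, h12, h2, h3, h4, h5, h13⟩
  have hK : (0 : ℝ) ≤ θ * (A ^ 2 * B ^ 2) := by positivity
  have hq2 : (0 : ℝ) ≤ 2 ^ (q + 1) * (θ * (A ^ 2 * B ^ 2)) := by positivity
  have hr2 : (0 : ℝ) ≤ 2 ^ (r + 1) * (θ * (A ^ 2 * B ^ 2)) := by positivity
  rcases le_total B A with h | h
  · have h3 : B ^ 2 ≤ A * B := by nlinarith
    nlinarith
  · have h3 : A ^ 2 ≤ A * B := by nlinarith
    nlinarith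

private theorem Quad_fix {q r : ℕ} (hq : 1 ≤ q) (hr : 1 ≤ r) (Y Z : ℕ) {θ : ℝ} (hθ : 0 ≤ θ)
    (F : Finset ((ℕ × ℕ) × (ℕ × ℕ)))
    (hF : ∀ s ∈ F, Y < s.1.1 ∧ s.1.1 ≤ 2 * Y ∧ Y < s.1.2 ∧ s.1.2 ≤ 2 * Y ∧
      Z < s.2.1 ∧ s.2.1 ≤ 2 * Z ∧ Z < s.2.2 ∧ s.2.2 ≤ 2 * Z ∧
      |((s.1.1 : ℝ) / s.1.2) ^ q - ((s.2.1 : ℝ) / s.2.2) ^ r| ≤ θ)
    (g h : ℕ) (hg : 1 ≤ g) (hh : 1 ≤ h) (hgY : g ≤ 2 * Y) (hhZ : h ≤ 2 * Z) :
    ((F.filter (fun s => Nat.gcd s.1.1 s.1.2 = g ∧ Nat.gcd s.2.1 s.2.2 = h)).card : ℝ) ≤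
      (2 * Y / g) * (2 * Z / h) +
        (2 ^ (q + 1) + 2 ^ (r + 1)) * θ * ((2 * Y / g : ℝ) ^ 2 * (2 * Z / h : ℝ) ^ 2) := by
  classical
  have hg0 : (0 : ℝ) < g := by exact_mod_cast hg
  have hh0 : (0 : ℝ) < h := by exact_mod_cast hh
  set G := F.filter (fun s => Nat.gcd s.1.1 s.1.2 = g ∧ Nat.gcd s.2.1 s.2.2 = h) with hG
  let φ : ((ℕ × ℕ) × (ℕ × ℕ)) → ((ℕ × ℕ) × (ℕ × ℕ)) :=
    fun s => ((s.1.1 / g, s.1.2 / g), (s.2.1 / h, s.2.2 / h))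
  have hdiv : ∀ s ∈ G, ∃ a b c d : ℕ, s = ((g * a, g * b), (h * c, h * d)) ∧
      Nat.Coprime a b ∧ Nat.Coprime c d ∧ φ s = ((a, b), (c, d)) := by
    intro s hs
    obtain ⟨-, hs2, hs3⟩ := Finset.mem_filter.mp hs
    obtain ⟨a, ha⟩ : g ∣ s.1.1 := hs2 ▸ Nat.gcd_dvd_left _ _
    obtain ⟨b, hb⟩ : g ∣ s.1.2 := hs2 ▸ Nat.gcd_dvd_right _ _
    obtain ⟨c, hc⟩ : h ∣ s.2.1 := hs3 ▸ Nat.gcd_dvd_left _ _
    obtain ⟨d, hd⟩ : h ∣ s.2.2 := hs3 ▸ Nat.gcd_dvd_right _ _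
    refine ⟨a, b, c, d, ?_, ?_, ?_, ?_⟩
    · exact Prod.ext (Prod.ext ha hb) (Prod.ext hc hd)
    · rw [ha, hb, Nat.gcd_mul_left] at hs2
      exact Nat.eq_of_mul_eq_mul_left hg (by rw [hs2, mul_one])
    · rw [hc, hd, Nat.gcd_mul_left] at hs3
      exact Nat.eq_of_mul_eq_mul_left hh (by rw [hs3, mul_one])
    · show ((s.1.1 / g, s.1.2 / g), (s.2.1 / h, s.2.2 / h)) = ((a, b), (c, d))
      rw [ha, hb, hc, hd, Nat.mul_div_cancel_left a hg, Nat.mul_div_cancel_left b hg,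
        Nat.mul_div_cancel_left c hh, Nat.mul_div_cancel_left d hh]
  have hinj : Set.InjOn φ (↑G : Set ((ℕ × ℕ) × (ℕ × ℕ))) := by
    intro s hs t ht he
    obtain ⟨a, b, c, d, h1, -, -, h2⟩ := hdiv s (Finset.mem_coe.mp hs)
    obtain ⟨a', b', c', d', h1', -, -, h2'⟩ := hdiv t (Finset.mem_coe.mp ht)
    rw [h2, h2'] at he
    simp only [Prod.mk.injEq] at he
    obtain ⟨⟨e1, e2⟩, e3, e4⟩ := he
    rw [h1, h1', e1, e2, e3, e4]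
  rw [← Finset.card_image_of_injOn hinj]
  have hA : (1 : ℝ) ≤ 2 * Y / g := by
    rw [le_div_iff₀ hg0, one_mul]
    exact_mod_cast hgY
  have hB : (1 : ℝ) ≤ 2 * Z / h := by
    rw [le_div_iff₀ hh0, one_mul]
    exact_mod_cast hhZ
  refine Quad_both hq hr hA hB hθ _ ?_
  intro u hu
  obtain ⟨s, hs, rfl⟩ := Finset.mem_image.mp hu
  obtain ⟨a, b, c, d, h1, h2, h3, h4⟩ := hdiv s hs
  obtain ⟨k1, k2, k3, k4, k5, k6, k7, k8, k9⟩ := hF s (Finset.mem_filter.mp hs).1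
  rw [h4]
  subst h1
  simp only at k1 k2 k3 k4 k5 k6 k7 k8 k9 ⊢
  have ha : 1 ≤ a := by
    rcases Nat.eq_zero_or_pos a with h | h
    · subst h
      omega
    · exact h
  have hb : 1 ≤ b := by
    rcases Nat.eq_zero_or_pos b with h | h
    · subst h
      omega
    · exact h
  have hc : 1 ≤ c := by
    rcases Nat.eq_zero_or_pos c with h | h
    · subst h
      omega
    · exact h
  have hd : 1 ≤ d := by
    rcases Nat.eq_zero_or_pos d with h | h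
    · subst h
      omega
    · exact h
  have e1 : (a : ℝ) ≤ 2 * Y / g := by
    rw [le_div_iff₀ hg0]
    have : g * a ≤ 2 * Y := k2
    calc (a : ℝ) * g = ((g * a : ℕ) : ℝ) := by push_cast; ring
      _ ≤ ((2 * Y : ℕ) : ℝ) := by exact_mod_cast this
      _ = 2 * Y := by push_cast; ring
  have e2 : (b : ℝ) ≤ 2 * Y / g := by
    rw [le_div_iff₀ hg0]
    have : g * b ≤ 2 * Y := k4
    calc (b : ℝ) * g = ((g * b : ℕ) : ℝ) := by push_cast; ring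
      _ ≤ ((2 * Y : ℕ) : ℝ) := by exact_mod_cast this
      _ = 2 * Y := by push_cast; ring
  have e3 : (c : ℝ) ≤ 2 * Z / h := by
    rw [le_div_iff₀ hh0]
    have : h * c ≤ 2 * Z := k6
    calc (c : ℝ) * h = ((h * c : ℕ) : ℝ) := by push_cast; ring
      _ ≤ ((2 * Z : ℕ) : ℝ) := by exact_mod_cast this
      _ = 2 * Z := by push_cast; ring
  have e4 : (d : ℝ) ≤ 2 * Z / h := by
    rw [le_div_iff₀ hh0]
    have : h * d ≤ 2 * Z := k8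
    calc (d : ℝ) * h = ((h * d : ℕ) : ℝ) := by push_cast; ring
      _ ≤ ((2 * Z : ℕ) : ℝ) := by exact_mod_cast this
      _ = 2 * Z := by push_cast; ring
  have e5 : b ≤ 2 * a := by
    have : g * b ≤ g * (2 * a) := by
      calc g * b ≤ 2 * Y := k4
        _ ≤ 2 * (g * a) := by omega
        _ = g * (2 * a) := by ring
    exact Nat.le_of_mul_le_mul_left this hg
  have e6 : d ≤ 2 * c := by
    have : h * d ≤ h * (2 * c) := by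
      calc h * d ≤ 2 * Z := k8
        _ ≤ 2 * (h * c) := by omega
        _ = h * (2 * c) := by ring
    exact Nat.le_of_mul_le_mul_left this hh
  have e7 : (((g * a : ℕ) : ℝ) / ((g * b : ℕ) : ℝ)) = (a : ℝ) / b := by
    push_cast
    exact mul_div_mul_left _ _ hg0.ne'
  have e8 : (((h * c : ℕ) : ℝ) / ((h * d : ℕ) : ℝ)) = (c : ℝ) / d := by
    push_cast
    exact mul_div_mul_left _ _ hh0.ne'
  rw [e7, e8] at k9
  exact ⟨h2, ha, hb, e1, e2, e5, h3, hc, hd, e3, e4, e6, k9⟩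

theorem quad_count {q r : ℕ} (hq : 1 ≤ q) (hr : 1 ≤ r) : ∃ C : ℝ, 0 < C ∧
    ∀ (Y Z : ℕ) (θ : ℝ), 1 ≤ Y → 1 ≤ Z → 0 ≤ θ → ∀ F : Finset ((ℕ × ℕ) × (ℕ × ℕ)),
    (∀ s ∈ F, Y < s.1.1 ∧ s.1.1 ≤ 2 * Y ∧ Y < s.1.2 ∧ s.1.2 ≤ 2 * Y ∧
      Z < s.2.1 ∧ s.2.1 ≤ 2 * Z ∧ Z < s.2.2 ∧ s.2.2 ≤ 2 * Z ∧
      |((s.1.1 : ℝ) / s.1.2) ^ q - ((s.2.1 : ℝ) / s.2.2) ^ r| ≤ θ) →
    (F.card : ℝ) ≤ C * ((1 + Real.log Y) * (1 + Real.log Z) * (Y * Z) + θ * (Y * Z) ^ 2) := by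
  classical
  set K : ℝ := 2 ^ (q + 1) + 2 ^ (r + 1) with hK
  have hK0 : 0 < K := by positivity
  refine ⟨16 + 64 * K, by positivity, ?_⟩
  intro Y Z θ hY hZ hθ F hF
  have hY0 : (0 : ℝ) < Y := by exact_mod_cast hY
  have hZ0 : (0 : ℝ) < Z := by exact_mod_cast hZ
  have hlY : 0 ≤ Real.log Y := Real.log_nonneg (by exact_mod_cast hY)
  have hlZ : 0 ≤ Real.log Z := Real.log_nonneg (by exact_mod_cast hZ)
  -- the partition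
  have hmaps : ∀ s ∈ F, (Nat.gcd s.1.1 s.1.2, Nat.gcd s.2.1 s.2.2) ∈
      Finset.Icc 1 (2 * Y) ×ˢ Finset.Icc 1 (2 * Z) := by
    intro s hs
    obtain ⟨k1, k2, k3, k4, k5, k6, k7, k8, -⟩ := hF s hs
    rw [Finset.mem_product, Finset.mem_Icc, Finset.mem_Icc]
    refine ⟨⟨?_, ?_⟩, ⟨?_, ?_⟩⟩
    · exact Nat.gcd_pos_of_pos_left _ (by omega)
    · exact (Nat.gcd_le_left _ (by omega)).trans k2
    · exact Nat.gcd_pos_of_pos_left _ (by omega)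
    · exact (Nat.gcd_le_left _ (by omega)).trans k6
  have hcard := Finset.card_eq_sum_card_fiberwise hmaps
  have hfil : ∀ t ∈ Finset.Icc 1 (2 * Y) ×ˢ Finset.Icc 1 (2 * Z),
      ((F.filter (fun s => (Nat.gcd s.1.1 s.1.2, Nat.gcd s.2.1 s.2.2) = t)).card : ℝ) ≤
      (4 * (Y * Z)) * ((1 / (t.1 : ℝ)) * (1 / (t.2 : ℝ))) +
        (16 * K * θ * (Y * Z) ^ 2) * ((1 / (t.1 : ℝ) ^ 2) * (1 / (t.2 : ℝ) ^ 2)) := by
    rintro ⟨g, h⟩ ht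
    rw [Finset.mem_product, Finset.mem_Icc, Finset.mem_Icc] at ht
    obtain ⟨⟨h1, h2⟩, ⟨h3, h4⟩⟩ := ht
    have hg0 : (0 : ℝ) < g := by exact_mod_cast h1
    have hh0 : (0 : ℝ) < h := by exact_mod_cast h3
    have h5 := Quad_fix hq hr Y Z hθ F hF g h h1 h3 h2 h4
    have h6 : F.filter (fun s => (Nat.gcd s.1.1 s.1.2, Nat.gcd s.2.1 s.2.2) = (g, h)) =
        F.filter (fun s => Nat.gcd s.1.1 s.1.2 = g ∧ Nat.gcd s.2.1 s.2.2 = h) := by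
      refine Finset.filter_congr fun s _ => ?_
      rw [Prod.mk.injEq]
    rw [h6]
    refine h5.trans (le_of_eq ?_)
    rw [← hK]
    field_simp
    ring
  have hsum1 : ∑ t ∈ Finset.Icc 1 (2 * Y) ×ˢ Finset.Icc 1 (2 * Z),
      ((1 / (t.1 : ℝ)) * (1 / (t.2 : ℝ))) =
      (∑ g ∈ Finset.Icc 1 (2 * Y), (1 : ℝ) / g) * (∑ h ∈ Finset.Icc 1 (2 * Z), (1 : ℝ) / h) := by
    rw [Finset.sum_product, Finset.sum_mul_sum]
  have hsum2 : ∑ t ∈ Finset.Icc 1 (2 * Y) ×ˢ Finset.Icc 1 (2 * Z),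
      ((1 / (t.1 : ℝ) ^ 2) * (1 / (t.2 : ℝ) ^ 2)) =
      (∑ g ∈ Finset.Icc 1 (2 * Y), (1 : ℝ) / (g : ℝ) ^ 2) *
        (∑ h ∈ Finset.Icc 1 (2 * Z), (1 : ℝ) / (h : ℝ) ^ 2) := by
    rw [Finset.sum_product, Finset.sum_mul_sum]
  have b1 := Quad_harm Y hY
  have b2 := Quad_harm Z hZ
  have b3 := Quad_sq (2 * Y)
  have b4 := Quad_sq (2 * Z)
  have p1 : (0 : ℝ) ≤ ∑ h ∈ Finset.Icc 1 (2 * Z), (1 : ℝ) / h :=
    Finset.sum_nonneg fun _ _ => by positivity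
  have p2 : (0 : ℝ) ≤ ∑ h ∈ Finset.Icc 1 (2 * Z), (1 : ℝ) / (h : ℝ) ^ 2 :=
    Finset.sum_nonneg fun _ _ => by positivity
  have c1 : (∑ g ∈ Finset.Icc 1 (2 * Y), (1 : ℝ) / g) * (∑ h ∈ Finset.Icc 1 (2 * Z), (1 : ℝ) / h) ≤
      (2 * (1 + Real.log Y)) * (2 * (1 + Real.log Z)) :=
    mul_le_mul b1 b2 p1 (by positivity)
  have c2 : (∑ g ∈ Finset.Icc 1 (2 * Y), (1 : ℝ) / (g : ℝ) ^ 2) *
      (∑ h ∈ Finset.Icc 1 (2 * Z), (1 : ℝ) / (h : ℝ) ^ 2) ≤ 2 * 2 :=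
    mul_le_mul b3 b4 p2 (by norm_num)
  have hcard' : (F.card : ℝ) = ∑ t ∈ Finset.Icc 1 (2 * Y) ×ˢ Finset.Icc 1 (2 * Z),
      ((F.filter (fun s => (Nat.gcd s.1.1 s.1.2, Nat.gcd s.2.1 s.2.2) = t)).card : ℝ) := by
    rw [hcard]
    push_cast
    rfl
  rw [hcard']
  refine (Finset.sum_le_sum hfil).trans ?_
  rw [Finset.sum_add_distrib, ← Finset.mul_sum, ← Finset.mul_sum, hsum1, hsum2]
  have d1 : (4 * ((Y : ℝ) * Z)) * ((∑ g ∈ Finset.Icc 1 (2 * Y), (1 : ℝ) / g) *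
      (∑ h ∈ Finset.Icc 1 (2 * Z), (1 : ℝ) / h)) ≤
      (4 * ((Y : ℝ) * Z)) * ((2 * (1 + Real.log Y)) * (2 * (1 + Real.log Z))) :=
    mul_le_mul_of_nonneg_left c1 (by positivity)
  have d2 : (16 * K * θ * ((Y : ℝ) * Z) ^ 2) * ((∑ g ∈ Finset.Icc 1 (2 * Y), (1 : ℝ) / (g : ℝ) ^ 2) *
      (∑ h ∈ Finset.Icc 1 (2 * Z), (1 : ℝ) / (h : ℝ) ^ 2)) ≤
      (16 * K * θ * ((Y : ℝ) * Z) ^ 2) * (2 * 2) :=
    mul_le_mul_of_nonneg_left c2 (by positivity)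
  have e1 : 0 ≤ (1 + Real.log Y) * (1 + Real.log Z) * (Y * Z) := by positivity
  have e2 : 0 ≤ θ * ((Y : ℝ) * Z) ^ 2 := by positivity
  have e3 : 0 ≤ K * ((1 + Real.log Y) * (1 + Real.log Z) * (Y * Z)) := by positivity
  nlinarith [d1, d2, e1, e2, e3]

end MAbc
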