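import Pool.Agent.MAbc.Quad

/-!
# MAbc.QuadSum: weighted sum over the quadruples

PROOF. The difference `d = |(y/y')^q - (z/z')^r|` is at most `2^q + 2^r`. Let `J` be the least natural number with
`2^q + 2^r ≤ 2^J τ`, so that `J ≤ 1 + log ((2^q + 2^r) / τ) / log 2`. If `d ≤ 2 τ` then `wt τ d ≤ 1`, and if
`2^j τ < d ≤ 2^(j+1) τ` then `wt τ d = τ / d ≤ 2^(-j)`. Hence
`wt τ d ≤ ∑_{j ≤ J} 2^(-j) [d ≤ 2^(j+1) τ]` and by `quad_count` with `θ = 2^(j+1) τ` the sum is at most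
`∑_{j ≤ J} 2^(-j) C (L (Y Z) + 2^(j+1) τ (Y Z)^2) ≤ 2 C L (Y Z) + 2 C (J + 1) τ (Y Z)^2`,
`L = (1 + log Y)(1 + log Z)`.
-/

namespace MAbc

private theorem quad_sum_wt {τ d D : ℝ} {J : ℕ} (hτ : 0 < τ) (hD : d ≤ D)
    (hJ : max 1 (D / τ) ≤ 2 ^ J) :
    wt τ d ≤ ∑ j ∈ Finset.range (J + 1), if d ≤ 2 ^ (j + 1) * τ then ((2 : ℝ) ^ j)⁻¹ else 0 := by
  obtain ⟨n, hn1, hn2⟩ := exists_nat_pow_near (x := max 1 (d / τ)) (y := (2 : ℝ))
    (le_max_left _ _) one_lt_two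
  have h1 : n ≤ J := by
    by_contra h
    push Not at h
    have h2 : (2 : ℝ) ^ J < 2 ^ n := pow_lt_pow_right₀ one_lt_two h
    have h3 : max 1 (d / τ) ≤ max 1 (D / τ) := max_le_max le_rfl (by gcongr)
    linarith
  have h4 : d ≤ 2 ^ (n + 1) * τ := by
    have h5 : d / τ ≤ 2 ^ (n + 1) := (le_max_right _ _).trans hn2.le
    rwa [div_le_iff₀ hτ] at h5
  have h6 : wt τ d ≤ ((2 : ℝ) ^ n)⁻¹ := by
    unfold wt
    exact inv_anti₀ (by positivity) hn1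
  refine h6.trans ?_
  have h7 := Finset.single_le_sum
    (f := fun j => if d ≤ 2 ^ (j + 1) * τ then ((2 : ℝ) ^ j)⁻¹ else 0)
    (s := Finset.range (J + 1)) (fun j _ => by
      split_ifs
      · positivity
      · exact le_rfl) (Finset.mem_range.2 (Nat.lt_succ_of_le h1))
  simp only [h4, if_true] at h7
  exact h7

private theorem quad_sum_geom (J : ℕ) : ∑ j ∈ Finset.range J, ((2 : ℝ) ^ j)⁻¹ ≤ 2 := by
  have h : ∀ J : ℕ, ∑ j ∈ Finset.range J, ((2 : ℝ) ^ j)⁻¹ = 2 - 2 * ((2 : ℝ) ^ J)⁻¹ := by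
    intro J
    induction J with
    | zero => norm_num
    | succ J ih =>
      rw [Finset.sum_range_succ, ih, pow_succ, mul_inv]
      ring
  rw [h J]
  have : (0 : ℝ) < ((2 : ℝ) ^ J)⁻¹ := by positivity
  linarith

private theorem quad_sum_frac {Y y y' : ℕ} (q : ℕ) (hy : y ≤ 2 * Y) (hy' : Y < y') :
    0 ≤ ((y : ℝ) / y') ^ q ∧ ((y : ℝ) / y') ^ q ≤ 2 ^ q := by
  have h0 : (0 : ℝ) < y' := by
    have : 0 < y' := by omega
    exact_mod_cast this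
  refine ⟨by positivity, ?_⟩
  refine pow_le_pow_left₀ (by positivity) ?_ q
  rw [div_le_iff₀ h0]
  have : y ≤ 2 * y' := by omega
  exact_mod_cast this

theorem quad_sum {q r : ℕ} (hq : 1 ≤ q) (hr : 1 ≤ r) : ∃ C : ℝ, 0 < C ∧
    ∀ (Y Z : ℕ) (τ : ℝ), 1 ≤ Y → 1 ≤ Z → 0 < τ → τ ≤ 1 →
    ∑ s ∈ (Finset.Ioc Y (2 * Y) ×ˢ Finset.Ioc Y (2 * Y)) ×ˢ (Finset.Ioc Z (2 * Z) ×ˢ Finset.Ioc Z (2 * Z)),
      wt τ |((s.1.1 : ℝ) / s.1.2) ^ q - ((s.2.1 : ℝ) / s.2.2) ^ r| ≤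
    C * ((1 + Real.log Y) * (1 + Real.log Z) * (Y * Z) + τ * (1 + Real.log (1 / τ)) * (Y * Z) ^ 2) := by
  classical
  obtain ⟨C, hC, hmain⟩ := quad_count hq hr
  set D : ℝ := 2 ^ q + 2 ^ r with hDdef
  have hD1 : 1 ≤ D := by
    have h1 : (1 : ℝ) ≤ 2 ^ q := one_le_pow₀ one_le_two
    have h2 : (0 : ℝ) < 2 ^ r := by positivity
    linarith
  have hl2 : 0 < Real.log 2 := Real.log_pos one_lt_two
  have hlD : 0 ≤ Real.log D := Real.log_nonneg hD1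
  set K : ℝ := 2 + Real.log D / Real.log 2 + 1 / Real.log 2 with hK
  have hK0 : 0 < K := by positivity
  refine ⟨2 * C * (1 + K), by positivity, ?_⟩
  intro Y Z τ hY hZ hτ hτ1
  have hlτ : 0 ≤ Real.log (1 / τ) := Real.log_nonneg (by rw [le_div_iff₀ hτ]; linarith)
  have hY1 : (1 : ℝ) ≤ Y := by exact_mod_cast hY
  have hZ1 : (1 : ℝ) ≤ Z := by exact_mod_cast hZ
  have hlY : 0 ≤ Real.log Y := Real.log_nonneg hY1
  have hlZ : 0 ≤ Real.log Z := Real.log_nonneg hZ1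
  have hDτ : 1 ≤ D / τ := by rw [le_div_iff₀ hτ]; linarith
  set J : ℕ := ⌈Real.logb 2 (D / τ)⌉₊ with hJdef
  have hlogb : 0 ≤ Real.logb 2 (D / τ) := Real.logb_nonneg one_lt_two hDτ
  have hJ1 : Real.logb 2 (D / τ) ≤ J := Nat.le_ceil _
  have hJ2 : (J : ℝ) < Real.logb 2 (D / τ) + 1 := Nat.ceil_lt_add_one hlogb
  have hJ : max 1 (D / τ) ≤ 2 ^ J := by
    rw [max_eq_right hDτ]
    have h := (Real.logb_le_iff_le_rpow one_lt_two (by positivity)).1 hJ1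
    rwa [Real.rpow_natCast] at h
  have hJ3 : (J : ℝ) + 1 ≤ K * (1 + Real.log (1 / τ)) := by
    have h1 : Real.logb 2 (D / τ) = Real.log D / Real.log 2 + Real.log (1 / τ) / Real.log 2 := by
      rw [Real.logb, div_eq_mul_one_div D τ, Real.log_mul (by positivity) (by positivity)]
      ring
    have h2 : K * (1 + Real.log (1 / τ)) = K + 2 * Real.log (1 / τ) +
        Real.log D / Real.log 2 * Real.log (1 / τ) + Real.log (1 / τ) / Real.log 2 := by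
      rw [hK]
      ring
    have h3 : 0 ≤ Real.log D / Real.log 2 * Real.log (1 / τ) := by positivity
    have h4 : 0 < 1 / Real.log 2 := by positivity
    rw [h2, hK]
    rw [h1] at hJ2
    linarith
  set S := (Finset.Ioc Y (2 * Y) ×ˢ Finset.Ioc Y (2 * Y)) ×ˢ
    (Finset.Ioc Z (2 * Z) ×ˢ Finset.Ioc Z (2 * Z)) with hS
  set A : ℝ := (1 + Real.log Y) * (1 + Real.log Z) * (Y * Z) with hA
  set B : ℝ := ((Y : ℝ) * Z) ^ 2 with hB
  have hA0 : 0 ≤ A := by positivity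
  have hB0 : 0 ≤ B := by positivity
  have hcard : ∀ θ : ℝ, 0 ≤ θ →
      ((S.filter fun s : (ℕ × ℕ) × (ℕ × ℕ) =>
        |((s.1.1 : ℝ) / s.1.2) ^ q - ((s.2.1 : ℝ) / s.2.2) ^ r| ≤ θ).card : ℝ) ≤
      C * (A + θ * B) := by
    intro θ hθ
    refine hmain Y Z θ hY hZ hθ _ ?_
    intro s hs
    rw [Finset.mem_filter, hS] at hs
    simp only [Finset.mem_product, Finset.mem_Ioc] at hs
    obtain ⟨⟨⟨⟨h1, h2⟩, h3, h4⟩, ⟨h5, h6⟩, h7, h8⟩, h9⟩ := hs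
    exact ⟨h1, h2, h3, h4, h5, h6, h7, h8, h9⟩
  have hpt : ∀ s ∈ S, wt τ |((s.1.1 : ℝ) / s.1.2) ^ q - ((s.2.1 : ℝ) / s.2.2) ^ r| ≤
      ∑ j ∈ Finset.range (J + 1),
        if |((s.1.1 : ℝ) / s.1.2) ^ q - ((s.2.1 : ℝ) / s.2.2) ^ r| ≤ 2 ^ (j + 1) * τ
          then ((2 : ℝ) ^ j)⁻¹ else 0 := by
    intro s hs
    rw [hS] at hs
    simp only [Finset.mem_product, Finset.mem_Ioc] at hs
    obtain ⟨⟨⟨h1, h2⟩, h3, h4⟩, ⟨h5, h6⟩, h7, h8⟩ := hs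
    refine quad_sum_wt hτ ?_ hJ
    have h9 := quad_sum_frac q h2 h3
    have h10 := quad_sum_frac r h6 h7
    rw [abs_le]
    constructor
    · rw [hDdef]
      linarith [h9.1, h9.2, h10.1, h10.2]
    · rw [hDdef]
      linarith [h9.1, h9.2, h10.1, h10.2]
  have hterm : ∀ j ∈ Finset.range (J + 1),
      (∑ s ∈ S, if |((s.1.1 : ℝ) / s.1.2) ^ q - ((s.2.1 : ℝ) / s.2.2) ^ r| ≤ 2 ^ (j + 1) * τ
          then ((2 : ℝ) ^ j)⁻¹ else 0) ≤ C * A * ((2 : ℝ) ^ j)⁻¹ + 2 * C * τ * B := by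
    intro j _
    rw [← Finset.sum_filter, Finset.sum_const, nsmul_eq_mul]
    have h1 := hcard (2 ^ (j + 1) * τ) (by positivity)
    have h2 : (0 : ℝ) < ((2 : ℝ) ^ j)⁻¹ := by positivity
    have h3 := mul_le_mul_of_nonneg_right h1 h2.le
    refine h3.trans (le_of_eq ?_)
    have h4 : (2 : ℝ) ^ j * ((2 : ℝ) ^ j)⁻¹ = 1 := mul_inv_cancel₀ (by positivity)
    calc C * (A + 2 ^ (j + 1) * τ * B) * ((2 : ℝ) ^ j)⁻¹
        = C * A * ((2 : ℝ) ^ j)⁻¹ + 2 * C * τ * B * ((2 : ℝ) ^ j * ((2 : ℝ) ^ j)⁻¹) := by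
          rw [pow_succ]
          ring
      _ = _ := by rw [h4, mul_one]
  calc ∑ s ∈ S, wt τ |((s.1.1 : ℝ) / s.1.2) ^ q - ((s.2.1 : ℝ) / s.2.2) ^ r|
      ≤ ∑ s ∈ S, ∑ j ∈ Finset.range (J + 1),
        (if |((s.1.1 : ℝ) / s.1.2) ^ q - ((s.2.1 : ℝ) / s.2.2) ^ r| ≤ 2 ^ (j + 1) * τ
          then ((2 : ℝ) ^ j)⁻¹ else 0) := Finset.sum_le_sum hpt
    _ = ∑ j ∈ Finset.range (J + 1), ∑ s ∈ S,
        (if |((s.1.1 : ℝ) / s.1.2) ^ q - ((s.2.1 : ℝ) / s.2.2) ^ r| ≤ 2 ^ (j + 1) * τ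
          then ((2 : ℝ) ^ j)⁻¹ else 0) := Finset.sum_comm
    _ ≤ ∑ j ∈ Finset.range (J + 1), (C * A * ((2 : ℝ) ^ j)⁻¹ + 2 * C * τ * B) :=
        Finset.sum_le_sum hterm
    _ = C * A * ∑ j ∈ Finset.range (J + 1), ((2 : ℝ) ^ j)⁻¹ + ((J : ℝ) + 1) * (2 * C * τ * B) := by
        rw [Finset.sum_add_distrib, ← Finset.mul_sum, Finset.sum_const, Finset.card_range,
          nsmul_eq_mul]
        push_cast
        ring
    _ ≤ C * A * 2 + K * (1 + Real.log (1 / τ)) * (2 * C * τ * B) := by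
        have h1 := quad_sum_geom (J + 1)
        have h2 : 0 ≤ C * A := by positivity
        have h3 : 0 ≤ 2 * C * τ * B := by positivity
        have h4 := mul_le_mul_of_nonneg_left h1 h2
        have h5 := mul_le_mul_of_nonneg_right hJ3 h3
        linarith
    _ ≤ 2 * C * (1 + K) * (A + τ * (1 + Real.log (1 / τ)) * B) := by
        have h1 : 0 ≤ C * K * A := by positivity
        have h2 : 0 ≤ C * τ * (1 + Real.log (1 / τ)) * B := by positivity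
        nlinarith [h1, h2]

end MAbc
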