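import Pool.Agent.MAbc.Basic

/-!
# MAbc.Sep: separated points in an interval

PROOF. The map `s ↦ ⌊(f s - (u - L)) / κ⌋` is injective on `F` for points which are at least `κ` apart
(if `⌊x⌋ = ⌊y⌋` then `|x - y| < 1`) and its values lie in `{0, ..., ⌊2 L / κ⌋}`.
-/

namespace MAbc

theorem card_le_of_sep {ι : Type*} (F : Finset ι) (f : ι → ℝ) {κ L u : ℝ} (hκ : 0 < κ) (hL : 0 ≤ L)
    (hsep : ∀ s ∈ F, ∀ t ∈ F, s ≠ t → κ ≤ |f s - f t|) (h : ∀ s ∈ F, |f s - u| ≤ L) :
    (F.card : ℝ) ≤ 1 + 2 * L / κ := by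
  classical
  have hinj : Set.InjOn (fun s => ⌊(f s - (u - L)) / κ⌋₊) (F : Set ι) := by
    intro s hs t ht hst
    by_contra hne
    have h1 := hsep s hs t ht hne
    have hs' := abs_le.1 (h s hs)
    have ht' := abs_le.1 (h t ht)
    have a1 : 0 ≤ (f s - (u - L)) / κ := div_nonneg (by linarith) hκ.le
    have a2 : 0 ≤ (f t - (u - L)) / κ := div_nonneg (by linarith) hκ.le
    have b1 := Nat.floor_le a1
    have b2 := Nat.floor_le a2
    have c1 := Nat.lt_floor_add_one ((f s - (u - L)) / κ)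
    have c2 := Nat.lt_floor_add_one ((f t - (u - L)) / κ)
    have hst' : ⌊(f s - (u - L)) / κ⌋₊ = ⌊(f t - (u - L)) / κ⌋₊ := hst
    rw [hst'] at b1 c1
    have d1 : |(f s - (u - L)) / κ - (f t - (u - L)) / κ| < 1 := by
      rw [abs_lt]
      constructor <;> linarith
    have d2 : (f s - (u - L)) / κ - (f t - (u - L)) / κ = (f s - f t) / κ := by
      rw [← sub_div]
      congr 1
      ring
    rw [d2, abs_div, abs_of_pos hκ, div_lt_one hκ] at d1
    linarith
  have hmap : ∀ s ∈ F, (fun s => ⌊(f s - (u - L)) / κ⌋₊) s ∈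
      Finset.range (⌊2 * L / κ⌋₊ + 1) := by
    intro s hs
    have hs' := abs_le.1 (h s hs)
    rw [Finset.mem_range]
    refine Nat.lt_succ_of_le (Nat.floor_le_floor ?_)
    exact div_le_div_of_nonneg_right (by linarith) hκ.le
  have h1 := Finset.card_le_card_of_injOn _ hmap hinj
  rw [Finset.card_range] at h1
  have h2 : (F.card : ℝ) ≤ (⌊2 * L / κ⌋₊ : ℝ) + 1 := by exact_mod_cast h1
  have h3 := Nat.floor_le (div_nonneg (by linarith : 0 ≤ 2 * L) hκ.le)
  linarith

end MAbc
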