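import Pool.Agent.MAbc.Core
import Pool.Agent.MAbc.Evt
import Pool.Agent.MAbc.Dens

/-!
# MAbc.Sharp: the exponent is attained for almost all positive multipliers
-/

namespace MAbc

open MeasureTheory Filter

/-- the size of `(x^p, y^q, z^r)` -/
noncomputable def mxN (p q r : ℕ) (t : ℕ × ℕ × ℕ) : ℝ := max ((t.1 : ℝ) ^ p) (max ((t.2.1 : ℝ) ^ q) ((t.2.2 : ℝ) ^ r))

/-- the triples of positive integers with `|x^p + v.1 y^q - v.2 z^r| < max (x^p, y^q, z^r)^e` -/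
def Near (p q r : ℕ) (e : ℝ) (v : ℝ × ℝ) : Set (ℕ × ℕ × ℕ) :=
  {t | 0 < t.1 ∧ 0 < t.2.1 ∧ 0 < t.2.2 ∧
    |(t.1 : ℝ) ^ p + v.1 * (t.2.1 : ℝ) ^ q - v.2 * (t.2.2 : ℝ) ^ r| < mxN p q r t ^ e}

/-- the multipliers with a near solution with `y ≥ n` -/
def EE (p q r : ℕ) (e : ℝ) (n : ℕ) : Set (ℝ × ℝ) := {v | ∃ t ∈ Near p q r e v, n ≤ t.2.1}

theorem measurable_EE (p q r : ℕ) (e : ℝ) (n : ℕ) : MeasurableSet (EE p q r e n) := by
  have h : EE p q r e n = ⋃ t : ℕ × ℕ × ℕ, {v | (0 < t.1 ∧ 0 < t.2.1 ∧ 0 < t.2.2 ∧ n ≤ t.2.1) ∧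
      |(t.1 : ℝ) ^ p + v.1 * (t.2.1 : ℝ) ^ q - v.2 * (t.2.2 : ℝ) ^ r| < mxN p q r t ^ e} := by
    ext v
    simp only [EE, Near, Set.mem_ofPred_eq, Set.mem_iUnion]
    constructor
    · rintro ⟨t, ⟨h1, h2, h3, h4⟩, h5⟩
      exact ⟨t, ⟨h1, h2, h3, h5⟩, h4⟩
    · rintro ⟨t, ⟨h1, h2, h3, h5⟩, h4⟩
      exact ⟨t, ⟨h1, h2, h3, h4⟩, h5⟩
  rw [h]
  refine MeasurableSet.iUnion fun t => ?_
  refine MeasurableSet.inter (MeasurableSet.const _) ?_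
  have hf : Measurable fun v : ℝ × ℝ => |(t.1 : ℝ) ^ p + v.1 * (t.2.1 : ℝ) ^ q - v.2 * (t.2.2 : ℝ) ^ r| := by
    fun_prop
  exact measurableSet_lt hf measurable_const

/-- `k` and `Λ` for a region -/
theorem exists_par {p q r : ℕ} (hp : 1 ≤ p) (hq : 1 ≤ q) (hr : 1 ≤ r) {a1 b0 b1 : ℝ} (hb0 : 0 < b0)
    (ha1 : 0 < a1) (hb1 : 0 < b1) : ∃ (k : ℕ) (Λ : ℝ), 1 ≤ k ∧ 1 ≤ Λ ∧ ∀ (n : ℕ) (a b l δ : ℝ), 0 < a → a ≤ a1 →
      b0 ≤ b → b ≤ b1 → 1 ≤ n → 0 < l → l ≤ 1 → 0 < δ → δ ≤ l * HH q r n / 4 →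
      8 * p * Λ ≤ l * HH q r n ^ (1 / (p : ℝ)) → Par p q r k Λ a b l δ n := by
  obtain ⟨k0, hk0⟩ := exists_nat_ge ((a1 * 2 ^ q + 1) / b0)
  set k : ℕ := k0 + 1 with hk
  have hk1 : 1 ≤ k := by omega
  have hkr : (a1 * 2 ^ q + 1) ≤ b0 * (k : ℝ) ^ r := by
    have h1 : (a1 * 2 ^ q + 1) ≤ b0 * k := by
      have : (a1 * 2 ^ q + 1) / b0 ≤ k := hk0.trans (by rw [hk]; push_cast; linarith)
      rw [div_le_iff₀ hb0] at this
      linarith
    have h2 : (k : ℝ) ≤ (k : ℝ) ^ r := le_self_pow₀ (by exact_mod_cast hk1) (by omega)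
    nlinarith
  refine ⟨k, 2 ^ q + (2 * (k : ℝ)) ^ r + b1 * (2 * (k : ℝ)) ^ r + 1, hk1, ?_, ?_⟩
  · have : (0 : ℝ) ≤ 2 ^ q + (2 * (k : ℝ)) ^ r + b1 * (2 * (k : ℝ)) ^ r := by positivity
    linarith
  intro n a b l δ ha haa hb hbb hn hl hl1 hδ hδH hX
  have g1 : (0 : ℝ) ≤ 2 ^ q := by positivity
  have g2 : (0 : ℝ) ≤ (2 * (k : ℝ)) ^ r := by positivity
  have g3 : (0 : ℝ) ≤ b1 * (2 * (k : ℝ)) ^ r := by positivity
  refine ⟨hp, hq, hr, hk1, hn, hl, hl1, hδ, hδH, by linarith, by linarith, ?_, hX⟩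
  intro s hs
  obtain ⟨y1, y2, z1, z2⟩ := YZ_bounds hk1 hs
  have hH : 0 < HH q r n := lt_of_lt_of_le one_pos (HH_one_le hn)
  have z3 : (k : ℝ) ^ r * HH q r n ≤ (s.2 : ℝ) ^ r := by
    unfold YZ at hs
    rw [Finset.mem_product, Finset.mem_Ioc, Finset.mem_Ioc] at hs
    have h3 : (k : ℝ) * (n : ℝ) ^ q ≤ s.2 := by exact_mod_cast hs.2.1.le
    have e2 : HH q r n = ((n : ℝ) ^ q) ^ r := by
      unfold HH
      rw [← pow_mul]
    rw [e2, ← mul_pow]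
    exact pow_le_pow_left₀ (by positivity) h3 r
  have hb' : 0 < b := hb0.trans_le hb
  unfold uu
  constructor
  · have h1 : (a1 * 2 ^ q + 1) * HH q r n ≤ b * (s.2 : ℝ) ^ r := by
      calc (a1 * 2 ^ q + 1) * HH q r n ≤ (b0 * (k : ℝ) ^ r) * HH q r n :=
            mul_le_mul_of_nonneg_right hkr hH.le
        _ = b0 * ((k : ℝ) ^ r * HH q r n) := by ring
        _ ≤ b * (s.2 : ℝ) ^ r := by
            apply mul_le_mul hb z3 (by positivity) hb'.le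
    have h2 : a * (s.1 : ℝ) ^ q ≤ a1 * (2 ^ q * HH q r n) := by
      apply mul_le_mul haa y2 (by positivity) ha1.le
    nlinarith
  · have h1 : b * (s.2 : ℝ) ^ r ≤ b1 * ((2 * (k : ℝ)) ^ r * HH q r n) := by
      apply mul_le_mul hbb z2 (by positivity) hb1.le
    have h2 : 0 ≤ a * (s.1 : ℝ) ^ q := by positivity
    nlinarith [mul_nonneg g1 hH.le, mul_nonneg g2 hH.le]

theorem region {p q r : ℕ} (hp : 1 ≤ p) (hq : 1 ≤ q) (hr : 1 ≤ r) {a0 a1 b0 b1 ε : ℝ} (ha0 : 0 < a0)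
    (ha : a0 < a1) (hb0 : 0 < b0) (hb : b0 < b1) (hε : 0 < ε)
    (hε1 : ε < 1 / (p : ℝ) + 1 / (q : ℝ) + 1 / (r : ℝ)) :
    ∀ᵐ v : ℝ × ℝ, a0 < v.1 → v.1 < a1 → b0 < v.2 → v.2 < b1 →
      ∃ᶠ n in atTop, v ∈ EE p q r (1 - 1 / (p : ℝ) - 1 / (q : ℝ) - 1 / (r : ℝ) + ε) n := by
  have ha1 : 0 < a1 := ha0.trans ha
  have hb1 : 0 < b1 := hb0.trans hb
  obtain ⟨k, Λ, hk, hΛ, hpar⟩ := exists_par (p := p) hp hq hr hb0 ha1 hb1
  obtain ⟨C, hC, hcore⟩ := core hq hr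
  have hp' : (1 : ℝ) ≤ p := by exact_mod_cast hp
  set c : ℝ := 1 / ((8 * p * Λ ^ 3) ^ 2 * (2 + 128 * Λ)) with hc
  have hc0 : 0 < c := by positivity
  apply dens (measurable_EE p q r _) hc0
  intro a b l hl hl1 h1 h2 h3 h4
  set e : ℝ := 1 - 1 / (p : ℝ) - 1 / (q : ℝ) - 1 / (r : ℝ) + ε with he
  set ρ : ℝ := 1 - 1 / (p : ℝ) - 1 / (q : ℝ) - 1 / (r : ℝ) + ε / 2 with hρ
  have hev := evt (C := C) (Λ := Λ) (l := l) (k := k) hp hq hr hk hρ (by positivity) (by linarith) hl hC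
  set m : ℝ := min 1 ((Λ + 1) ^ e) with hm
  have hm0 : 0 < m := lt_min one_pos (by positivity)
  have hev2 : ∀ᶠ n : ℕ in atTop, 1 ≤ m * HH q r n ^ (ε / 2) := by
    have t1 : Tendsto (fun n : ℕ => (n : ℝ) ^ (ε / 2)) atTop atTop :=
      (tendsto_rpow_atTop (by positivity)).comp tendsto_natCast_atTop_atTop
    filter_upwards [t1.eventually_ge_atTop (1 / m), eventually_ge_atTop 1] with n hn hn1
    have hn1' : (1 : ℝ) ≤ n := by exact_mod_cast hn1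
    have h5 : (n : ℝ) ≤ HH q r n := by
      unfold HH
      exact le_self_pow₀ hn1' (by positivity)
    have h6 : (n : ℝ) ^ (ε / 2) ≤ HH q r n ^ (ε / 2) := Real.rpow_le_rpow (by positivity) h5 (by positivity)
    have h7 : 1 / m ≤ HH q r n ^ (ε / 2) := hn.trans h6
    rw [div_le_iff₀ hm0] at h7
    linarith
  filter_upwards [hev, hev2] with n hn hn2
  obtain ⟨hn1, c1, c2, c3, c4⟩ := hn
  have hH1 : 1 ≤ HH q r n := HH_one_le hn1
  have hH0 : 0 < HH q r n := by linarith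
  have hδ : 0 < HH q r n ^ ρ := by positivity
  have P := hpar n a b l (HH q r n ^ ρ) (by linarith) (by linarith) (by linarith) (by linarith) hn1 hl hl1 hδ c1 c2
  refine (hcore P c3 c4).trans (measure_mono ?_)
  intro v hv
  simp only [Set.mem_iUnion] at hv
  obtain ⟨t, ht, hvt⟩ := hv
  obtain ⟨s, x⟩ := t
  unfold TT at ht
  rw [Finset.mem_sigma] at ht
  obtain ⟨hs, hx⟩ := ht
  simp only at hs hx
  rw [mem_Xs hp] at hx
  obtain ⟨hst, hsq⟩ := hvt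
  refine ⟨?_, hsq⟩
  have hst' : |(x : ℝ) ^ p + v.1 * (s.1 : ℝ) ^ q - v.2 * (s.2 : ℝ) ^ r| < HH q r n ^ ρ := hst
  obtain ⟨y1, y2, z1, z2⟩ := YZ_bounds hk hs
  obtain ⟨u1, u2⟩ := P.hu s hs
  have hx2 := abs_le.mp hx
  have hlH : l * HH q r n ≤ HH q r n := by nlinarith
  have hs' := hs
  unfold YZ at hs'
  rw [Finset.mem_product, Finset.mem_Ioc, Finset.mem_Ioc] at hs'
  have hxpos : 0 < x := by
    rcases Nat.eq_zero_or_pos x with h0 | h0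
    · exfalso
      subst h0
      have e0 : ((0 : ℕ) : ℝ) ^ p = 0 := by
        rw [Nat.cast_zero, zero_pow (by omega)]
      rw [e0] at hx2
      linarith [hx2.1]
    · exact h0
  refine ⟨(x, s.1, s.2), ⟨hxpos, by simp only; omega, by simp only; omega, ?_⟩, ?_⟩
  · simp only
    refine hst'.trans_le ?_
    have hM1 : HH q r n ≤ mxN p q r (x, s.1, s.2) := y1.trans ((le_max_left _ _).trans (le_max_right _ _))
    have hM2 : mxN p q r (x, s.1, s.2) ≤ (Λ + 1) * HH q r n := by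
      apply max_le
      · simp only
        linarith [hx2.2]
      · apply max_le
        · simp only
          have := mul_le_mul_of_nonneg_right P.hΛ1 hH0.le
          linarith
        · simp only
          have := mul_le_mul_of_nonneg_right P.hΛ2 hH0.le
          linarith
    have hM0 : 0 < mxN p q r (x, s.1, s.2) := hH0.trans_le hM1
    have hlow : m * HH q r n ^ e ≤ mxN p q r (x, s.1, s.2) ^ e := by
      have hHe : 0 ≤ HH q r n ^ e := by positivity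
      rcases le_total 0 e with he0 | he0
      · calc m * HH q r n ^ e ≤ 1 * HH q r n ^ e := mul_le_mul_of_nonneg_right (min_le_left _ _) hHe
          _ = HH q r n ^ e := one_mul _
          _ ≤ _ := Real.rpow_le_rpow hH0.le hM1 he0
      · calc m * HH q r n ^ e ≤ (Λ + 1) ^ e * HH q r n ^ e := mul_le_mul_of_nonneg_right (min_le_right _ _) hHe
          _ = ((Λ + 1) * HH q r n) ^ e := (Real.mul_rpow (by linarith) hH0.le).symm
          _ ≤ _ := Real.rpow_le_rpow_of_nonpos hM0 hM2 he0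
    refine le_trans ?_ hlow
    have e5 : HH q r n ^ e = HH q r n ^ (ε / 2) * HH q r n ^ ρ := by
      rw [← Real.rpow_add hH0]
      congr 1
      rw [he, hρ]
      ring
    rw [e5, ← mul_assoc]
    have : 0 ≤ HH q r n ^ ρ := hδ.le
    nlinarith
  · simp only
    have : n ≤ n ^ r := Nat.le_self_pow (by omega) n
    omega

theorem near_mono {p q r : ℕ} {e e' : ℝ} (h : e' ≤ e) (v : ℝ × ℝ) : Near p q r e' v ⊆ Near p q r e v := by
  rintro t ⟨h1, h2, h3, h4⟩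
  refine ⟨h1, h2, h3, h4.trans_le ?_⟩
  apply Real.rpow_le_rpow_of_exponent_le ?_ h
  have : (1 : ℝ) ≤ (t.1 : ℝ) ^ p := one_le_pow₀ (by exact_mod_cast h1)
  exact this.trans (le_max_left _ _)

theorem sharp {p q r : ℕ} (hp : 1 ≤ p) (hq : 1 ≤ q) (hr : 1 ≤ r) :
    ∀ᵐ v : ℝ × ℝ, 0 < v.1 → 0 < v.2 → ∀ ε : ℝ, 0 < ε →
      (Near p q r (1 - 1 / (p : ℝ) - 1 / (q : ℝ) - 1 / (r : ℝ) + ε) v).Infinite := by
  have hp' : (1 : ℝ) ≤ p := by exact_mod_cast hp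
  have hq' : (1 : ℝ) ≤ q := by exact_mod_cast hq
  have hr' : (1 : ℝ) ≤ r := by exact_mod_cast hr
  set s : ℝ := 1 / (p : ℝ) + 1 / (q : ℝ) + 1 / (r : ℝ) with hs
  have hs0 : 0 < s := by positivity
  have key : ∀ᵐ v : ℝ × ℝ, ∀ m : ℕ, ∀ N : ℕ, (1 : ℝ) / (N + 2) < v.1 → v.1 < N + 2 → (1 : ℝ) / (N + 2) < v.2 →
      v.2 < N + 2 → ∃ᶠ n in atTop, v ∈ EE p q r (1 - 1 / (p : ℝ) - 1 / (q : ℝ) - 1 / (r : ℝ) +
        min (1 / ((m : ℝ) + 1)) (s / 2)) n := by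
    rw [ae_all_iff]
    intro m
    rw [ae_all_iff]
    intro N
    have hN : (0 : ℝ) ≤ N := Nat.cast_nonneg N
    have h1 : (1 : ℝ) / (N + 2) < N + 2 := by
      rw [div_lt_iff₀ (by linarith)]
      nlinarith
    apply region hp hq hr (by positivity) h1 (by positivity) h1
    · exact lt_min (by positivity) (by positivity)
    · exact lt_of_le_of_lt (min_le_right _ _) (by linarith)
  filter_upwards [key] with v hv hv1 hv2 ε hε
  obtain ⟨m, hm⟩ := exists_nat_one_div_lt hε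
  obtain ⟨N1, hN1⟩ := exists_nat_ge (max (max v.1 v.2) (max (1 / v.1) (1 / v.2)))
  have a1 : v.1 < (N1 : ℝ) + 2 := by linarith [le_max_left v.1 v.2, (le_max_left _ _).trans hN1]
  have a2 : v.2 < (N1 : ℝ) + 2 := by linarith [le_max_right v.1 v.2, (le_max_left _ _).trans hN1]
  have a3 : (1 : ℝ) / (N1 + 2) < v.1 := by
    have h : 1 / v.1 < (N1 : ℝ) + 2 := by
      linarith [le_max_left (1 / v.1) (1 / v.2), (le_max_right _ _).trans hN1]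
    rw [div_lt_iff₀ hv1] at h
    rw [div_lt_iff₀ (by positivity)]
    linarith
  have a4 : (1 : ℝ) / (N1 + 2) < v.2 := by
    have h : 1 / v.2 < (N1 : ℝ) + 2 := by
      linarith [le_max_right (1 / v.1) (1 / v.2), (le_max_right _ _).trans hN1]
    rw [div_lt_iff₀ hv2] at h
    rw [div_lt_iff₀ (by positivity)]
    linarith
  have hfr := hv m N1 a3 a1 a4 a2
  have hmono : 1 - 1 / (p : ℝ) - 1 / (q : ℝ) - 1 / (r : ℝ) + min (1 / ((m : ℝ) + 1)) (s / 2) ≤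
      1 - 1 / (p : ℝ) - 1 / (q : ℝ) - 1 / (r : ℝ) + ε := by
    have := min_le_left (1 / ((m : ℝ) + 1)) (s / 2)
    linarith
  intro hfin
  have hfin' := hfin.subset (near_mono hmono v)
  obtain ⟨B, hB⟩ := (hfin'.image (fun t : ℕ × ℕ × ℕ => t.2.1)).bddAbove
  obtain ⟨n, ⟨t, ht, hnt⟩, hn⟩ := (hfr.and_eventually (eventually_gt_atTop B)).exists
  have : t.2.1 ≤ B := hB ⟨t, ht, rfl⟩
  omega

end MAbc
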